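import Pool.Agent.Lib.Pe46137Q.Graph

/-!
Many subsquares in parallel in one oriented grid: the subsquare number `k` (`k < s * s`) has the
lower left corner `(px s m k, py s m k)`; a comb from the bottom row leads to the lower left corners,
and a comb to the top row leads away from the upper right corners.
-/

namespace Pool.Agent.Lib.Pe46137Q

open Pool.Agent.Lib.Pe46137
open Pool.Agent.Lib.Pe46137P (Crosses)

/-- first coordinate of the lower left corner of the subsquare number `k` -/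
def px (s m k : ℕ) : ℕ := k / s * (m + 3) + 1

/-- second coordinate of the lower left corner of the subsquare number `k` -/
def py (s m k : ℕ) : ℕ := k % s * (m + 3) + 1

/-- the two combs -/
def comb (n s m : ℕ) : Set (Vtx n × Vtx n) :=
  {e | e ∈ grid n ∧ (((e.1.2 : ℕ) = 0 ∧ (e.2.2 : ℕ) = 0) ∨
    (∃ i < s, (e.1.1 : ℕ) = i * (m + 3) ∧ (e.2.1 : ℕ) = i * (m + 3) ∧ (e.2.2 : ℕ) < n) ∨
    (∃ i < s, ∃ j < s, (e.1.1 : ℕ) = i * (m + 3) ∧ (e.2.1 : ℕ) = i * (m + 3) + 1 ∧
      (e.1.2 : ℕ) = j * (m + 3) + 1) ∨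
    (∃ i < s, ∃ j < s, (e.1.1 : ℕ) = i * (m + 3) + (m + 1) ∧
      (e.2.1 : ℕ) = i * (m + 3) + (m + 2) ∧ (e.1.2 : ℕ) = j * (m + 3) + (m + 1)) ∨
    (∃ i < s, (e.1.1 : ℕ) = i * (m + 3) + (m + 2) ∧ (e.2.1 : ℕ) = i * (m + 3) + (m + 2) ∧
      1 ≤ (e.1.2 : ℕ)) ∨
    ((e.1.2 : ℕ) = n ∧ (e.2.2 : ℕ) = n))}

variable {n s m l w : ℕ}

/-- the arcs in a subsquare which do not leave the source side of `θ` -/
def cutp (n p q m : ℕ) (θ : Fin l → Fin (w + 1)) : Set (Vtx n × Vtx n) :=
  {e | e ∈ grid n ∧ e ∈ square n p q m ∧ ¬ (Below p q θ e.1 ∧ ¬ Below p q θ e.2)}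

/-- the path in a subsquare -/
def pathp (n p q m : ℕ) (f : Fin l → Fin w) : Set (Vtx n × Vtx n) :=
  {e | ∃ u < 2 * m, e = (pt n p q f u, pt n p q f (u + 1))}

/-- the subsquares before the `k`-th are cut by `C`, the others are empty -/
def pre (n s m : ℕ) {L : ℕ} (C : Fin L → Fin l → Fin (w + 1)) (k : ℕ) : Set (Vtx n × Vtx n) :=
  comb n s m ∪ {e | ∃ j : Fin L, (j : ℕ) < k ∧ e ∈ cutp n (px s m j) (py s m j) m (C j)}

theorem pre_mono {L : ℕ} (C : Fin L → Fin l → Fin (w + 1)) {k k' : ℕ} (h : k ≤ k') :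
    pre n s m C k ⊆ pre n s m C k' := by
  rintro e (he | ⟨j, hj, he⟩)
  · exact Or.inl he
  · exact Or.inr ⟨j, hj.trans_le h, he⟩

theorem pre_succ {L : ℕ} (C : Fin L → Fin l → Fin (w + 1)) (i : Fin L) :
    pre n s m C (i + 1) = pre n s m C i ∪ cutp n (px s m i) (py s m i) m (C i) := by
  ext e
  constructor
  · rintro (he | ⟨j, hj, he⟩)
    · exact Or.inl (Or.inl he)
    · rcases Nat.lt_succ_iff_lt_or_eq.1 hj with h | h
      · exact Or.inl (Or.inr ⟨j, h, he⟩)
      · have : j = i := Fin.ext h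
        subst this
        exact Or.inr he
  · rintro ((he | ⟨j, hj, he⟩) | he)
    · exact Or.inl he
    · exact Or.inr ⟨j, by omega, he⟩
    · exact Or.inr ⟨i, by omega, he⟩

theorem pre_congr {L : ℕ} {C C' : Fin L → Fin l → Fin (w + 1)} {k : ℕ}
    (h : ∀ j : Fin L, (j : ℕ) < k → C j = C' j) : pre n s m C k = pre n s m C' k := by
  ext e
  constructor
  · rintro (he | ⟨j, hj, he⟩)
    · exact Or.inl he
    · exact Or.inr ⟨j, hj, by rw [← h j hj]; exact he⟩
  · rintro (he | ⟨j, hj, he⟩)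
    · exact Or.inl he
    · exact Or.inr ⟨j, hj, by rw [h j hj]; exact he⟩

theorem pre_grid {L : ℕ} (C : Fin L → Fin l → Fin (w + 1)) (k : ℕ) :
    pre n s m C k ⊆ grid n := by
  rintro e (he | ⟨j, _, he⟩)
  · exact he.1
  · exact he.1

theorem uniq {T i i' r r' : ℕ} (hr : r < T) (hr' : r' < T) (h : i * T + r = i' * T + r') :
    i = i' ∧ r = r' := by
  have h1 : (i * T + r) / T = i := by
    rw [Nat.mul_comm, Nat.mul_add_div (by omega), Nat.div_eq_of_lt hr, Nat.add_zero]
  have h2 : (i' * T + r') / T = i' := by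
    rw [Nat.mul_comm, Nat.mul_add_div (by omega), Nat.div_eq_of_lt hr', Nat.add_zero]
  have h3 : i = i' := by rw [← h1, ← h2, h]
  subst h3
  exact ⟨rfl, by omega⟩

/-- two intervals of the subdivision -/
theorem uniq' {T i i' a r r' : ℕ} (hr : r < T) (h1 : i * T + 1 ≤ a) (h2 : a ≤ i * T + r')
    (hr' : r' < T) (h : a = i' * T + r) : i = i' ∧ 1 ≤ r ∧ r ≤ r' := by
  obtain ⟨x, rfl⟩ := Nat.exists_eq_add_of_le h1
  have h3 := uniq (T := T) (i := i) (i' := i') (r := 1 + x) (r' := r) (by omega) hr (by omega)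
  omega

theorem block_bounds (hs : s * (m + 3) ≤ n + 1) {k : ℕ} (hk : k < s * s) :
    px s m k + m + 1 ≤ n ∧ py s m k + m + 1 ≤ n := by
  have hs0 : 0 < s := Nat.pos_of_ne_zero (by rintro rfl; simp at hk)
  have h1 : k / s + 1 ≤ s := (Nat.div_lt_iff_lt_mul hs0).2 hk
  have h2 : k % s + 1 ≤ s := Nat.mod_lt k hs0
  have h3 : (k / s + 1) * (m + 3) ≤ s * (m + 3) := Nat.mul_le_mul_right _ h1
  have h4 : (k % s + 1) * (m + 3) ≤ s * (m + 3) := Nat.mul_le_mul_right _ h2
  have h5 : (k / s + 1) * (m + 3) = k / s * (m + 3) + (m + 3) := by ring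
  have h6 : (k % s + 1) * (m + 3) = k % s * (m + 3) + (m + 3) := by ring
  unfold px py
  omega

theorem Below_corner {p q : ℕ} (θ : Fin l → Fin (w + 1)) {a : Vtx n} (h1 : (a.1 : ℕ) = p)
    (h2 : (a.2 : ℕ) = q) : Below p q θ a := by
  unfold Below
  rw [h1, h2]
  simp only [Nat.sub_self, Nat.add_zero, sub_self]
  rw [cut_start]
  positivity

theorem not_Below_corner {p q : ℕ} (hm : (l + 1) * (4 * w + 4) ≤ 2 * m)
    (θ : Fin l → Fin (w + 1)) {a : Vtx n} (h1 : (a.1 : ℕ) = p + m)
    (h2 : (a.2 : ℕ) = q + m) : ¬ Below p q θ a := by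
  unfold Below
  rw [h1, h2]
  have e : p + m - p + (q + m - q) = 2 * m := by omega
  rw [e]
  have := cut_end hm θ
  push_cast
  intro h
  have h3 : (p : ℤ) + m - p - (q + m - q) = 0 := by ring
  rw [h3] at h
  omega

/-- nothing is accepted before a path is inserted -/
theorem pre_not_reach (hm : (l + 1) * (4 * w + 4) ≤ 2 * m) (hs : s * (m + 3) ≤ n + 1)
    (hs0 : 1 ≤ s) (C : Fin (s * s) → Fin l → Fin (w + 1)) (k : ℕ) :
    ¬ Reachable (pre n s m C k) (southwest n) (northeast n) := by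
  have hn : m + 3 ≤ n + 1 := le_trans (by nlinarith) hs
  intro h
  set R : Vtx n → Prop := fun a => (a.2 : ℕ) = 0 ∨
    (∃ i < s, (a.1 : ℕ) = i * (m + 3) ∧ (a.2 : ℕ) < n) ∨
    (∃ j : Fin (s * s), (px s m j ≤ (a.1 : ℕ) ∧ (a.1 : ℕ) ≤ px s m j + m ∧
      py s m j ≤ (a.2 : ℕ) ∧ (a.2 : ℕ) ≤ py s m j + m) ∧
      Below (px s m j) (py s m j) (C j) a) with hR
  have hblock : ∀ j : Fin (s * s), ∀ a : Vtx n, px s m j ≤ (a.1 : ℕ) → (a.1 : ℕ) ≤ px s m j + m →
      ∀ i r, r < m + 3 → (a.1 : ℕ) = i * (m + 3) + r →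
      (j : ℕ) / s = i ∧ 1 ≤ r ∧ r ≤ m + 1 := by
    intro j a h1 h2 i r hr h3
    unfold px at h1 h2
    exact uniq' (T := m + 3) hr h1 (by omega : (a.1 : ℕ) ≤ (j : ℕ) / s * (m + 3) + (m + 1))
      (by omega) h3
  have hblock' : ∀ j : Fin (s * s), ∀ a : Vtx n, py s m j ≤ (a.2 : ℕ) → (a.2 : ℕ) ≤ py s m j + m →
      ∀ i r, r < m + 3 → (a.2 : ℕ) = i * (m + 3) + r →
      (j : ℕ) % s = i ∧ 1 ≤ r ∧ r ≤ m + 1 := by
    intro j a h1 h2 i r hr h3
    unfold py at h1 h2
    exact uniq' (T := m + 3) hr h1 (by omega : (a.2 : ℕ) ≤ (j : ℕ) % s * (m + 3) + (m + 1))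
      (by omega) h3
  have key : ∀ a b, R a → (a, b) ∈ pre n s m C k → R b := by
    intro a b ha hab
    rcases hab with ⟨hg, hab⟩ | ⟨j, hj, hg, hsq, hab⟩
    · simp only [grid, Set.mem_ofPred_eq] at hg
      simp only at hab
      rcases hab with h1 | ⟨i, hi, h1⟩ | ⟨i, hi, j, hj, h1⟩ | ⟨i, hi, j, hj, h1⟩ | ⟨i, hi, h1⟩ | h1
      · exact Or.inl h1.2
      · exact Or.inr (Or.inl ⟨i, hi, h1.2.1, h1.2.2⟩)
      · -- into a corner
        right; right
        have hk : i * s + j < s * s := by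
          have : (i + 1) * s ≤ s * s := Nat.mul_le_mul_right _ hi
          have e : (i + 1) * s = i * s + s := by ring
          omega
        have e1 : (i * s + j) / s = i := by
          rw [Nat.mul_comm, Nat.mul_add_div (by omega), Nat.div_eq_of_lt hj, Nat.add_zero]
        have e2 : (i * s + j) % s = j := by
          rw [Nat.mul_comm, Nat.mul_add_mod, Nat.mod_eq_of_lt hj]
        refine ⟨⟨i * s + j, hk⟩, ?_, ?_⟩
        · simp only [px, py, e1, e2]
          omega
        · apply Below_corner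
          · simp only [px, e1]; omega
          · simp only [py, e2]; omega
      · -- out of a corner
        exfalso
        rcases ha with h2 | ⟨i', _, h2, _⟩ | ⟨k', ⟨g1, g2, g3, g4⟩, h3⟩
        · omega
        · have := uniq (T := m + 3) (i := i) (i' := i') (r := m + 1) (r' := 0) (by omega)
            (by omega) (by omega)
          omega
        · have u1 := hblock k' a g1 g2 i (m + 1) (by omega) h1.1
          have u2 := hblock' k' a g3 g4 j (m + 1) (by omega) h1.2.2
          refine not_Below_corner hm (C k') (a := a) ?_ ?_ h3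
          · unfold px; rw [u1.1]; omega
          · unfold py; rw [u2.1]; omega
      · -- out columns
        exfalso
        rcases ha with h2 | ⟨i', _, h2, _⟩ | ⟨k', ⟨g1, g2, g3, g4⟩, h3⟩
        · omega
        · have := uniq (T := m + 3) (i := i) (i' := i') (r := m + 2) (r' := 0) (by omega)
            (by omega) (by omega)
          omega
        · have u1 := hblock k' a g1 g2 i (m + 2) (by omega) h1.1
          omega
      · -- top row
        exfalso
        rcases ha with h2 | ⟨i', _, _, h2⟩ | ⟨k', ⟨g1, g2, g3, g4⟩, h3⟩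
        · omega
        · omega
        · have := (block_bounds hs k'.2).2
          omega
    · rw [square_iff] at hsq
      simp only at hsq hab
      right; right
      refine ⟨j, hsq.2, ?_⟩
      by_contra hc
      refine hab ⟨?_, hc⟩
      rcases ha with h2 | ⟨i', _, h2, _⟩ | ⟨k', ⟨g1, g2, g3, g4⟩, h3⟩
      · have : 1 ≤ py s m j := by unfold py; omega
        omega
      · have u1 := hblock j a hsq.1.1 hsq.1.2.1 i' 0 (by omega) (by omega)
        omega
      · -- the same subsquare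
        have hk1 : (k' : ℕ) / s = (j : ℕ) / s := by
          obtain ⟨x, hx⟩ := Nat.exists_eq_add_of_le hsq.1.1
          have hx1 : x ≤ m := by have := hsq.1.2.1; omega
          exact (hblock k' a g1 g2 ((j : ℕ) / s) (1 + x) (by omega) (by unfold px at hx; omega)).1
        have hk2 : (k' : ℕ) % s = (j : ℕ) % s := by
          obtain ⟨x, hx⟩ := Nat.exists_eq_add_of_le hsq.1.2.2.1
          have hx1 : x ≤ m := by have := hsq.1.2.2.2; omega
          exact (hblock' k' a g3 g4 ((j : ℕ) % s) (1 + x) (by omega) (by unfold py at hx; omega)).1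
        have hk3 : k' = j := by
          apply Fin.ext
          rw [← Nat.div_add_mod (k' : ℕ) s, ← Nat.div_add_mod (j : ℕ) s, hk1, hk2]
        rw [← hk3]
        exact h3
  have h0 : R (southwest n) := Or.inl rfl
  have h1 : R (northeast n) := by
    have : ∀ b, Reachable (pre n s m C k) (southwest n) b → R b := by
      intro b hb
      induction hb with
      | refl => exact h0
      | tail _ hbc ih => exact key _ _ ih hbc
    exact this _ h
  have e2 : ((northeast n).2 : ℕ) = n := rfl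
  rcases h1 with h1 | ⟨i, _, _, h1⟩ | ⟨j, h1, _⟩
  · rw [e2] at h1; omega
  · rw [e2] at h1; omega
  · rw [e2] at h1
    have := (block_bounds hs j.2).2
    omega

/-- with the path inserted in one subsquare the input is accepted -/
theorem comb_reach (hw : 1 ≤ w) (hm : (l + 1) * (4 * w + 4) ≤ 2 * m) (hs : s * (m + 3) ≤ n + 1)
    {k : ℕ} (hk : k < s * s) (f : Fin l → Fin w) :
    Reachable (comb n s m ∪ pathp n (px s m k) (py s m k) m f) (southwest n) (northeast n) := by
  have hm0 : 1 ≤ m := by nlinarith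
  have hs0 : 0 < s := Nat.pos_of_ne_zero (by rintro rfl; simp at hk)
  have hi : k / s < s := (Nat.div_lt_iff_lt_mul hs0).2 hk
  have hj : k % s < s := Nat.mod_lt k hs0
  obtain ⟨hb1, hb2⟩ := block_bounds hs hk
  set p := px s m k with hp
  set q := py s m k with hq
  set c := k / s * (m + 3) with hc
  have hpc : p = c + 1 := rfl
  have hqc : q = k % s * (m + 3) + 1 := rfl
  have r1 : Reachable (comb n s m ∪ pathp n p q m f) (vtx n 0 0) (vtx n c 0) := by
    refine reach_seq (fun u => vtx n u 0) c (fun u hu => Or.inl ⟨?_, Or.inl ?_⟩)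
    · left
      simp only
      rw [vtx_fst (show u + 1 ≤ n by omega), vtx_fst (show u ≤ n by omega),
        vtx_snd (Nat.zero_le _), vtx_snd (Nat.zero_le _)]
      exact ⟨rfl, rfl⟩
    · simp only
      rw [vtx_snd (Nat.zero_le _), vtx_snd (Nat.zero_le _)]
      exact ⟨rfl, rfl⟩
  have r2 : Reachable (comb n s m ∪ pathp n p q m f) (vtx n c 0) (vtx n c q) := by
    refine reach_seq (fun u => vtx n c u) q (fun u hu => Or.inl ⟨?_, Or.inr (Or.inl ?_)⟩)
    · right
      simp only
      rw [vtx_fst (show c ≤ n by omega), vtx_fst (show c ≤ n by omega),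
        vtx_snd (show u + 1 ≤ n by omega), vtx_snd (show u ≤ n by omega)]
      exact ⟨rfl, rfl⟩
    · simp only
      refine ⟨k / s, hi, ?_⟩
      rw [vtx_fst (show c ≤ n by omega), vtx_fst (show c ≤ n by omega),
        vtx_snd (show u + 1 ≤ n by omega)]
      omega
  have r2' : Reachable (comb n s m ∪ pathp n p q m f) (vtx n c q) (vtx n p q) := by
    refine Relation.ReflTransGen.single (Or.inl ⟨?_, Or.inr (Or.inr (Or.inl ?_))⟩)
    · left
      simp only
      rw [vtx_fst (show c ≤ n by omega), vtx_fst (show p ≤ n by omega),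
        vtx_snd (show q ≤ n by omega), vtx_snd (show q ≤ n by omega)]
      exact ⟨by omega, rfl⟩
    · simp only
      refine ⟨k / s, hi, k % s, hj, ?_⟩
      rw [vtx_fst (show c ≤ n by omega), vtx_fst (show p ≤ n by omega),
        vtx_snd (show q ≤ n by omega)]
      omega
  have r3 : Reachable (comb n s m ∪ pathp n p q m f) (pt n p q f 0) (pt n p q f (2 * m)) :=
    reach_seq (fun u => pt n p q f u) (2 * m) (fun u hu => Or.inr ⟨u, hu, rfl⟩)
  have r4 : Reachable (comb n s m ∪ pathp n p q m f) (vtx n (p + m) (q + m))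
      (vtx n (p + m + 1) (q + m)) := by
    refine Relation.ReflTransGen.single (Or.inl ⟨?_, Or.inr (Or.inr (Or.inr (Or.inl ?_)))⟩)
    · left
      simp only
      rw [vtx_fst (show p + m ≤ n by omega), vtx_fst (show p + m + 1 ≤ n by omega),
        vtx_snd (show q + m ≤ n by omega), vtx_snd (show q + m ≤ n by omega)]
      exact ⟨rfl, rfl⟩
    · simp only
      refine ⟨k / s, hi, k % s, hj, ?_⟩
      rw [vtx_fst (show p + m ≤ n by omega), vtx_fst (show p + m + 1 ≤ n by omega),
        vtx_snd (show q + m ≤ n by omega)]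
      omega
  have r5 : Reachable (comb n s m ∪ pathp n p q m f) (vtx n (p + m + 1) (q + m))
      (vtx n (p + m + 1) n) := by
    have h := reach_seq (G := comb n s m ∪ pathp n p q m f)
      (fun u => vtx n (p + m + 1) (q + m + u)) (n - (q + m))
      (fun u hu => Or.inl ⟨?_, Or.inr (Or.inr (Or.inr (Or.inr (Or.inl ?_))))⟩)
    · have e : q + m + (n - (q + m)) = n := by omega
      simp only [e, Nat.add_zero] at h
      exact h
    · right
      simp only
      rw [vtx_fst (show p + m + 1 ≤ n by omega), vtx_fst (show p + m + 1 ≤ n by omega),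
        vtx_snd (show q + m + (u + 1) ≤ n by omega), vtx_snd (show q + m + u ≤ n by omega)]
      exact ⟨rfl, rfl⟩
    · simp only
      refine ⟨k / s, hi, ?_⟩
      rw [vtx_fst (show p + m + 1 ≤ n by omega), vtx_fst (show p + m + 1 ≤ n by omega),
        vtx_snd (show q + m + u ≤ n by omega)]
      omega
  have r6 : Reachable (comb n s m ∪ pathp n p q m f) (vtx n (p + m + 1) n) (vtx n n n) := by
    have h := reach_seq (G := comb n s m ∪ pathp n p q m f)
      (fun u => vtx n (p + m + 1 + u) n) (n - (p + m + 1))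
      (fun u hu => Or.inl ⟨?_, Or.inr (Or.inr (Or.inr (Or.inr (Or.inr ?_))))⟩)
    · have e : p + m + 1 + (n - (p + m + 1)) = n := by omega
      simp only [e, Nat.add_zero] at h
      exact h
    · left
      simp only
      rw [vtx_fst (show p + m + 1 + (u + 1) ≤ n by omega),
        vtx_fst (show p + m + 1 + u ≤ n by omega),
        vtx_snd (show n ≤ n from le_rfl), vtx_snd (show n ≤ n from le_rfl)]
      exact ⟨rfl, rfl⟩
    · simp only
      rw [vtx_snd (show n ≤ n from le_rfl), vtx_snd (show n ≤ n from le_rfl)]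
      exact ⟨rfl, rfl⟩
  have e0 : southwest n = vtx n 0 0 := by
    refine vtx_ext ?_ ?_
    · rw [vtx_fst (Nat.zero_le _)]; rfl
    · rw [vtx_snd (Nat.zero_le _)]; rfl
  have e1 : northeast n = vtx n n n := by
    refine vtx_ext ?_ ?_
    · rw [vtx_fst le_rfl]; rfl
    · rw [vtx_snd le_rfl]; rfl
  have hp' : p + m ≤ n := by omega
  have hq' : q + m ≤ n := by omega
  have e2 : pt n p q f 0 = vtx n p q := by
    have h1 := pt_fst hw hm hp' hq' f (show 0 ≤ 2 * m by omega)
    have h2 := pt_snd hw hm hp' hq' f (show 0 ≤ 2 * m by omega)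
    rw [cv_start] at h1 h2
    refine vtx_ext ?_ ?_
    · rw [vtx_fst (show p ≤ n by omega)]; push_cast at h1; omega
    · rw [vtx_snd (show q ≤ n by omega)]; push_cast at h2; omega
  have e3 : pt n p q f (2 * m) = vtx n (p + m) (q + m) := by
    have h1 := pt_fst hw hm hp' hq' f (le_refl (2 * m))
    have h2 := pt_snd hw hm hp' hq' f (le_refl (2 * m))
    have h3 := cv_nonneg f (2 * m)
    have h4 := cv_le_rest hm f (le_refl (2 * m))
    push_cast at h1 h2 h4
    refine vtx_ext ?_ ?_
    · rw [vtx_fst (show p + m ≤ n by omega)]; omega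
    · rw [vtx_snd (show q + m ≤ n by omega)]; omega
  rw [e0, e1]
  rw [e2, e3] at r3
  exact (((((r1.trans r2).trans r2').trans r3).trans r4).trans r5).trans r6

theorem pathp_grid (hw : 1 ≤ w) (hm : (l + 1) * (4 * w + 4) ≤ 2 * m) {p q : ℕ} (hp : p + m ≤ n)
    (hq : q + m ≤ n) (f : Fin l → Fin w) : pathp n p q m f ⊆ grid n := by
  rintro e ⟨u, hu, rfl⟩
  exact pt_grid hw hm hp hq f hu

/-- an arc of the path that is missing in the cut lies in a crossed gap -/
theorem pathp_cross (hw : 1 ≤ w) (hm : (l + 1) * (4 * w + 4) ≤ 2 * m) {p q : ℕ} (hp : p + m ≤ n)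
    (hq : q + m ≤ n) (f : Fin l → Fin w) : ∀ e ∈ pathp n p q m f, ∃ i ≤ l, ∀ θ,
      e ∉ cutp n p q m θ → Crosses i (low f θ) := by
  rintro e ⟨u, hu, rfl⟩
  have hm0 : 1 ≤ m := by nlinarith
  obtain ⟨i, hi, h⟩ := scheme_pos hw hm hp hq f (pt n p q f u, pt n p q f (u + 1))
    (Or.inr ⟨u, hu, rfl⟩)
  refine ⟨i, hi, fun θ hθ => h θ ?_⟩
  rintro (he | he)
  · obtain ⟨hg, he⟩ := he
    have a5 := pt_square hw hm hp hq f (show u ≤ 2 * m by omega)
    have a6 := pt_square hw hm hp hq f (show u + 1 ≤ 2 * m by omega)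
    simp only [grid, Set.mem_ofPred_eq] at hg
    simp only at he
    omega
  · exact hθ he

end Pool.Agent.Lib.Pe46137Q
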