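import Pool.Agent.Lib.Pe46137Q.Robust
import Pool.Agent.Lib.Pe46137Q.Comb
import Pool.Agent.Lib.NotG.Core

/-!
Devices which are locally monotone: the chain of levels in the oriented grid.
-/

namespace Pool.Agent.Lib.Pe46137Q

open Finset
open Pool.Agent.Lib.Pe46137
open Pool.Agent.Lib.Pe46137P (Crosses SComp SpanProgram final_count card_chosen_le chosen
  scomp_false)
open NotG.CoreAux (ind ind_mono card_ind resample grow)

variable {n s m l w : ℕ}

/-- at some level the potential grows for few thresholds only -/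
theorem chain {𝓜 : (Set (Vtx n × Vtx n) → Prop) → Prop} {W : ℕ}
    {F : Set (Vtx n × Vtx n) → Prop} (hF : NotG.Loc 𝓜 W F) (hc : Computes n F)
    (hw : 1 ≤ w) (hm : (l + 1) * (4 * w + 4) ≤ 2 * m) (hs : s * (m + 3) ≤ n + 1)
    (hW : 6 * W ≤ s * s) (hs0 : 1 ≤ s) :
    ∃ (k : Fin (s * s)) (C : Fin (s * s) → Fin l → Fin (w + 1))
      (f : Set (Vtx n × Vtx n) → Prop) (B : Finset (Fin l → Fin (w + 1))), NotG.OrOf 𝓜 W f ∧
      (∀ g : Fin l → Fin w, f (pre n s m C k ∪ pathp n (px s m k) (py s m k) m g)) ∧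
      (∀ θ, θ ∉ B → ¬ f (pre n s m C k ∪ cutp n (px s m k) (py s m k) m θ)) ∧
      6 * B.card ≤ (w + 1) ^ l := by
  classical
  obtain ⟨Φ, hmono, hlt, hloc⟩ := hF
  choose f hf hf' using hloc
  obtain ⟨X, hX⟩ : ∃ X : (Fin (s * s) → Fin l → Fin (w + 1)) → ℕ → Set (Vtx n × Vtx n),
    X = fun C k => pre n s m C k := ⟨_, rfl⟩
  obtain ⟨cu, hcu⟩ : ∃ cu : ℕ → (Fin l → Fin (w + 1)) → Set (Vtx n × Vtx n),
    cu = fun k θ => cutp n (px s m k) (py s m k) m θ := ⟨_, rfl⟩
  obtain ⟨L, hL⟩ : ∃ L, L = s * s := ⟨_, rfl⟩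
  have hNpos : 0 < (Fintype.card (Fin l → Fin (w + 1)) : ℝ) := by
    exact_mod_cast Fintype.card_pos
  have hCpos : 0 < (Fintype.card (Fin (s * s) → Fin l → Fin (w + 1)) : ℝ) := by
    exact_mod_cast Fintype.card_pos
  have hLpos : 0 < s * s := Nat.mul_pos hs0 hs0
  -- one level
  have hlevel : ∀ k : Fin (s * s),
      ∑ C : Fin (s * s) → Fin l → Fin (w + 1), ∑ θ, ind (Φ (X C k) < Φ (X C k ∪ cu k θ)) =
        Fintype.card (Fin l → Fin (w + 1)) *
          ∑ C : Fin (s * s) → Fin l → Fin (w + 1), ind (Φ (X C k) < Φ (X C (k + 1))) := by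
    intro k
    have h1 := resample (L := s * s) (univ : Finset (Fin l → Fin (w + 1))) k
      (fun C θ => ind (Φ (X C k) < Φ (X C k ∪ cu k θ))) (by
        intro C a q
        have : X (Function.update C k a) k = X C k := by
          rw [hX]
          refine pre_congr fun j hj => ?_
          rw [Function.update_of_ne]
          intro h
          rw [h] at hj
          exact lt_irrefl _ hj
        simp only [this])
    rw [Fintype.piFinset_univ] at h1
    rw [h1, card_univ]
    congr 1
    refine sum_congr rfl fun C _ => ?_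
    rw [hX, hcu]
    beta_reduce
    rw [pre_succ]
  -- the sum over all levels
  have hsum : ∑ k : Fin (s * s), ∑ C : Fin (s * s) → Fin l → Fin (w + 1), ∑ θ,
      ind (Φ (X C k) < Φ (X C k ∪ cu k θ)) ≤
      Fintype.card (Fin l → Fin (w + 1)) *
        (Fintype.card (Fin (s * s) → Fin l → Fin (w + 1)) * ((W : ℝ) - 1)) := by
    rw [sum_congr rfl fun k _ => hlevel k, ← mul_sum]
    refine mul_le_mul_of_nonneg_left ?_ hNpos.le
    rw [sum_comm]
    refine (sum_le_sum (g := fun _ => (W : ℝ) - 1) fun C _ => ?_).trans (le_of_eq ?_)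
    · rw [Fin.sum_univ_eq_sum_range (fun k => ind (Φ (X C k) < Φ (X C (k + 1)))) (s * s)]
      refine (grow (Φ := fun k => Φ (X C k)) (fun k => hmono _ _ ?_) (s * s)).trans ?_
      · rw [hX]
        exact pre_mono C (Nat.le_succ k)
      · have h1 : (Φ (X C (s * s)) : ℝ) + 1 ≤ W := by exact_mod_cast hlt _
        have h2 : (0 : ℝ) ≤ Φ (X C 0) := Nat.cast_nonneg _
        linarith
    · rw [sum_const, card_univ, nsmul_eq_mul]
  -- a good level
  obtain ⟨k, C, hkC⟩ : ∃ (k : Fin (s * s)) (C : Fin (s * s) → Fin l → Fin (w + 1)),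
      6 * ∑ θ, ind (Φ (X C k) < Φ (X C k ∪ cu k θ)) ≤
        (Fintype.card (Fin l → Fin (w + 1)) : ℝ) := by
    by_contra hcon
    push Not at hcon
    have h1 : ∑ k : Fin (s * s), ∑ C : Fin (s * s) → Fin l → Fin (w + 1),
        ((Fintype.card (Fin l → Fin (w + 1)) : ℝ) / 6) ≤
        ∑ k : Fin (s * s), ∑ C : Fin (s * s) → Fin l → Fin (w + 1), ∑ θ,
          ind (Φ (X C k) < Φ (X C k ∪ cu k θ)) := by
      refine sum_le_sum fun k _ => sum_le_sum fun C _ => ?_
      have := hcon k C
      linarith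
    rw [sum_const, sum_const, card_univ, card_univ, nsmul_eq_mul, nsmul_eq_mul,
      Fintype.card_fin] at h1
    have h2 := h1.trans hsum
    have h3 : (6 : ℝ) * W ≤ ((s * s : ℕ) : ℝ) := by exact_mod_cast hW
    have h4 : 0 < (Fintype.card (Fin (s * s) → Fin l → Fin (w + 1)) : ℝ) *
        (Fintype.card (Fin l → Fin (w + 1)) : ℝ) := mul_pos hCpos hNpos
    have h5 : (((s * s : ℕ) : ℝ) / 6) * ((Fintype.card (Fin (s * s) → Fin l → Fin (w + 1)) : ℝ) *
        (Fintype.card (Fin l → Fin (w + 1)) : ℝ)) ≤ ((W : ℝ) - 1) *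
        ((Fintype.card (Fin (s * s) → Fin l → Fin (w + 1)) : ℝ) *
        (Fintype.card (Fin l → Fin (w + 1)) : ℝ)) := by
      calc _ = ((s * s : ℕ) : ℝ) * ((Fintype.card (Fin (s * s) → Fin l → Fin (w + 1)) : ℝ) *
            ((Fintype.card (Fin l → Fin (w + 1)) : ℝ) / 6)) := by ring
        _ ≤ _ := h2
        _ = _ := by ring
    have h6 := le_of_mul_le_mul_right h5 h4
    linarith
  refine ⟨k, C, f (X C k), univ.filter (fun θ => f (X C k) (X C k ∪ cu k θ)), hf _, ?_, ?_, ?_⟩
  · intro g
    have hb := block_bounds hs k.2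
    have hsub : comb n s m ∪ pathp n (px s m k) (py s m k) m g ⊆
        pre n s m C k ∪ pathp n (px s m k) (py s m k) m g :=
      Set.union_subset_union_left _ (fun e he => Or.inl he)
    have hgr : pre n s m C k ∪ pathp n (px s m k) (py s m k) m g ⊆ grid n := by
      rintro e (he | he)
      · exact pre_grid C k he
      · exact pathp_grid hw hm (by omega) (by omega) g he
    have hF1 : F (pre n s m C k ∪ pathp n (px s m k) (py s m k) m g) := by
      rw [hc _ hgr]
      exact Relation.ReflTransGen.mono (fun a b h => hsub h) _ _ (comb_reach hw hm hs k.2 g)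
    have := (hf' (X C k) (pre n s m C k ∪ pathp n (px s m k) (py s m k) m g) (by
      rw [hX]
      exact Set.subset_union_left)).1 hF1
    exact this
  · intro θ hθ hfθ
    apply hθ
    rw [mem_filter]
    refine ⟨mem_univ _, ?_⟩
    rw [hX, hcu]
    rw [hX] at hfθ
    exact hfθ
  · have h1 : ((univ.filter (fun θ => f (X C k) (X C k ∪ cu k θ))).card : ℝ) ≤
        ∑ θ, ind (Φ (X C k) < Φ (X C k ∪ cu k θ)) := by
      rw [card_ind]
      refine sum_le_sum fun θ _ => ind_mono fun hfθ => ?_
      rcases (hf' (X C k) (X C k ∪ cu k θ) Set.subset_union_left).2 hfθ with h | h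
      · exfalso
        obtain ⟨C', hC'⟩ : ∃ C', C' = Function.update C k θ := ⟨_, rfl⟩
        have e : X C k ∪ cu k θ = pre n s m C' (k + 1) := by
          rw [pre_succ, hX, hcu, hC']
          beta_reduce
          rw [Function.update_self]
          congr 1
          refine pre_congr fun j hj => ?_
          rw [Function.update_of_ne]
          intro h
          rw [h] at hj
          exact lt_irrefl _ hj
        rw [e, hc _ (pre_grid _ _)] at h
        exact pre_not_reach hm hs hs0 C' (k + 1) h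
      · exact h
    have h2 : (6 : ℝ) * ((univ.filter (fun θ => f (X C k) (X C k ∪ cu k θ))).card : ℝ) ≤
        (((w + 1) ^ l : ℕ) : ℝ) := by
      have e : (Fintype.card (Fin l → Fin (w + 1)) : ℝ) = (((w + 1) ^ l : ℕ) : ℝ) := by
        simp
      rw [← e]
      linarith
    exact_mod_cast h2

/-- disjunctions of span programs -/
theorem scomp_orOf {E : Type} {K : Type} [Field K] {M : Set E} {D W : ℕ} {f : Set E → Prop}
    (hf : NotG.OrOf (fun g => SComp K M g D) W f) : SComp K M f (W * D) := by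
  obtain ⟨L, hL0, hLW, hL, hfL⟩ := hf
  have key : ∀ L : List (Set E → Prop), L ≠ [] → (∀ g ∈ L, SComp K M g D) →
      SComp K M (fun x => ∃ g ∈ L, g x) (L.length * D) := by
    intro L
    induction L with
    | nil => intro h; exact absurd rfl h
    | cons g L ih =>
      intro _ h
      by_cases hL' : L = []
      · subst hL'
        refine ((h g List.mem_cons_self).mono (by simp)).congr fun x => ?_
        simp
      · have h1 := (h g List.mem_cons_self).or (ih hL' fun g' hg' =>
          h g' (List.mem_cons_of_mem _ hg'))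
        refine (h1.mono ?_).congr fun x => ?_
        · rw [List.length_cons]
          ring_nf
          omega
        · simp
  refine ((key L hL0 hL).mono (Nat.mul_le_mul_right _ hLW)).congr fun x => (hfL x).symm

/-- the lower bound with parameters -/
theorem nots_param {K : Type} [Field K] {D W : ℕ} {F : Set (Vtx n × Vtx n) → Prop}
    (hF : NotG.Loc (fun g => SComp K Set.univ g D) W F) (hc : Computes n F) (hl : 1 ≤ l)
    (hw : 1 ≤ w) (hlw : l ≤ w) (hm : (l + 1) * (4 * w + 4) ≤ 2 * m)
    (hs : s * (m + 3) ≤ n + 1) (hW : 6 * W ≤ s * s) (hs0 : 1 ≤ s) :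
    w ^ (Nat.log 2 l + 1) ≤ (l + 1) ^ (Nat.log 2 l + 1) * (2 * (W * D)) := by
  obtain ⟨k, C, f, B, hf, h1, h2, h3⟩ := chain hF hc hw hm hs hW hs0
  obtain ⟨V, i1, i2, S, g1, g2, g3, g4⟩ := scomp_orOf hf
  have hb := block_bounds hs k.2
  have key := scheme_span_bad (K := K) (V := V) (w := w) (d := Nat.log 2 l)
    (Nat.pow_log_le_self 2 (show l ≠ 0 by omega)) B
    (fun g : Fin l → Fin w => pre n s m C k ∪ pathp n (px s m k) (py s m k) m g)
    (fun θ => pre n s m C k ∪ cutp n (px s m k) (py s m k) m θ) (by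
      rintro g e (he | he)
      · exact ⟨0, Nat.zero_le _, fun θ h => absurd (Or.inl he) h⟩
      · obtain ⟨i, hi, hcr⟩ := pathp_cross hw hm (by omega) (by omega) g e he
        exact ⟨i, hi, fun θ h => hcr θ fun h' => h (Or.inr h')⟩) S g3
    (fun g => (g4 _).mpr (h1 g)) (fun θ hθ h => h2 θ hθ ((g4 _).mp h))
  have h4 := bad_small hw hlw h3 key
  refine final_count hl ?_
  calc w ^ l ≤ 2 * ((chosen l w (Nat.log 2 l)).card * Module.finrank K V) := h4
    _ ≤ 2 * ((∑ j ∈ range (l - Nat.log 2 l), l.choose j * w ^ j) * (W * D)) := by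
        gcongr
        exact card_chosen_le l w (Nat.log 2 l)
    _ = _ := by ring

end Pool.Agent.Lib.Pe46137Q
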