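import Pool.Agent.Lib.Pe46137P.Lower

/-!
The dimension argument with greater-than gadgets: the accepted inputs are the sequences
`f : Fin l → Fin w`, the rejected inputs the thresholds `θ : Fin l → Fin (w + 1)`, and position `j`
of `f` is on the source side of `θ` if `f j < θ j`.
-/

namespace Pool.Agent.Lib.Pe46137Q

open Finset
open Pool.Agent.Lib.Pe46137P

variable {K : Type*} [Field K] {l w : ℕ}

/-- positions of `f` on the source side of the thresholds `θ` -/
def low (f : Fin l → Fin w) (θ : Fin l → Fin (w + 1)) : Finset (Fin l) :=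
  univ.filter (fun j => (f j : ℕ) < θ j)

theorem mem_low {f : Fin l → Fin w} {θ : Fin l → Fin (w + 1)} {j : Fin l} :
    j ∈ low f θ ↔ (f j : ℕ) < θ j := by simp [low]

/-- the thresholds which have exactly the positions in `y` of `f` on the source side -/
def thr (f : Fin l → Fin w) (y : Finset (Fin l)) (j : Fin l) : Fin (w + 1) :=
  if j ∈ y then (f j).succ else (f j).castSucc

theorem low_thr (f : Fin l → Fin w) (y : Finset (Fin l)) : low f (thr f y) = y := by
  ext j
  rw [mem_low]
  unfold thr
  by_cases h : j ∈ y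
  · simp [h]
  · simp [h]

theorem low_thr_insert {f g : Fin l → Fin w} {j : Fin l} (hj : g j ≠ f j) (y : Finset (Fin l)) :
    low g (thr f (insert j y)) = low g (thr f y) := by
  ext i
  rw [mem_low, mem_low]
  unfold thr
  by_cases hij : i = j
  · subst hij
    rw [if_pos (mem_insert_self _ _)]
    have h1 : (g i : ℕ) ≠ f i := fun h => hj (Fin.ext h)
    by_cases h : i ∈ y
    · rw [if_pos h]
    · rw [if_neg h]
      simp only [Fin.val_succ, Fin.val_castSucc]
      omega
  · have : i ∈ insert j y ↔ i ∈ y := by simp [hij]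
    by_cases h : i ∈ y
    · rw [if_pos (this.mpr h), if_pos h]
    · rw [if_neg (fun h' => h (this.mp h')), if_neg h]

/-- the monomial of a partial sequence -/
def monoT (K : Type*) [Field K] (T : Finset (Fin l × Fin w)) (θ : Fin l → Fin (w + 1)) : K :=
  if ∀ q ∈ T, (q.2 : ℕ) < θ q.1 then 1 else 0

theorem mono_low (f : Fin l → Fin w) (T : Finset (Fin l)) (θ : Fin l → Fin (w + 1)) :
    mono K T (low f θ) = monoT K (T.map (pathEmb f)) θ := by
  unfold mono monoT
  congr 1
  rw [eq_iff_iff]
  constructor
  · intro h q hq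
    obtain ⟨i, hi, rfl⟩ := mem_map.mp hq
    exact mem_low.mp (h hi)
  · intro h i hi
    exact mem_low.mpr (h _ (mem_map_of_mem _ hi))

/-- the alternating sum over the cuts of one path -/
noncomputable def LamT (f : Fin l → Fin w) (h : (Fin l → Fin (w + 1)) → K) : K :=
  ∑ y : Finset (Fin l), (-1 : K) ^ y.card * h (thr f y)

theorem LamT_self (f : Fin l → Fin w) (d : ℕ) :
    LamT f (fun θ => pol K d (low f θ)) = 1 := by
  unfold LamT
  simp_rw [low_thr]
  exact top_pol d

theorem LamT_other {f g : Fin l → Fin w} (hfg : g ≠ f) (d : ℕ) :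
    LamT f (fun θ => pol K d (low g θ)) = 0 := by
  classical
  obtain ⟨j, hj⟩ := Function.ne_iff.mp hfg
  unfold LamT
  refine sum_involution (fun S _ => if j ∈ S then S.erase j else insert j S) ?_ ?_ ?_ ?_
  · intro S _
    by_cases hjS : j ∈ S
    · rw [if_pos hjS]
      have h1 := low_thr_insert hj (S.erase j)
      rw [insert_erase hjS] at h1
      simp only [h1]
      have h2 : (S.erase j).card + 1 = S.card := card_erase_add_one hjS
      rw [← h2]
      ring
    · rw [if_neg hjS]
      simp only [low_thr_insert hj S]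
      rw [card_insert_of_notMem hjS]
      ring
  · intro S _ _
    by_cases hjS : j ∈ S
    · rw [if_pos hjS]
      intro h
      rw [← h] at hjS
      exact (notMem_erase _ _) hjS
    · rw [if_neg hjS]
      intro h
      exact hjS (h ▸ mem_insert_self _ _)
  · intro S _
    exact mem_univ _
  · intro S _
    by_cases hjS : j ∈ S
    · simp only [hjS, if_true]
      rw [if_neg (notMem_erase _ _), insert_erase hjS]
    · simp only [hjS, if_false]
      rw [if_pos (mem_insert_self _ _), erase_insert hjS]

section core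

variable {V : Type*} [AddCommGroup V] [Module K V]

/-- the functions `θ ↦ ∑ T ∈ 𝒯, m_T(θ) φ_θ(a_T)` -/
noncomputable def synthT (𝒯 : Finset (Finset (Fin l × Fin w)))
    (φ : (Fin l → Fin (w + 1)) → V →ₗ[K] K) : (𝒯 → V) →ₗ[K] ((Fin l → Fin (w + 1)) → K) where
  toFun a θ := ∑ T : 𝒯, monoT K T.1 θ * φ θ (a T)
  map_add' a b := by
    funext x
    simp [mul_add, sum_add_distrib]
  map_smul' c a := by
    funext x
    simp only [Pi.smul_apply, map_smul, smul_eq_mul, RingHom.id_apply, mul_sum]
    exact sum_congr rfl fun T _ => by ring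

theorem synthT_single (𝒯 : Finset (Finset (Fin l × Fin w)))
    (φ : (Fin l → Fin (w + 1)) → V →ₗ[K] K) {T : Finset (Fin l × Fin w)}
    (hT : T ∈ 𝒯) (a : V) : (fun x => monoT K T x * φ x a) ∈ LinearMap.range (synthT 𝒯 φ) := by
  classical
  refine ⟨Pi.single ⟨T, hT⟩ a, ?_⟩
  funext x
  change ∑ T' : 𝒯, monoT K T'.1 x * φ x ((Pi.single (⟨T, hT⟩ : 𝒯) a : 𝒯 → V) T') = _
  rw [sum_eq_single (⟨T, hT⟩ : 𝒯)]
  · rw [Pi.single_eq_same]
  · intro T' _ hne
    rw [Pi.single_eq_of_ne hne, map_zero, mul_zero]
  · simp

/-- the dimension argument -/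
theorem core_thr [FiniteDimensional K V] {d : ℕ} (hl : 2 ^ d ≤ l)
    (φ : (Fin l → Fin (w + 1)) → V →ₗ[K] K) (b : V) (hb : ∀ θ, φ θ b = 1)
    (hspan : ∀ f : Fin l → Fin w, b ∈ Submodule.span K
      {a : V | ∃ i ≤ l, ∀ θ, ¬ Crosses i (low f θ) → φ θ a = 0}) :
    w ^ l ≤ (chosen l w d).card * Module.finrank K V := by
  classical
  set 𝒯 := chosen l w d with h𝒯
  set r : (Fin l → Fin w) → ((Fin l → Fin (w + 1)) → K) := fun f θ => pol K d (low f θ) with hr
  have hone : ∀ f : Fin l → Fin w, ∀ a : V, (∃ i ≤ l, ∀ θ, ¬ Crosses i (low f θ) → φ θ a = 0) →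
      (fun θ => pol K d (low f θ) * φ θ a) ∈ LinearMap.range (synthT 𝒯 φ) := by
    rintro f a ⟨i, hi, ha⟩
    have e : (fun x => pol K d (low f x) * φ x a) =
        ∑ T ∈ univ.filter (fun T : Finset (Fin l) => ∀ j : Fin l, (j : ℕ) = i → j ∉ T),
          gam K d i T • (fun x => monoT K (T.map (pathEmb f)) x * φ x a) := by
      funext x
      by_cases hc : Crosses i (low f x)
      · rw [pol_eq_of_crosses d hc, sum_mul, Finset.sum_apply]
        refine sum_congr rfl fun T _ => ?_
        rw [mono_low, Pi.smul_apply, smul_eq_mul]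
        ring
      · rw [ha x hc, mul_zero, Finset.sum_apply, sum_eq_zero]
        intro T _
        simp [ha x hc]
    rw [e]
    refine Submodule.sum_mem _ fun T hT => ?_
    rw [mem_filter] at hT
    by_cases hTc : l ≤ T.card + d
    · rw [gam_eq_zero hl hi hTc hT.2, zero_smul]
      exact Submodule.zero_mem _
    · exact Submodule.smul_mem _ _ (synthT_single 𝒯 φ (mem_chosen f (by omega)) a)
  have hmem : ∀ f, r f ∈ LinearMap.range (synthT 𝒯 φ) := by
    intro f
    have key : ∀ a ∈ Submodule.span K {a : V | ∃ i ≤ l, ∀ θ, ¬ Crosses i (low f θ) → φ θ a = 0},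
        (fun x => pol K d (low f x) * φ x a) ∈ LinearMap.range (synthT 𝒯 φ) := by
      intro a ha
      induction ha using Submodule.span_induction with
      | mem a h => exact hone f a h
      | zero =>
        have : (fun x => pol K d (low f x) * φ x (0 : V)) = 0 := by
          funext x; simp
        rw [this]; exact Submodule.zero_mem _
      | add a a' _ _ h h' =>
        have : (fun x => pol K d (low f x) * φ x (a + a')) =
            (fun x => pol K d (low f x) * φ x a) +
              (fun x => pol K d (low f x) * φ x a') := by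
          funext x
          simp [mul_add]
        rw [this]; exact Submodule.add_mem _ h h'
      | smul c a _ h =>
        have : (fun x => pol K d (low f x) * φ x (c • a)) =
            c • (fun x => pol K d (low f x) * φ x a) := by
          funext x
          simp only [map_smul, smul_eq_mul, Pi.smul_apply]
          ring
        rw [this]; exact Submodule.smul_mem _ _ h
    have := key b (hspan f)
    simp only [hb, mul_one] at this
    exact this
  have hind : LinearIndependent K r := by
    rw [Fintype.linearIndependent_iff]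
    intro c hc g
    have h1 : LamT g (∑ f, c f • r f) = c g := by
      have e : LamT g (∑ f, c f • r f) = ∑ f, c f * LamT g (r f) := by
        unfold LamT
        simp only [Finset.sum_apply, Pi.smul_apply, smul_eq_mul, mul_sum]
        rw [sum_comm]
        exact sum_congr rfl fun f _ => sum_congr rfl fun y _ => by ring
      rw [e, sum_eq_single g]
      · rw [hr]
        simp only
        rw [LamT_self, mul_one]
      · intro f _ hne
        rw [hr]
        simp only
        rw [LamT_other hne d, mul_zero]
      · simp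
    rw [hc] at h1
    rw [← h1]
    unfold LamT
    simp
  have h2 : Fintype.card (Fin l → Fin w) ≤ Module.finrank K (LinearMap.range (synthT 𝒯 φ)) := by
    have h3 : LinearIndependent K (fun f => (⟨r f, hmem f⟩ : LinearMap.range (synthT 𝒯 φ))) := by
      refine LinearIndependent.of_comp (LinearMap.range (synthT 𝒯 φ)).subtype ?_
      exact hind
    exact h3.fintype_card_le_finrank
  have h4 : Fintype.card (Fin l → Fin w) = w ^ l := by simp
  rw [← h4]
  refine h2.trans ((LinearMap.finrank_range_le _).trans ?_)
  rw [Module.finrank_pi_fintype]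
  simp

end core

variable {E : Type}

/-- a threshold scheme: accepted inputs `G f`, rejected inputs `H θ`; a variable of `G f` that is
missing in `H θ` belongs to a gap crossed by `θ`, and negations of variables outside `M` that are
available on `G f` are available on every `H θ` -/
theorem scheme_span {d : ℕ} (hl : 2 ^ d ≤ l) (M : Set E) (G : (Fin l → Fin w) → Set E)
    (H : (Fin l → Fin (w + 1)) → Set E)
    (h1 : ∀ f, ∀ e ∈ G f, ∃ i ≤ l, ∀ θ, e ∉ H θ → Crosses i (low f θ))
    (h2 : ∀ f θ, ∀ e ∉ M, e ∉ G f → e ∉ H θ) {K : Type} [Field K] {V : Type} [AddCommGroup V]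
    [Module K V] [FiniteDimensional K V] (S : SpanProgram E V) (hS : S.Avoids M)
    (hacc : ∀ f, S.Accepts K (G f)) (hrej : ∀ θ, ¬ S.Accepts K (H θ)) :
    w ^ l ≤ (chosen l w d).card * Module.finrank K V := by
  classical
  have hφ : ∀ θ : Fin l → Fin (w + 1), ∃ φ : V →ₗ[K] K, φ S.target = 1 ∧
      ∀ v ∈ S.available (H θ), φ v = 0 := by
    intro θ
    obtain ⟨φ, h2, h3⟩ := Submodule.exists_le_ker_of_notMem (hrej θ)
    refine ⟨(φ S.target)⁻¹ • φ, ?_, ?_⟩
    · simp [h2]
    · intro v hv
      have := h3 (Submodule.subset_span hv)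
      rw [LinearMap.mem_ker] at this
      simp [this]
  choose φ hφ1 hφ2 using hφ
  refine core_thr hl φ S.target hφ1 (fun f => ?_)
  refine Submodule.span_mono ?_ (hacc f)
  intro v hv
  rcases hv with hv | hv | hv
  · exact ⟨0, Nat.zero_le _, fun θ _ => hφ2 θ v (Or.inl hv)⟩
  · simp only [Set.mem_iUnion] at hv
    obtain ⟨e, he, hv⟩ := hv
    obtain ⟨i, hi, hc⟩ := h1 f e he
    refine ⟨i, hi, fun θ hθ => hφ2 θ v (Or.inr (Or.inl ?_))⟩
    simp only [Set.mem_iUnion]
    refine ⟨e, ?_, hv⟩
    by_contra h
    exact hθ (hc θ h)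
  · simp only [Set.mem_iUnion] at hv
    obtain ⟨e, he, hv⟩ := hv
    by_cases heM : e ∈ M
    · rw [hS e heM] at hv
      exact absurd hv (Set.notMem_empty _)
    · refine ⟨0, Nat.zero_le _, fun θ _ => hφ2 θ v (Or.inr (Or.inr ?_))⟩
      simp only [Set.mem_iUnion]
      exact ⟨e, h2 f θ e heM he, hv⟩

end Pool.Agent.Lib.Pe46137Q
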