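import Mathlib

/-!
Digital curves between levels: the curve from level `a` to level `b` during `4 * w + 4` steps of
size one; higher levels go up first, lower levels go down first, so that two curves cross at most
once.
-/

namespace Pool.Agent.Lib.Pe46137Q

/-- the unrounded curve from level `a` to level `b` -/
def gg (w a b τ : ℤ) : ℤ :=
  if a ≤ b then max (2 * a) (min (2 * b) (4 * a + τ - 2 * w))
  else min (2 * a) (max (2 * b) (4 * a - τ + 2))

/-- the curve from level `a` to level `b`, with the parity of the time -/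
def vv (w a b τ : ℤ) : ℤ :=
  if (gg w a b τ - τ) % 2 = 0 then gg w a b τ else gg w a b τ + 1

variable {w a b a' b' τ : ℤ}

theorem vv_bounds : gg w a b τ ≤ vv w a b τ ∧ vv w a b τ ≤ gg w a b τ + 1 := by
  unfold vv; split_ifs <;> omega

theorem vv_parity : (vv w a b τ - τ) % 2 = 0 := by
  unfold vv; split_ifs with h <;> omega

theorem gg_start (ha : -1 ≤ a) (ha' : a ≤ w) : gg w a b 0 = 2 * a := by
  unfold gg; split_ifs <;> omega

theorem gg_end (ha : -1 ≤ a) (ha' : a ≤ w) (hb : -1 ≤ b) (hb' : b ≤ w) :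
    gg w a b (4 * w + 4) = 2 * b := by
  unfold gg; split_ifs <;> omega

theorem vv_start (ha : -1 ≤ a) (ha' : a ≤ w) : vv w a b 0 = 2 * a := by
  unfold vv; rw [gg_start ha ha']; split_ifs with h <;> omega

theorem vv_end (ha : -1 ≤ a) (ha' : a ≤ w) (hb : -1 ≤ b) (hb' : b ≤ w) :
    vv w a b (4 * w + 4) = 2 * b := by
  unfold vv; rw [gg_end ha ha' hb hb']; split_ifs with h <;> omega

theorem gg_step : gg w a b (τ + 1) - gg w a b τ ≤ 1 ∧ -1 ≤ gg w a b (τ + 1) - gg w a b τ := by
  unfold gg; split_ifs <;> omega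

theorem vv_step : vv w a b (τ + 1) = vv w a b τ + 1 ∨ vv w a b (τ + 1) = vv w a b τ - 1 := by
  have h1 := gg_step (w := w) (a := a) (b := b) (τ := τ)
  unfold vv
  split_ifs with h2 h3 <;> omega

theorem gg_ge (hab : 0 ≤ a) (hb : 0 ≤ b) : 0 ≤ gg w a b τ := by
  unfold gg; split_ifs <;> omega

theorem gg_le (ha : a ≤ w) (hb : b ≤ w) : gg w a b τ ≤ 2 * w := by
  unfold gg; split_ifs <;> omega

/-- same order at both ends -/
theorem gg_mono (h1 : a ≤ a') (h2 : b ≤ b') : gg w a b τ ≤ gg w a' b' τ := by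
  unfold gg; split_ifs <;> omega

theorem gg_mono_strict (h1 : a' < a) (h2 : b' < b) : gg w a' b' τ + 2 ≤ gg w a b τ := by
  unfold gg; split_ifs <;> omega

theorem vv_mono (h1 : a ≤ a') (h2 : b ≤ b') : vv w a b τ ≤ vv w a' b' τ := by
  have h := gg_mono (w := w) (τ := τ) h1 h2
  unfold vv; split_ifs <;> omega

theorem vv_mono_strict (h1 : a' < a) (h2 : b' < b) : vv w a' b' τ < vv w a b τ := by
  have h := gg_mono_strict (w := w) (τ := τ) h1 h2
  unfold vv; split_ifs <;> omega

/-- opposite order at the ends: once below, always below -/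
theorem gg_cross (h1 : a' < a) (h2 : b ≤ b') (h0 : 0 ≤ τ) (ha : a ≤ w)
    (h3 : gg w a b τ ≤ gg w a' b' τ + 1) : gg w a b (τ + 1) ≤ gg w a' b' (τ + 1) ∧
      (gg w a b τ = gg w a' b' τ + 1 ∨ gg w a b τ ≤ gg w a' b' τ) := by
  unfold gg at *; split_ifs at * <;> omega

theorem vv_cross (h0 : 0 ≤ τ) (ha : a ≤ w)
    (h1 : vv w a b τ ≤ vv w a' b' τ) (h2 : vv w a' b' (τ + 1) < vv w a b (τ + 1)) :
    a ≤ a' ∧ b' < b := by
  by_cases h3 : a ≤ a'
  · refine ⟨h3, ?_⟩
    by_contra h4
    have := vv_mono (w := w) (τ := τ + 1) h3 (show b ≤ b' by omega)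
    omega
  · exfalso
    by_cases h4 : b ≤ b'
    · have h5 : gg w a b τ ≤ gg w a' b' τ + 1 := by
        unfold vv at h1; split_ifs at h1 <;> omega
      have h6 := (gg_cross (by omega) h4 h0 ha h5).1
      unfold vv at h2; split_ifs at h2 <;> omega
    · have := vv_mono_strict (w := w) (τ := τ) (show a' < a by omega) (show b' < b by omega)
      omega

end Pool.Agent.Lib.Pe46137Q
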