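import Pool.Agent.Lib.Pe46137P.Defs

/-!
The oriented grid and directed networks.
-/

namespace Pool.Agent.Lib.Pe46137Q

open Pool.Agent.Lib.Pe46137

/-- the vertices of the oriented `n × n` grid -/
abbrev Vtx (n : ℕ) : Type := Fin (n + 1) × Fin (n + 1)

/-- the arcs of the oriented grid: one step to the right or one step up -/
def grid (n : ℕ) : Set (Vtx n × Vtx n) :=
  {e | ((e.2.1 : ℕ) = e.1.1 + 1 ∧ (e.2.2 : ℕ) = e.1.2) ∨
    ((e.2.1 : ℕ) = e.1.1 ∧ (e.2.2 : ℕ) = e.1.2 + 1)}

/-- the lower left corner -/
def southwest (n : ℕ) : Vtx n := (0, 0)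

/-- the upper right corner -/
def northeast (n : ℕ) : Vtx n := (Fin.last n, Fin.last n)

/-- the pairs of vertices of the `m × m` subsquare with lower left corner `(p, q)` -/
def square (n p q m : ℕ) : Set (Vtx n × Vtx n) :=
  {e | ∀ a : Vtx n, a = e.1 ∨ a = e.2 → p ≤ (a.1 : ℕ) ∧ (a.1 : ℕ) ≤ p + m ∧ q ≤ (a.2 : ℕ) ∧
    (a.2 : ℕ) ≤ q + m}

/-- the arcs of the `m × m` subsquare with lower left corner `(p, q)` -/
def inside (n p q m : ℕ) : Set (Vtx n × Vtx n) := grid n ∩ square n p q m

/-- `f` tells for every subgraph `G` of the oriented grid whether there is a directed walk from the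
lower left to the upper right corner -/
def Computes (n : ℕ) (f : Set (Vtx n × Vtx n) → Prop) : Prop :=
  ∀ G ⊆ grid n, (f G ↔ Reachable G (southwest n) (northeast n))

/-- a directed walk from source to sink uses only permanently closed contacts, contacts labelled
by variables in `P`, and contacts labelled by negations of variables in `F` -/
def Reaches {E W : Type} (N : SwitchingNetwork E W) (P F : Set E) : Prop :=
  Relation.ReflTransGen (N.Closed P F) N.source N.sink

/-- the class of the functions computed by a span program over `K` of dimension at most `m` without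
negated variables -/
def BySpan {E : Type} (K : Type) [Field K] (m : ℕ) (f : Set E → Prop) : Prop :=
  ∃ (V : Type) (_ : AddCommGroup V) (_ : Module K V) (S : Pe46137P.SpanProgram E V),
    FiniteDimensional K V ∧ Module.finrank K V ≤ m ∧ S.Avoids Set.univ ∧
      ∀ X, f X ↔ S.Accepts K X

/-- there are switching networks with a polynomial number of states which compute reachability in
the oriented grid and have no contact labelled by the negation of a variable in `M n` -/
def PolySize (M : ∀ n : ℕ, Set (Vtx n × Vtx n)) : Prop :=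
  ∃ k : ℕ, ∀ n : ℕ, 2 ≤ n → ∃ (W : Type) (_ : Fintype W)
    (N : SwitchingNetwork (Vtx n × Vtx n) W), N.Avoids (M n) ∧
      Computes n (fun G => N.Connects G Gᶜ) ∧ Fintype.card W ≤ n ^ k

end Pool.Agent.Lib.Pe46137Q
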