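import Pool.Agent.Lib.Pe46137Q.Upper
import Pool.Agent.Lib.Pe46137P.SCalc

/-!
Networks, formulas and span programs: composition, and fixing of variables.
-/

namespace Pool.Agent.Lib.Pe46137Q

open Finset
open Pool.Agent.Lib.Pe46137
open Pool.Agent.Lib.Pe46137P

/-- the input in which the variables outside `V` are replaced by the constants `c` -/
def fixIn {E : Type} (V c x : Set E) : Set E := {e | (e ∈ V ∧ e ∈ x) ∨ (e ∉ V ∧ e ∈ c)}

/-- closure properties of a kind of device: `P M f m` means that `f` is computed with size `m`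
and without negated variables of `M` -/
structure Device {E : Type} (P : Set E → (Set E → Prop) → ℕ → Prop) : Prop where
  mono : ∀ {M : Set E} {f : Set E → Prop} {m m' : ℕ}, P M f m → m ≤ m' → P M f m'
  congr : ∀ {M : Set E} {f g : Set E → Prop} {m : ℕ}, P M f m → (∀ x, f x ↔ g x) → P M g m
  and : ∀ {M : Set E} {f g : Set E → Prop} {m m' : ℕ}, P M f m → P M g m' →
    P M (fun x => f x ∧ g x) (m + m')
  or : ∀ {M : Set E} {f g : Set E → Prop} {m m' : ℕ}, P M f m → P M g m' →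
    P M (fun x => f x ∨ g x) (m + m')
  exist : ∀ {M : Set E} {ι : Type} (s : Finset ι) {f : ι → Set E → Prop} {m : ℕ},
    (∀ i ∈ s, P M (f i) m) → P M (fun x => ∃ i ∈ s, f i x) (s.card * m + 2)
  fix : ∀ {M M' : Set E} {f : Set E → Prop} {m : ℕ} (V c : Set E), P M f m →
    (∀ e ∈ M', e ∈ V → e ∈ M) → P M' (fun x => f (fixIn V c x)) m
  form : ∀ {M : Set E} (φ : Formula E), φ.Avoids M → P M (fun x => φ.Eval x) (2 * φ.leaves)

section net

variable {E : Type}

/-- `f` is computed by a switching network -/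
def NetP (M : Set E) (f : Set E → Prop) (m : ℕ) : Prop := Comp M Set.univ f m

theorem netP_fix {M M' : Set E} {f : Set E → Prop} {m : ℕ} (V c : Set E) (h : NetP M f m)
    (hM : ∀ e ∈ M', e ∈ V → e ∈ M) : NetP M' (fun x => f (fixIn V c x)) m := by
  obtain ⟨W, hW, N, h1, h2, h3⟩ := h
  refine ⟨W, hW, ⟨N.source, N.sink, fun v w => N.wire v w ∨ (∃ e, e ∉ V ∧ e ∈ c ∧ N.pos e v w) ∨
    ∃ e, e ∉ V ∧ e ∉ c ∧ N.neg e v w, fun e v w => e ∈ V ∧ N.pos e v w,
    fun e v w => e ∈ V ∧ N.neg e v w⟩, h1, ?_, fun x _ => ?_⟩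
  · rintro e he v w ⟨h4, h5⟩
    exact h2 e (hM e he h4) v w h5
  · change _ ↔ f (fixIn V c x)
    rw [← h3 _ (Set.mem_univ _)]
    unfold SwitchingNetwork.Connects
    have : SwitchingNetwork.Closed (⟨N.source, N.sink, fun v w => N.wire v w ∨
        (∃ e, e ∉ V ∧ e ∈ c ∧ N.pos e v w) ∨ ∃ e, e ∉ V ∧ e ∉ c ∧ N.neg e v w,
        fun e v w => e ∈ V ∧ N.pos e v w, fun e v w => e ∈ V ∧ N.neg e v w⟩ :
        SwitchingNetwork E W) x xᶜ = N.Closed (fixIn V c x) (fixIn V c x)ᶜ := by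
      funext v w
      refine propext ⟨?_, ?_⟩
      · rintro ((h | ⟨e, h4, h5, h6⟩ | ⟨e, h4, h5, h6⟩) | ⟨e, he, h4, h5⟩ | ⟨e, he, h4, h5⟩)
        · exact Or.inl h
        · exact Or.inr (Or.inl ⟨e, Or.inr ⟨h4, h5⟩, h6⟩)
        · refine Or.inr (Or.inr ⟨e, ?_, h6⟩)
          rintro (h | h)
          · exact h4 h.1
          · exact h5 h.2
        · exact Or.inr (Or.inl ⟨e, Or.inl ⟨h4, he⟩, h5⟩)
        · refine Or.inr (Or.inr ⟨e, ?_, h5⟩)
          rintro (h | h)
          · exact he h.2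
          · exact h.1 h4
      · rintro (h | ⟨e, h4 | h4, h5⟩ | ⟨e, h4, h5⟩)
        · exact Or.inl (Or.inl h)
        · exact Or.inr (Or.inl ⟨e, h4.2, h4.1, h5⟩)
        · exact Or.inl (Or.inr (Or.inl ⟨e, h4.1, h4.2, h5⟩))
        · by_cases hV : e ∈ V
          · exact Or.inr (Or.inr ⟨e, fun hx => h4 (Or.inl ⟨hV, hx⟩), hV, h5⟩)
          · exact Or.inl (Or.inr (Or.inr ⟨e, hV, fun hc => h4 (Or.inr ⟨hV, hc⟩), h5⟩))
    rw [this]

theorem device_net : Device (E := E) NetP where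
  mono h hm := h.mono hm
  congr h hfg := h.congr fun x _ => hfg x
  and h h' := h.and h'
  or h h' := h.or h'
  exist s _ _ hf := comp_exists s hf
  fix V c h hM := netP_fix V c h hM
  form φ hφ := comp_of_formula φ hφ

end net

section formula

variable {E : Type}

/-- `f` is computed by a formula -/
def FormP (M : Set E) (f : Set E → Prop) (m : ℕ) : Prop :=
  ∃ φ : Formula E, φ.Avoids M ∧ φ.leaves ≤ m ∧ ∀ x, φ.Eval x ↔ f x

theorem formP_fix {M M' : Set E} {f : Set E → Prop} {m : ℕ} (V c : Set E) (h : FormP M f m)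
    (hM : ∀ e ∈ M', e ∈ V → e ∈ M) : FormP M' (fun x => f (fixIn V c x)) m := by
  classical
  obtain ⟨φ, h1, h2, h3⟩ := h
  suffices ∃ ψ : Formula E, ψ.Avoids M' ∧ ψ.leaves = φ.leaves ∧ ∀ x, ψ.Eval x ↔
      φ.Eval (fixIn V c x) by
    obtain ⟨ψ, g1, g2, g3⟩ := this
    exact ⟨ψ, g1, g2.trans_le h2, fun x => (g3 x).trans (h3 _)⟩
  clear h2 h3
  induction φ with
  | var e =>
    by_cases hV : e ∈ V
    · exact ⟨Formula.var e, trivial, rfl, fun x => by simp [Formula.Eval, fixIn, hV]⟩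
    · by_cases hc : e ∈ c
      · exact ⟨Formula.top, trivial, rfl, fun x => by simp [Formula.Eval, fixIn, hV, hc]⟩
      · exact ⟨Formula.bot, trivial, rfl, fun x => by simp [Formula.Eval, fixIn, hV, hc]⟩
  | nvar e =>
    by_cases hV : e ∈ V
    · exact ⟨Formula.nvar e, fun he => h1 (hM e he hV), rfl,
        fun x => by simp [Formula.Eval, fixIn, hV]⟩
    · by_cases hc : e ∈ c
      · exact ⟨Formula.bot, trivial, rfl, fun x => by simp [Formula.Eval, fixIn, hV, hc]⟩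
      · exact ⟨Formula.top, trivial, rfl, fun x => by simp [Formula.Eval, fixIn, hV, hc]⟩
  | top => exact ⟨Formula.top, trivial, rfl, fun x => Iff.rfl⟩
  | bot => exact ⟨Formula.bot, trivial, rfl, fun x => Iff.rfl⟩
  | and φ ψ ih1 ih2 =>
    obtain ⟨φ', a1, a2, a3⟩ := ih1 h1.1
    obtain ⟨ψ', b1, b2, b3⟩ := ih2 h1.2
    exact ⟨Formula.and φ' ψ', ⟨a1, b1⟩, by simp [Formula.leaves, a2, b2], fun x => by
      simp only [Formula.Eval]; rw [a3, b3]⟩
  | or φ ψ ih1 ih2 =>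
    obtain ⟨φ', a1, a2, a3⟩ := ih1 h1.1
    obtain ⟨ψ', b1, b2, b3⟩ := ih2 h1.2
    exact ⟨Formula.or φ' ψ', ⟨a1, b1⟩, by simp [Formula.leaves, a2, b2], fun x => by
      simp only [Formula.Eval]; rw [a3, b3]⟩

theorem formP_and {M : Set E} {f g : Set E → Prop} {m m' : ℕ} (hf : FormP M f m)
    (hg : FormP M g m') : FormP M (fun x => f x ∧ g x) (m + m') := by
  obtain ⟨φ, a1, a2, a3⟩ := hf
  obtain ⟨ψ, b1, b2, b3⟩ := hg
  exact ⟨Formula.and φ ψ, ⟨a1, b1⟩, by simp only [Formula.leaves]; omega, fun x => by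
    simp only [Formula.Eval]; rw [a3, b3]⟩

theorem formP_or {M : Set E} {f g : Set E → Prop} {m m' : ℕ} (hf : FormP M f m)
    (hg : FormP M g m') : FormP M (fun x => f x ∨ g x) (m + m') := by
  obtain ⟨φ, a1, a2, a3⟩ := hf
  obtain ⟨ψ, b1, b2, b3⟩ := hg
  exact ⟨Formula.or φ ψ, ⟨a1, b1⟩, by simp only [Formula.leaves]; omega, fun x => by
    simp only [Formula.Eval]; rw [a3, b3]⟩

theorem formP_exists {M : Set E} {ι : Type} (s : Finset ι) {f : ι → Set E → Prop} {m : ℕ}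
    (hf : ∀ i ∈ s, FormP M (f i) m) : FormP M (fun x => ∃ i ∈ s, f i x) (s.card * m + 1) := by
  classical
  induction s using Finset.induction_on with
  | empty => exact ⟨Formula.bot, trivial, by simp [Formula.leaves], fun x => by
      simp [Formula.Eval]⟩
  | insert i s hi ih =>
    obtain ⟨φ, h1, h2, h3⟩ := formP_or (hf i (mem_insert_self _ _))
      (ih fun j hj => hf j (mem_insert_of_mem hj))
    refine ⟨φ, h1, ?_, fun x => ?_⟩
    · rw [card_insert_of_notMem hi]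
      have : (s.card + 1) * m = s.card * m + m := by ring
      omega
    · rw [h3 x]
      simp

theorem device_form : Device (E := E) FormP where
  mono h hm := by
    obtain ⟨φ, h1, h2, h3⟩ := h
    exact ⟨φ, h1, h2.trans hm, h3⟩
  congr h hfg := by
    obtain ⟨φ, h1, h2, h3⟩ := h
    exact ⟨φ, h1, h2, fun x => (h3 x).trans (hfg x)⟩
  and h h' := formP_and h h'
  or h h' := formP_or h h'
  exist s _ _ hf := by
    obtain ⟨φ, h1, h2, h3⟩ := formP_exists s hf
    exact ⟨φ, h1, by omega, h3⟩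
  fix V c h hM := formP_fix V c h hM
  form φ hφ := ⟨φ, hφ, by omega, fun _ => Iff.rfl⟩

end formula

section span

variable {E K : Type} [Field K]

theorem scomp_fix {M M' : Set E} {f : Set E → Prop} {m : ℕ} (V c : Set E) (h : SComp K M f m)
    (hM : ∀ e ∈ M', e ∈ V → e ∈ M) : SComp K M' (fun x => f (fixIn V c x)) m := by
  obtain ⟨U, i1, i2, S, h1, h2, h3, h4⟩ := h
  refine ⟨U, i1, i2, ⟨S.target, S.free ∪ ((⋃ e ∈ {e | e ∉ V ∧ e ∈ c}, S.pos e) ∪
    ⋃ e ∈ {e | e ∉ V ∧ e ∉ c}, S.neg e), fun e => {u | e ∈ V ∧ u ∈ S.pos e},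
    fun e => {u | e ∈ V ∧ u ∈ S.neg e}⟩, h1, h2, ?_, fun x => ?_⟩
  · intro e he
    ext u
    simp only [Set.mem_ofPred_eq, Set.mem_empty_iff_false, iff_false, not_and]
    intro hV
    rw [h3 e (hM e he hV)]
    simp
  · change _ ↔ f (fixIn V c x)
    rw [← h4]
    unfold SpanProgram.Accepts
    have : SpanProgram.available (⟨S.target, S.free ∪ ((⋃ e ∈ {e | e ∉ V ∧ e ∈ c}, S.pos e) ∪
        ⋃ e ∈ {e | e ∉ V ∧ e ∉ c}, S.neg e), fun e => {u | e ∈ V ∧ u ∈ S.pos e},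
        fun e => {u | e ∈ V ∧ u ∈ S.neg e}⟩ : SpanProgram E U) x = S.available (fixIn V c x) := by
      ext u
      simp only [SpanProgram.available, Set.mem_union, Set.mem_iUnion, exists_prop,
        Set.mem_ofPred_eq, Set.mem_compl_iff, fixIn]
      constructor
      · rintro ((h | ⟨e, ⟨h5, h6⟩, h7⟩ | ⟨e, ⟨h5, h6⟩, h7⟩) | ⟨e, he, h5, h6⟩ | ⟨e, he, h5, h6⟩)
        · exact Or.inl h
        · exact Or.inr (Or.inl ⟨e, Or.inr ⟨h5, h6⟩, h7⟩)
        · refine Or.inr (Or.inr ⟨e, ?_, h7⟩)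
          rintro (h | h)
          · exact h5 h.1
          · exact h6 h.2
        · exact Or.inr (Or.inl ⟨e, Or.inl ⟨h5, he⟩, h6⟩)
        · refine Or.inr (Or.inr ⟨e, ?_, h6⟩)
          rintro (h | h)
          · exact he h.2
          · exact h.1 h5
      · rintro (h | ⟨e, h5 | h5, h6⟩ | ⟨e, h5, h6⟩)
        · exact Or.inl (Or.inl h)
        · exact Or.inr (Or.inl ⟨e, h5.2, h5.1, h6⟩)
        · exact Or.inl (Or.inr (Or.inl ⟨e, h5, h6⟩))
        · by_cases hV : e ∈ V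
          · exact Or.inr (Or.inr ⟨e, fun hx => h5 (Or.inl ⟨hV, hx⟩), hV, h6⟩)
          · exact Or.inl (Or.inr (Or.inr ⟨e, ⟨hV, fun hc => h5 (Or.inr ⟨hV, hc⟩)⟩, h6⟩))
    rw [this]

theorem device_span : Device (E := E) (SComp K) where
  mono h hm := h.mono hm
  congr h hfg := h.congr hfg
  and h h' := h.and h'
  or h h' := h.or h'
  exist s _ _ hf := (scomp_exists s hf).mono (by omega)
  fix V c h hM := scomp_fix V c h hM
  form φ hφ := (scomp_of_formula K φ hφ).mono (by omega)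

end span

end Pool.Agent.Lib.Pe46137Q
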