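import Pool.Agent.Lib.Pe46137Q.Graph

/-!
Small directed networks for reachability in the oriented grid and for its negation.
-/

namespace Pool.Agent.Lib.Pe46137Q

open Pool.Agent.Lib.Pe46137

variable {n : ℕ}

/-- the grid itself as a directed network -/
def posNet (n : ℕ) : SwitchingNetwork (Vtx n × Vtx n) (Vtx n) where
  source := southwest n
  sink := northeast n
  wire _ _ := False
  pos e v w := e = (v, w)
  neg _ _ _ := False

theorem posNet_reaches (G : Set (Vtx n × Vtx n)) :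
    Reaches (posNet n) G Gᶜ ↔ Reachable G (southwest n) (northeast n) := by
  unfold Reaches Reachable
  have : (posNet n).Closed G Gᶜ = fun a b => (a, b) ∈ G := by
    funext a b
    simp [SwitchingNetwork.Closed, posNet]
  rw [this]
  exact Iff.rfl

/-- the faces: unit squares, the outside above (`inr false`) and the outside below (`inr true`) -/
abbrev Face (n : ℕ) : Type := (Fin n × Fin n) ⊕ Bool

/-- the face with coordinates `i, j` is `v` -/
def IsF (v : Face n) (i j : ℕ) : Prop := ∃ (hi : i < n) (hj : j < n), v = Sum.inl (⟨i, hi⟩, ⟨j, hj⟩)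

/-- the step from `v` to `w` crosses the arc `e` from its left side to its right side -/
def CrossLR (e : Vtx n × Vtx n) (v w : Face n) : Prop :=
  -- an arc to the right, crossed downwards
  ((e.2.1 : ℕ) = e.1.1 + 1 ∧ (e.2.2 : ℕ) = e.1.2 ∧
    (((e.1.2 : ℕ) = n ∧ v = Sum.inr false) ∨ IsF v e.1.1 e.1.2) ∧
    (((e.1.2 : ℕ) = 0 ∧ w = Sum.inr true) ∨ ∃ j, j + 1 = (e.1.2 : ℕ) ∧ IsF w e.1.1 j)) ∨
  -- an arc upwards, crossed to the right
  ((e.2.1 : ℕ) = e.1.1 ∧ (e.2.2 : ℕ) = e.1.2 + 1 ∧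
    (((e.1.1 : ℕ) = 0 ∧ v = Sum.inr false) ∨ ∃ i, i + 1 = (e.1.1 : ℕ) ∧ IsF v i e.1.2) ∧
    (((e.1.1 : ℕ) = n ∧ w = Sum.inr true) ∨ IsF w e.1.1 e.1.2))

/-- the dual network -/
def negNet (n : ℕ) : SwitchingNetwork (Vtx n × Vtx n) (Face n) where
  source := Sum.inr false
  sink := Sum.inr true
  wire v w := ∃ i j, (IsF v i j ∧ IsF w i (j + 1)) ∨ (IsF v (i + 1) j ∧ IsF w i j)
  pos _ _ _ := False
  neg e v w := CrossLR e v w

theorem seq_of_reach {V : Type*} {G : Set (V × V)} {a b : V} (h : Reachable G a b) :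
    ∃ (L : ℕ) (z : ℕ → V), z 0 = a ∧ z L = b ∧ ∀ u < L, (z u, z (u + 1)) ∈ G := by
  unfold Reachable at h
  induction h with
  | refl => exact ⟨0, fun _ => a, rfl, rfl, fun u hu => absurd hu (Nat.not_lt_zero _)⟩
  | @tail b c _ hbc ih =>
    obtain ⟨L, z, h0, hL, hz⟩ := ih
    refine ⟨L + 1, fun u => if u ≤ L then z u else c, by simp [h0], by simp, fun u hu => ?_⟩
    by_cases h : u < L
    · simp only [show u ≤ L by omega, show u + 1 ≤ L by omega, if_true]
      exact hz u h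
    · have : u = L := by omega
      subst this
      simp only [le_refl, if_true, show ¬ (u + 1 ≤ u) by omega, if_false, hL]
      exact hbc

theorem isF_inj {v : Face n} {i j i' j' : ℕ} (h : IsF v i j) (h' : IsF v i' j') :
    i = i' ∧ j = j' := by
  obtain ⟨hi, hj, rfl⟩ := h
  obtain ⟨hi', hj', h⟩ := h'
  simp only [Sum.inl.injEq, Prod.mk.injEq, Fin.mk.injEq] at h
  exact h

section sound

variable {G : Set (Vtx n × Vtx n)} {L : ℕ} {z : ℕ → Vtx n}

theorem seq_mono (hG : G ⊆ grid n) (hz : ∀ u < L, (z u, z (u + 1)) ∈ G) {u u' : ℕ} (h : u ≤ u')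
    (h' : u' ≤ L) : ((z u).1 : ℕ) ≤ (z u').1 ∧ ((z u).2 : ℕ) ≤ (z u').2 := by
  induction u', h using Nat.le_induction with
  | base => exact ⟨le_rfl, le_rfl⟩
  | succ k hk ih =>
    have h1 := ih (by omega)
    have h2 := hG (hz k (by omega))
    simp only [grid, Set.mem_ofPred_eq] at h2
    omega

/-- the path has an arc to the right in column `i` at height `j` if it has a vertex right of
column `i` at height at most `j`, and none at height less than `j` -/
theorem right_arc (hG : G ⊆ grid n) (hz : ∀ u < L, (z u, z (u + 1)) ∈ G)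
    (h0 : z 0 = southwest n) {i j : ℕ}
    (h1 : ∃ u ≤ L, i + 1 ≤ ((z u).1 : ℕ) ∧ ((z u).2 : ℕ) ≤ j)
    (h2 : ∀ u ≤ L, i + 1 ≤ ((z u).1 : ℕ) → j ≤ ((z u).2 : ℕ)) :
    ∃ e ∈ G, (e.1.1 : ℕ) = i ∧ (e.1.2 : ℕ) = j ∧ (e.2.1 : ℕ) = i + 1 ∧ (e.2.2 : ℕ) = j := by
  classical
  obtain ⟨u, hu, h3, h4⟩ := h1
  have hex : ∃ u, i + 1 ≤ ((z u).1 : ℕ) := ⟨u, h3⟩
  set k := Nat.find hex with hk
  have hk1 : i + 1 ≤ ((z k).1 : ℕ) := Nat.find_spec hex
  have hku : k ≤ u := Nat.find_min' hex h3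
  have hk0 : k ≠ 0 := by
    intro h
    rw [h, h0] at hk1
    have : ((southwest n).1 : ℕ) = 0 := rfl
    omega
  have hkm : ((z (k - 1)).1 : ℕ) < i + 1 := by
    by_contra hc
    exact Nat.find_min hex (show k - 1 < k by omega) (by omega)
  have h5 := hz (k - 1) (by omega)
  have e : k - 1 + 1 = k := by omega
  rw [e] at h5
  have h6 := hG h5
  simp only [grid, Set.mem_ofPred_eq] at h6
  have h7 := (seq_mono hG hz hku hu).2
  have h8 := h2 k (by omega) hk1
  refine ⟨_, h5, ?_, ?_, ?_, ?_⟩ <;> simp only <;> omega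

/-- the path has an arc upwards in column `i` at height `j` -/
theorem up_arc (hG : G ⊆ grid n) (hz : ∀ u < L, (z u, z (u + 1)) ∈ G)
    (hL : z L = northeast n) {i j : ℕ} (hj : j < n)
    (h1 : ∃ u ≤ L, i ≤ ((z u).1 : ℕ) ∧ ((z u).2 : ℕ) ≤ j)
    (h2 : ∀ u ≤ L, ((z u).2 : ℕ) ≤ j → ((z u).1 : ℕ) ≤ i) :
    ∃ e ∈ G, (e.1.1 : ℕ) = i ∧ (e.1.2 : ℕ) = j ∧ (e.2.1 : ℕ) = i ∧ (e.2.2 : ℕ) = j + 1 := by
  classical
  obtain ⟨u, hu, h3, h4⟩ := h1
  have hLn : ((z L).2 : ℕ) = n := by rw [hL]; rfl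
  have hex : ∃ d, u + d ≤ L ∧ j < ((z (u + d)).2 : ℕ) := ⟨L - u, by omega, by
    rw [show u + (L - u) = L by omega, hLn]; exact hj⟩
  set k := Nat.find hex with hk
  have hk1 : u + k ≤ L ∧ j < ((z (u + k)).2 : ℕ) := Nat.find_spec hex
  have hk0 : k ≠ 0 := by
    intro h
    rw [h] at hk1
    simp only [Nat.add_zero] at hk1
    omega
  have hkm : ((z (u + (k - 1))).2 : ℕ) ≤ j := by
    by_contra hc
    exact Nat.find_min hex (show k - 1 < k by omega) ⟨by omega, by omega⟩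
  have h5 := hz (u + (k - 1)) (by omega)
  have e : u + (k - 1) + 1 = u + k := by omega
  rw [e] at h5
  have h6 := hG h5
  simp only [grid, Set.mem_ofPred_eq] at h6
  have h7 := (seq_mono hG hz (show u ≤ u + (k - 1) by omega) (by omega)).1
  have h8 := h2 (u + (k - 1)) (by omega) hkm
  refine ⟨_, h5, ?_, ?_, ?_, ?_⟩ <;> simp only <;> omega

theorem dual_sound (hG : G ⊆ grid n) (h : Reachable G (southwest n) (northeast n)) :
    ¬ Reaches (negNet n) G Gᶜ := by
  obtain ⟨L, z, h0, hL, hz⟩ := seq_of_reach h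
  -- faces with a vertex of the path below and to the right
  set A : Face n → Prop := fun v => v = Sum.inr false ∨ ∃ i j, IsF v i j ∧
    ∃ u ≤ L, i + 1 ≤ ((z u).1 : ℕ) ∧ ((z u).2 : ℕ) ≤ j with hA
  have hL1 : ((z L).1 : ℕ) = n := by rw [hL]; rfl
  have hL2 : ((z L).2 : ℕ) = n := by rw [hL]; rfl
  have h01 : ((z 0).1 : ℕ) = 0 := by rw [h0]; rfl
  have h02 : ((z 0).2 : ℕ) = 0 := by rw [h0]; rfl
  have key : ∀ v w, A v → (negNet n).Closed G Gᶜ v w → A w := by
    intro v w hv hvw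
    rcases hvw with ⟨i, j, ⟨hv', hw'⟩ | ⟨hv', hw'⟩⟩ | ⟨e, _, he⟩ | ⟨e, heG, he⟩
    · -- north
      rcases hv with hv | ⟨i', j', hv, u, hu, h1, h2⟩
      · obtain ⟨_, _, h3⟩ := hv'
        rw [hv] at h3
        cases h3
      · obtain ⟨rfl, rfl⟩ := isF_inj hv hv'
        exact Or.inr ⟨_, _, hw', u, hu, h1, by omega⟩
    · -- west
      rcases hv with hv | ⟨i', j', hv, u, hu, h1, h2⟩
      · obtain ⟨_, _, h3⟩ := hv'
        rw [hv] at h3
        cases h3
      · obtain ⟨rfl, rfl⟩ := isF_inj hv hv'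
        exact Or.inr ⟨_, _, hw', u, hu, by omega, h2⟩
    · exact he.elim
    · rcases he with ⟨a1, a2, a3, a4⟩ | ⟨a1, a2, a3, a4⟩
      · -- south
        have hi : (e.1.1 : ℕ) + 1 ≤ n := by have := e.2.1.2; omega
        have b1 : ∃ u ≤ L, (e.1.1 : ℕ) + 1 ≤ ((z u).1 : ℕ) ∧ ((z u).2 : ℕ) ≤ (e.1.2 : ℕ) := by
          rcases hv with hv | ⟨i', j', hv, h5⟩
          · rcases a3 with ⟨h1, _⟩ | ⟨_, _, h1⟩
            · exact ⟨L, le_rfl, by omega, by omega⟩
            · rw [hv] at h1; cases h1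
          · rcases a3 with ⟨_, h1⟩ | h1
            · obtain ⟨_, _, h2⟩ := hv
              rw [h1] at h2; cases h2
            · obtain ⟨h3, h4⟩ := isF_inj hv h1
              rw [h3, h4] at h5
              exact h5
        by_contra hc
        have b2 : ∀ u ≤ L, (e.1.1 : ℕ) + 1 ≤ ((z u).1 : ℕ) → (e.1.2 : ℕ) ≤ ((z u).2 : ℕ) := by
          intro u hu h1
          by_contra h2
          apply hc
          rcases a4 with ⟨h3, _⟩ | ⟨j, h3, h4⟩
          · omega
          · exact Or.inr ⟨_, _, h4, u, hu, h1, by omega⟩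
        obtain ⟨e', he', c1, c2, c3, c4⟩ := right_arc hG hz h0 b1 b2
        have : e' = e := by
          refine Prod.ext (vtx_ext ?_ ?_) (vtx_ext ?_ ?_) <;> omega
        exact heG (this ▸ he')
      · -- east
        have hj : (e.1.2 : ℕ) < n := by have := e.2.2.2; omega
        have b1 : ∃ u ≤ L, (e.1.1 : ℕ) ≤ ((z u).1 : ℕ) ∧ ((z u).2 : ℕ) ≤ (e.1.2 : ℕ) := by
          rcases hv with hv | ⟨i', j', hv, h5⟩
          · rcases a3 with ⟨h1, _⟩ | ⟨i, _, _, _, h1⟩
            · exact ⟨0, Nat.zero_le _, by omega, by omega⟩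
            · rw [hv] at h1; cases h1
          · rcases a3 with ⟨_, h1⟩ | ⟨i, h6, h1⟩
            · obtain ⟨_, _, h2⟩ := hv
              rw [h1] at h2; cases h2
            · obtain ⟨h3, h4⟩ := isF_inj hv h1
              rw [h3, h4, h6] at h5
              exact h5
        by_contra hc
        have b2 : ∀ u ≤ L, ((z u).2 : ℕ) ≤ (e.1.2 : ℕ) → ((z u).1 : ℕ) ≤ (e.1.1 : ℕ) := by
          intro u hu h1
          by_contra h2
          apply hc
          rcases a4 with ⟨h3, _⟩ | h4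
          · have := (z u).1.2
            omega
          · exact Or.inr ⟨_, _, h4, u, hu, by omega, h1⟩
        obtain ⟨e', he', c1, c2, c3, c4⟩ := up_arc hG hz hL hj b1 b2
        have : e' = e := by
          refine Prod.ext (vtx_ext ?_ ?_) (vtx_ext ?_ ?_) <;> omega
        exact heG (this ▸ he')
  intro hr
  have hall : ∀ v, Relation.ReflTransGen ((negNet n).Closed G Gᶜ) (negNet n).source v → A v := by
    intro v hv
    induction hv with
    | refl => exact Or.inl rfl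
    | tail _ hbc ih => exact key _ _ ih hbc
  rcases hall _ hr with h1 | ⟨i, j, ⟨_, _, h1⟩, _⟩
  · simp [negNet] at h1
  · simp [negNet] at h1

end sound

section complete

theorem dual_complete {G : Set (Vtx n × Vtx n)} (h : ¬ Reaches (negNet n) G Gᶜ) :
    Reachable G (southwest n) (northeast n) := by
  classical
  set D : Face n → Prop := fun v =>
    Relation.ReflTransGen ((negNet n).Closed G Gᶜ) (negNet n).source v with hD
  have hLR : ¬ D (Sum.inr true) := h
  have hUL : D (Sum.inr false) := Relation.ReflTransGen.refl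
  set I : ℕ → ℕ → Prop := fun i j => ∃ v, IsF v i j ∧ D v with hI
  have north : ∀ i j, j + 1 < n → I i j → I i (j + 1) := by
    rintro i j hj ⟨v, hv, hDv⟩
    obtain ⟨hi, _, _⟩ := id hv
    refine ⟨Sum.inl (⟨i, hi⟩, ⟨j + 1, hj⟩), ⟨hi, hj, rfl⟩, hDv.tail (Or.inl ⟨i, j, Or.inl ⟨hv, ?_⟩⟩)⟩
    exact ⟨hi, hj, rfl⟩
  have north' : ∀ i j j', j ≤ j' → j' < n → I i j → I i j' := by
    intro i j j' hjj hj' hIj
    induction j', hjj using Nat.le_induction with
    | base => exact hIj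
    | succ k hk ih => exact north i k hj' (ih (by omega))
  have west : ∀ i j, I (i + 1) j → I i j := by
    rintro i j ⟨v, hv, hDv⟩
    obtain ⟨hi, hj, _⟩ := id hv
    refine ⟨Sum.inl (⟨i, by omega⟩, ⟨j, hj⟩), ⟨by omega, hj, rfl⟩,
      hDv.tail (Or.inl ⟨i, j, Or.inr ⟨hv, ?_⟩⟩)⟩
    exact ⟨by omega, hj, rfl⟩
  have hex : ∀ i, ∃ j, n ≤ j ∨ I i j := fun i => ⟨n, Or.inl le_rfl⟩
  set ht : ℕ → ℕ := fun i => Nat.find (hex i) with hht
  have ht_le : ∀ i, ht i ≤ n := fun i => Nat.find_min' (hex i) (Or.inl le_rfl)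
  have ht_spec : ∀ i, ht i < n → I i (ht i) := by
    intro i hi
    rcases Nat.find_spec (hex i) with h1 | h1
    · exact absurd h1 (by change ¬ n ≤ ht i; omega)
    · exact h1
  have ht_min : ∀ i j, j < ht i → ¬ I i j := fun i j hj hc =>
    Nat.find_min (hex i) hj (Or.inr hc)
  have ht_mono : ∀ i, ht i ≤ ht (i + 1) := by
    intro i
    by_cases h1 : ht (i + 1) < n
    · exact Nat.find_min' (hex i) (Or.inr (west i _ (ht_spec _ h1)))
    · have := ht_le i
      omega
  -- arcs to the right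
  have arcR : ∀ i, i < n → (vtx n i (ht i), vtx n (i + 1) (ht i)) ∈ G := by
    intro i hi
    by_contra hc
    have h1 := ht_le i
    have hab : ∃ v, D v ∧ ((ht i = n ∧ v = Sum.inr false) ∨ IsF v i (ht i)) := by
      by_cases h2 : ht i = n
      · exact ⟨_, hUL, Or.inl ⟨h2, rfl⟩⟩
      · obtain ⟨v, h3, h4⟩ := ht_spec i (by omega)
        exact ⟨v, h4, Or.inr h3⟩
    obtain ⟨v, hv1, hv2⟩ := hab
    have hbel : ∃ w, ¬ D w ∧ ((ht i = 0 ∧ w = Sum.inr true) ∨ ∃ j, j + 1 = ht i ∧ IsF w i j) := by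
      by_cases h2 : ht i = 0
      · exact ⟨_, hLR, Or.inl ⟨h2, rfl⟩⟩
      · refine ⟨Sum.inl (⟨i, hi⟩, ⟨ht i - 1, by omega⟩), ?_, Or.inr ⟨ht i - 1, by omega, hi, by omega, rfl⟩⟩
        intro h3
        exact ht_min i (ht i - 1) (by omega) ⟨_, ⟨hi, by omega, rfl⟩, h3⟩
    obtain ⟨w, hw1, hw2⟩ := hbel
    apply hw1
    refine hv1.tail (Or.inr (Or.inr ⟨_, hc, Or.inl ⟨?_, ?_, ?_, ?_⟩⟩))
    · simp only
      rw [vtx_fst (show i ≤ n by omega), vtx_fst (show i + 1 ≤ n by omega)]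
    · simp only
      rw [vtx_snd h1, vtx_snd h1]
    · simp only
      rw [vtx_fst (show i ≤ n by omega), vtx_snd h1]
      exact hv2
    · simp only
      rw [vtx_fst (show i ≤ n by omega), vtx_snd h1]
      exact hw2
  -- arcs upwards, first column
  have arcU0 : ∀ j, j < ht 0 → 0 < n → (vtx n 0 j, vtx n 0 (j + 1)) ∈ G := by
    intro j hj hn
    by_contra hc
    have h1 := ht_le 0
    apply ht_min 0 j hj
    refine ⟨Sum.inl (⟨0, hn⟩, ⟨j, by omega⟩), ⟨hn, by omega, rfl⟩,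
      hUL.tail (Or.inr (Or.inr ⟨_, hc, Or.inr ⟨?_, ?_, ?_, ?_⟩⟩))⟩
    · simp only
      rw [vtx_fst (Nat.zero_le _), vtx_fst (Nat.zero_le _)]
    · simp only
      rw [vtx_snd (show j ≤ n by omega), vtx_snd (show j + 1 ≤ n by omega)]
    · simp only
      rw [vtx_fst (Nat.zero_le _)]
      exact Or.inl ⟨rfl, trivial⟩
    · simp only
      rw [vtx_fst (Nat.zero_le _), vtx_snd (show j ≤ n by omega)]
      exact Or.inr ⟨hn, by omega, rfl⟩
  -- arcs upwards, inner columns
  have arcU : ∀ i j, i + 1 < n → ht i ≤ j → j < ht (i + 1) →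
      (vtx n (i + 1) j, vtx n (i + 1) (j + 1)) ∈ G := by
    intro i j hi hj1 hj2
    by_contra hc
    have h1 := ht_le (i + 1)
    obtain ⟨v, hv, hDv⟩ := north' i (ht i) j hj1 (by omega) (ht_spec i (by omega))
    apply ht_min (i + 1) j hj2
    refine ⟨Sum.inl (⟨i + 1, hi⟩, ⟨j, by omega⟩), ⟨hi, by omega, rfl⟩,
      hDv.tail (Or.inr (Or.inr ⟨_, hc, Or.inr ⟨?_, ?_, ?_, ?_⟩⟩))⟩
    · change ((vtx n (i + 1) (j + 1)).1 : ℕ) = (vtx n (i + 1) j).1
      rw [vtx_fst (show i + 1 ≤ n by omega), vtx_fst (show i + 1 ≤ n by omega)]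
    · simp only
      rw [vtx_snd (show j ≤ n by omega), vtx_snd (show j + 1 ≤ n by omega)]
    · simp only
      rw [vtx_fst (show i + 1 ≤ n by omega), vtx_snd (show j ≤ n by omega)]
      exact Or.inr ⟨i, rfl, hv⟩
    · simp only
      rw [vtx_fst (show i + 1 ≤ n by omega), vtx_snd (show j ≤ n by omega)]
      exact Or.inr ⟨hi, by omega, rfl⟩
  -- arcs upwards, last column
  have arcUn : ∀ i j, i + 1 = n → ht i ≤ j → j < n → (vtx n n j, vtx n n (j + 1)) ∈ G := by
    intro i j hi hj1 hj2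
    by_contra hc
    obtain ⟨v, hv, hDv⟩ := north' i (ht i) j hj1 hj2 (ht_spec i (by omega))
    apply hLR
    refine hDv.tail (Or.inr (Or.inr ⟨_, hc, Or.inr ⟨?_, ?_, ?_, ?_⟩⟩))
    · change ((vtx n n (j + 1)).1 : ℕ) = (vtx n n j).1
      rw [vtx_fst le_rfl, vtx_fst le_rfl]
    · simp only
      rw [vtx_snd (show j ≤ n by omega), vtx_snd (show j + 1 ≤ n by omega)]
    · simp only
      rw [vtx_fst le_rfl, vtx_snd (show j ≤ n by omega)]
      exact Or.inr ⟨i, hi, hv⟩
    · simp only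
      rw [vtx_fst le_rfl]
      exact Or.inl ⟨rfl, trivial⟩
  have up : ∀ (i a b : ℕ), a ≤ b → (∀ j, a ≤ j → j < b → (vtx n i j, vtx n i (j + 1)) ∈ G) →
      Reachable G (vtx n i a) (vtx n i b) := by
    intro i a b hab hh
    have h1 := reach_seq (G := G) (fun u => vtx n i (a + u)) (b - a)
      (fun u hu => hh (a + u) (by omega) (by omega))
    simp only [Nat.add_zero] at h1
    rwa [show a + (b - a) = b by omega] at h1
  rcases Nat.eq_zero_or_pos n with hn | hn
  · subst hn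
    have : southwest 0 = northeast 0 := rfl
    rw [this]
    exact Relation.ReflTransGen.refl
  have r0 : Reachable G (vtx n 0 0) (vtx n 0 (ht 0)) :=
    up 0 0 (ht 0) (Nat.zero_le _) fun j _ hj => arcU0 j hj hn
  have r1 : ∀ i, i < n → Reachable G (vtx n 0 0) (vtx n i (ht i)) := by
    intro i
    induction i with
    | zero => intro _; exact r0
    | succ i ih =>
      intro hi
      refine ((ih (by omega)).tail (arcR i (by omega))).trans ?_
      exact up (i + 1) (ht i) (ht (i + 1)) (ht_mono i) fun j h1 h2 => arcU i j hi h1 h2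
  have r2 : Reachable G (vtx n 0 0) (vtx n n n) := by
    have h1 := (r1 (n - 1) (by omega)).tail (arcR (n - 1) (by omega))
    rw [show n - 1 + 1 = n by omega] at h1
    exact h1.trans (up n (ht (n - 1)) n (ht_le _) fun j h2 h3 => arcUn (n - 1) j (by omega) h2 h3)
  have e0 : southwest n = vtx n 0 0 := by
    refine vtx_ext ?_ ?_
    · rw [vtx_fst (Nat.zero_le _)]; rfl
    · rw [vtx_snd (Nat.zero_le _)]; rfl
  have e1 : northeast n = vtx n n n := by
    refine vtx_ext ?_ ?_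
    · rw [vtx_fst le_rfl]; rfl
    · rw [vtx_snd le_rfl]; rfl
  rw [e0, e1]
  exact r2

end complete

theorem negNet_reaches {G : Set (Vtx n × Vtx n)} (hG : G ⊆ grid n) :
    Reaches (negNet n) G Gᶜ ↔ ¬ Reachable G (southwest n) (northeast n) :=
  ⟨fun h h' => dual_sound hG h' h, fun h => by
    by_contra hc
    exact h (dual_complete hc)⟩

end Pool.Agent.Lib.Pe46137Q
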