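import Pool.Agent.Lib.Pe46137Q.Graph
import Pool.Agent.Lib.Pe46137P.SCalc

/-!
The lower bound for the oriented grid.
-/

namespace Pool.Agent.Lib.Pe46137Q

open Finset
open Pool.Agent.Lib.Pe46137
open Pool.Agent.Lib.Pe46137P (Crosses SComp SpanProgram final_count card_chosen_le chosen)

/-- the lower bound with parameters -/
theorem lower_param {n p q m l w : ℕ} (hl : 1 ≤ l) (hw : 1 ≤ w)
    (hm : (l + 1) * (4 * w + 4) ≤ 2 * m) (hp : p + m ≤ n) (hq : q + m ≤ n) {K : Type} [Field K]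
    {g : Set (Vtx n × Vtx n) → Prop} {D : ℕ} (hg : SComp K (square n p q m) g D)
    (h : ∀ G ⊆ grid n, (g G ↔ Reachable G (southwest n) (northeast n))) :
    w ^ (Nat.log 2 l + 1) ≤ (l + 1) ^ (Nat.log 2 l + 1) * D := by
  obtain ⟨V, i1, i2, S, h1, h2, h3, h4⟩ := hg
  have key := scheme_span (K := K) (V := V) (w := w) (d := Nat.log 2 l)
    (Nat.pow_log_le_self 2 (show l ≠ 0 by omega))
    (square n p q m) (inG n p q m) (inH n p q m) (scheme_pos hw hm hp hq)
    (fun f θ => scheme_neg f θ) S h3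
    (fun f => (h4 _).mpr ((h _ (inG_grid hw hm hp hq f)).mpr (inG_reach hw hm hp hq f)))
    (fun θ hc => inH_not_reach hw hm hp hq θ ((h _ (inH_grid θ)).mp ((h4 _).mp hc)))
  refine final_count hl ?_
  exact key.trans (Nat.mul_le_mul (card_chosen_le l w (Nat.log 2 l)) h2)

/-- the numbers -/
theorem num_lower {m D : ℕ} (hm : 1 ≤ m)
    (h : ∀ l w, 1 ≤ l → 1 ≤ w → (l + 1) * (4 * w + 4) ≤ 2 * m →
      w ^ (Nat.log 2 l + 1) ≤ (l + 1) ^ (Nat.log 2 l + 1) * D) :
    (Real.logb 2 m) ^ 2 / 8 - 3 * Real.logb 2 m ≤ Real.logb 2 D := by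
  have hD0 : 0 ≤ Real.logb 2 D := by
    rcases Nat.eq_zero_or_pos D with h0 | h0
    · subst h0; simp
    · exact Real.logb_nonneg (by norm_num) (by exact_mod_cast h0)
  set M := Nat.log 2 m with hM
  set x := Real.logb 2 m with hx
  have hm' : (0 : ℝ) < m := by exact_mod_cast hm
  have hx0 : 0 ≤ x := Real.logb_nonneg (by norm_num) (by exact_mod_cast hm)
  have hMx : (M : ℝ) ≤ x := by
    rw [hx, Real.le_logb_iff_rpow_le (by norm_num) hm', Real.rpow_natCast]
    exact_mod_cast Nat.pow_log_le_self 2 (by omega)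
  have hxM : x < M + 1 := by
    rw [hx, Real.logb_lt_iff_lt_rpow (by norm_num) hm']
    have : ((M : ℝ) + 1) = ((M + 1 : ℕ) : ℝ) := by push_cast; ring
    rw [this, Real.rpow_natCast]
    exact_mod_cast Nat.lt_pow_succ_log_self (by norm_num) m
  by_cases hsmall : M < 24
  · have h1 : x < 24 := by
      have : (M : ℝ) ≤ 23 := by exact_mod_cast (show M ≤ 23 by omega)
      linarith
    nlinarith
  · push Not at hsmall
    set k := M / 4 with hk
    have hk1 : 4 * k ≤ M := Nat.mul_div_le M 4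
    have hk2 : M < 4 * k + 4 := by omega
    have hpow : 2 ^ M ≤ m := Nat.pow_log_le_self 2 (by omega)
    set w := m / (2 * (2 ^ k + 1)) - 1 with hw
    have hkp : 1 ≤ 2 ^ k := Nat.one_le_two_pow
    -- the size of `w`
    have hdiv : 2 ^ (M - k - 2) ≤ m / (2 * (2 ^ k + 1)) := by
      rw [Nat.le_div_iff_mul_le (by positivity)]
      calc 2 ^ (M - k - 2) * (2 * (2 ^ k + 1)) ≤ 2 ^ (M - k - 2) * (2 * (2 ^ k + 2 ^ k)) := by
            gcongr
        _ = 2 ^ (M - k - 2) * 2 ^ (k + 2) := by ring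
        _ = 2 ^ M := by rw [← pow_add]; congr 1; omega
        _ ≤ m := hpow
    have hw2 : 2 ^ (M - k - 3) ≤ w := by
      have h1 : 2 ^ (M - k - 2) = 2 * 2 ^ (M - k - 3) := by
        rw [← pow_succ']; congr 1; omega
      have h2 : 1 ≤ 2 ^ (M - k - 3) := Nat.one_le_two_pow
      omega
    have hw1 : 1 ≤ w := le_trans Nat.one_le_two_pow hw2
    have hlm : (2 ^ k + 1) * (4 * w + 4) ≤ 2 * m := by
      have h1 : w + 1 = m / (2 * (2 ^ k + 1)) := by omega
      have h2 : 2 * (2 ^ k + 1) * (m / (2 * (2 ^ k + 1))) ≤ m := Nat.mul_div_le _ _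
      calc (2 ^ k + 1) * (4 * w + 4) = 2 * (2 * (2 ^ k + 1) * (w + 1)) := by ring
        _ ≤ 2 * m := by rw [h1]; exact Nat.mul_le_mul_left _ h2
    have key := h (2 ^ k) w hkp hw1 hlm
    rw [Nat.log_pow (by norm_num)] at key
    have hDpos : 1 ≤ D := by
      by_contra hc
      have : D = 0 := by omega
      rw [this, mul_zero] at key
      have : 0 < w ^ (k + 1) := by positivity
      omega
    have h5 : 2 ^ ((M - k - 3) * (k + 1)) ≤ 2 ^ ((k + 1) * (k + 1)) * D := by
      calc 2 ^ ((M - k - 3) * (k + 1)) = (2 ^ (M - k - 3)) ^ (k + 1) := by rw [pow_mul]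
        _ ≤ w ^ (k + 1) := Nat.pow_le_pow_left hw2 _
        _ ≤ (2 ^ k + 1) ^ (k + 1) * D := key
        _ ≤ (2 ^ (k + 1)) ^ (k + 1) * D := by
            refine Nat.mul_le_mul_right _ (Nat.pow_le_pow_left ?_ _)
            have : 2 ^ (k + 1) = 2 ^ k + 2 ^ k := by ring
            omega
        _ = 2 ^ ((k + 1) * (k + 1)) * D := by rw [← pow_mul]
    have h6 : (((M - k - 3) * (k + 1) : ℕ) : ℝ) ≤ (((k + 1) * (k + 1) : ℕ) : ℝ) +
        Real.logb 2 D := by
      have h7 : ((2 : ℝ) ^ ((M - k - 3) * (k + 1))) ≤ 2 ^ ((k + 1) * (k + 1)) * D := by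
        exact_mod_cast h5
      have h8 := Real.logb_le_logb_of_le (b := 2) (by norm_num) (by positivity) h7
      rw [Real.logb_mul (by positivity) (by positivity), Real.logb_pow, Real.logb_pow,
        Real.logb_self_eq_one (by norm_num)] at h8
      simpa using h8
    have e1 : (((M - k - 3 : ℕ)) : ℝ) = (M : ℝ) - k - 3 := by
      have : k + 3 ≤ M := by omega
      rw [Nat.sub_sub, Nat.cast_sub this]
      push_cast; ring
    push_cast [e1] at h6
    have f1 : 4 * (k : ℝ) ≤ M := by exact_mod_cast hk1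
    have f2 : (M : ℝ) + 1 ≤ 4 * k + 4 := by exact_mod_cast hk2
    have f3 : (24 : ℝ) ≤ M := by exact_mod_cast hsmall
    have f4 : ((M : ℝ) + 1) / 4 * (M / 2 - 4) ≤ ((k : ℝ) + 1) * (M - 2 * k - 4) := by
      apply mul_le_mul
      · linarith
      · linarith
      · linarith
      · linarith
    have f5 : ((k : ℝ) + 1) * (M - 2 * k - 4) ≤ Real.logb 2 D := by nlinarith
    nlinarith

/-- the lower bound for span programs over any field -/
theorem lower_scomp {n p q m : ℕ} (hm : 1 ≤ m) (hp : p + m ≤ n) (hq : q + m ≤ n) {K : Type}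
    [Field K] {g : Set (Vtx n × Vtx n) → Prop} {D : ℕ} (hg : SComp K (square n p q m) g D)
    (h : ∀ G ⊆ grid n, (g G ↔ Reachable G (southwest n) (northeast n))) :
    (Real.logb 2 m) ^ 2 / 8 - 3 * Real.logb 2 m ≤ Real.logb 2 D :=
  num_lower hm fun _ _ hl hw hlm => lower_param hl hw hlm hp hq hg h

end Pool.Agent.Lib.Pe46137Q
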