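import Pool.Agent.Lib.Pe46137Q.Price
import Pool.Agent.Lib.Pe46137Q.Lower
import Pool.Agent.Lib.Pe46137Q.Dual

/-!
The final statements.
-/

namespace Pool.Agent.Lib.Pe46137Q

open Finset
open Pool.Agent.Lib.Pe46137
open Pool.Agent.Lib.Pe46137P

variable {n p q m : ℕ}

theorem lower_device {K : Type} [Field K] (hm : 1 ≤ m) (hp : p + m ≤ n) (hq : q + m ≤ n)
    {g : Set (Vtx n × Vtx n) → Prop} {D : ℕ} (hg : SComp K (inside n p q m) g D)
    (h : Computes n g) :
    (Real.logb 2 m) ^ 2 / 8 - 3 * Real.logb 2 m ≤ Real.logb 2 D := by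
  refine lower_scomp hm hp hq (scomp_fix (M' := square n p q m) (grid n) ∅ hg
    fun e he hV => ⟨hV, he⟩) fun G hG => ?_
  have : fixIn (grid n) ∅ G = G := by
    ext e
    simp only [fixIn, Set.mem_ofPred_eq, Set.mem_empty_iff_false, and_false, or_false]
    exact ⟨fun h => h.2, fun h => ⟨hG h, h⟩⟩
  rw [this]
  exact h G hG

theorem price_log (hm : 2 ≤ m) (c : ℕ) :
    Real.logb 2 ((max c 1 + ((m + 1) ^ 4 * (max c 1 + 2 * 2 ^ (Nat.clog 2 (2 * m) *
      (Nat.clog 2 (2 * m) + 3) / 2) + max c 1) + 2) : ℕ) : ℝ) ≤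
      Real.logb 2 c + (Real.logb 2 m) ^ 2 / 2 + 20 * Real.logb 2 m := by
  set E := Nat.clog 2 (2 * m) * (Nat.clog 2 (2 * m) + 3) / 2 with hE
  set d := max c 1 with hd
  have hd1 : 1 ≤ d := le_max_right _ _
  have hE1 : 1 ≤ 2 ^ E := Nat.one_le_two_pow
  have hlog : Real.logb 2 d = Real.logb 2 c := by
    rcases Nat.eq_zero_or_pos c with h0 | h0
    · rw [hd, h0]; simp
    · rw [hd, max_eq_left h0]
  have hM : m + 1 ≤ 2 * m := by omega
  have h4 : (m + 1) ^ 4 ≤ 16 * m ^ 4 := by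
    calc (m + 1) ^ 4 ≤ (2 * m) ^ 4 := Nat.pow_le_pow_left hM 4
      _ = 16 * m ^ 4 := by ring
  have hm4 : 1 ≤ m ^ 4 := Nat.one_le_pow _ _ (by omega)
  have key : d + ((m + 1) ^ 4 * (d + 2 * 2 ^ E + d) + 2) ≤ 2 ^ 7 * m ^ 4 * (d * 2 ^ E) := by
    have e1 : d ≤ d * 2 ^ E := Nat.le_mul_of_pos_right _ (by positivity)
    have e2 : 2 ^ E ≤ d * 2 ^ E := Nat.le_mul_of_pos_left _ hd1
    have e3 : 1 ≤ d * 2 ^ E := le_trans hd1 e1
    have e4 : d + 2 * 2 ^ E + d ≤ 4 * (d * 2 ^ E) := by omega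
    have e5 : (m + 1) ^ 4 * (d + 2 * 2 ^ E + d) ≤ 16 * m ^ 4 * (4 * (d * 2 ^ E)) :=
      Nat.mul_le_mul h4 e4
    have e6 : 3 * (d * 2 ^ E) ≤ 3 * (m ^ 4 * (d * 2 ^ E)) :=
      Nat.mul_le_mul_left _ (Nat.le_mul_of_pos_left _ hm4)
    calc d + ((m + 1) ^ 4 * (d + 2 * 2 ^ E + d) + 2) ≤
          16 * m ^ 4 * (4 * (d * 2 ^ E)) + 3 * (d * 2 ^ E) := by omega
      _ ≤ 16 * m ^ 4 * (4 * (d * 2 ^ E)) + 3 * (m ^ 4 * (d * 2 ^ E)) := Nat.add_le_add_left e6 _
      _ = 67 * (m ^ 4 * (d * 2 ^ E)) := by ring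
      _ ≤ 128 * (m ^ 4 * (d * 2 ^ E)) := Nat.mul_le_mul_right _ (by norm_num)
      _ = 2 ^ 7 * m ^ 4 * (d * 2 ^ E) := by ring
  have hmR : (2 : ℝ) ≤ m := by exact_mod_cast hm
  have hdR : (1 : ℝ) ≤ d := by exact_mod_cast hd1
  have h1 : (((d + ((m + 1) ^ 4 * (d + 2 * 2 ^ E + d) + 2) : ℕ)) : ℝ) ≤
      2 ^ 7 * (m : ℝ) ^ 4 * (d * 2 ^ E) := by exact_mod_cast key
  have h2 := Real.logb_le_logb_of_le (b := 2) (by norm_num) (by positivity) h1
  have hm0 : (m : ℝ) ≠ 0 := by positivity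
  have hd0 : (d : ℝ) ≠ 0 := by positivity
  rw [Real.logb_mul (by positivity) (by positivity), Real.logb_mul (by positivity) (by positivity),
    Real.logb_mul hd0 (by positivity), Real.logb_pow, Real.logb_pow, Real.logb_pow,
    Real.logb_self_eq_one (by norm_num), hlog] at h2
  have h3 := clog_bound (m := m) (by omega)
  rw [← hE] at h3
  have h5 : 1 ≤ Real.logb 2 m := by
    rw [Real.le_logb_iff_rpow_le (by norm_num) (by positivity)]
    simpa using hmR
  push_cast at h2 ⊢
  linarith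

/-- the price, for any kind of device -/
theorem price_device {P : Set (Vtx n × Vtx n) → (Set (Vtx n × Vtx n) → Prop) → ℕ → Prop}
    (hP : Device P) {g : Set (Vtx n × Vtx n) → Prop} {c : ℕ} (hg : P ∅ g c) (h : Computes n g)
    (hm : 2 ≤ m) : ∃ (f : Set (Vtx n × Vtx n) → Prop) (k : ℕ), P (square n p q m) f k ∧
      Computes n f ∧
      Real.logb 2 k ≤ Real.logb 2 c + (Real.logb 2 m) ^ 2 / 2 + 20 * Real.logb 2 m :=
  ⟨_, _, device_price hP (hP.mono hg (le_max_left c 1)) h, fun G hG => by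
    change Reachable (G ∩ grid n) _ _ ↔ _
    rw [Set.inter_eq_left.mpr hG], price_log hm c⟩

theorem upper_formula (hn : 2 ≤ n) : ∃ φ : Formula (Vtx n × Vtx n), φ.Avoids Set.univ ∧
    Computes n (fun G => φ.Eval G) ∧
    Real.logb 2 φ.leaves ≤ (Real.logb 2 n) ^ 2 / 2 + 20 * Real.logb 2 n := by
  have h1 := Nat.le_pow_clog (b := 2) (by norm_num) (2 * n)
  obtain ⟨φ, h2, h3, h4⟩ := fcomp_reach (n := n) (Nat.clog 2 (2 * n)) (southwest n) (northeast n)
    (by
      change n + n ≤ 0 + 0 + _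
      omega)
  refine ⟨φ, h2, fun G hG => ?_, ?_⟩
  · refine (h4 G).trans ?_
    change Reachable (G ∩ grid n) _ _ ↔ _
    rw [Set.inter_eq_left.mpr hG]
  · have h5 := clog_bound (m := n) (by omega)
    have hnR : (2 : ℝ) ≤ n := by exact_mod_cast hn
    have h6 : 1 ≤ Real.logb 2 n := by
      rw [Real.le_logb_iff_rpow_le (by norm_num) (by positivity)]
      simpa using hnR
    rcases Nat.eq_zero_or_pos φ.leaves with h0 | h0
    · rw [h0]
      simp only [CharP.cast_eq_zero, Real.logb_zero]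
      positivity
    · have h7 : (φ.leaves : ℝ) ≤ 2 ^ (Nat.clog 2 (2 * n) * (Nat.clog 2 (2 * n) + 3) / 2) := by
        exact_mod_cast h3
      have h8 := Real.logb_le_logb_of_le (b := 2) (by norm_num) (by exact_mod_cast h0) h7
      rw [Real.logb_pow, Real.logb_self_eq_one (by norm_num), mul_one] at h8
      linarith

theorem logb_nat_mono {a b : ℕ} (h : a ≤ b) : Real.logb 2 a ≤ Real.logb 2 b := by
  rcases Nat.eq_zero_or_pos a with h0 | h0
  · rw [h0]
    simp only [CharP.cast_eq_zero, Real.logb_zero]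
    rcases Nat.eq_zero_or_pos b with h1 | h1
    · rw [h1]; simp
    · exact Real.logb_nonneg (by norm_num) (by exact_mod_cast h1)
  · exact Real.logb_le_logb_of_le (by norm_num) (by exact_mod_cast h0) (by exact_mod_cast h)

theorem avoids_empty {E : Type} (φ : Formula E) : φ.Avoids ∅ := by
  induction φ with
  | var e => trivial
  | nvar e => exact fun h => h
  | top => trivial
  | bot => trivial
  | and φ ψ h1 h2 => exact ⟨h1, h2⟩
  | or φ ψ h1 h2 => exact ⟨h1, h2⟩

/-- renaming of the states of a directed network -/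
def relNet {E W W' : Type} (N : SwitchingNetwork E W) (σ : W ≃ W') : SwitchingNetwork E W' where
  source := σ N.source
  sink := σ N.sink
  wire v w := N.wire (σ.symm v) (σ.symm w)
  pos e v w := N.pos e (σ.symm v) (σ.symm w)
  neg e v w := N.neg e (σ.symm v) (σ.symm w)

theorem relNet_reaches {E W W' : Type} (N : SwitchingNetwork E W) (σ : W ≃ W') (P F : Set E) :
    Reaches (relNet N σ) P F ↔ Reaches N P F := by
  have h1 : ∀ v w, Relation.ReflTransGen (N.Closed P F) v w →
      Relation.ReflTransGen ((relNet N σ).Closed P F) (σ v) (σ w) := by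
    intro v w h
    induction h with
    | refl => exact Relation.ReflTransGen.refl
    | tail _ hbc ih =>
      refine ih.tail ?_
      unfold SwitchingNetwork.Closed at hbc
      unfold SwitchingNetwork.Closed relNet
      simpa using hbc
  have h2 : ∀ v w, Relation.ReflTransGen ((relNet N σ).Closed P F) v w →
      Relation.ReflTransGen (N.Closed P F) (σ.symm v) (σ.symm w) := by
    intro v w h
    induction h with
    | refl => exact Relation.ReflTransGen.refl
    | tail _ hbc ih => exact ih.tail hbc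
  constructor
  · intro h
    have := h2 _ _ h
    simp only [relNet, Equiv.symm_apply_apply] at this
    exact this
  · intro h
    exact h1 _ _ h

/-- the bounds with an explicit constant -/
theorem main_at {n : ℕ} (hn : 2 ≤ n) :
    (∃ N : SwitchingNetwork (Vtx n × Vtx n) (Fin ((n + 1) ^ 2)), N.Avoids Set.univ ∧
      Computes n (fun G => Reaches N G Gᶜ)) ∧
    (∃ N : SwitchingNetwork (Vtx n × Vtx n) (Fin (n ^ 2 + 2)), (∀ e v w, ¬ N.pos e v w) ∧
      Computes n (fun G => ¬ Reaches N G Gᶜ)) ∧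
    (∃ φ : Formula (Vtx n × Vtx n), φ.Avoids Set.univ ∧ Computes n (fun G => φ.Eval G) ∧
      Real.logb 2 φ.leaves ≤ (Real.logb 2 n) ^ 2 / 2 + 20 * Real.logb 2 n) ∧
    ∀ m p q : ℕ, 2 ≤ m → p + m ≤ n → q + m ≤ n →
      (∀ (W : Type) [Fintype W] (N : SwitchingNetwork (Vtx n × Vtx n) W),
        Computes n (fun G => N.Connects G Gᶜ) →
        (N.Avoids (inside n p q m) →
          (Real.logb 2 m) ^ 2 / 8 - 20 * Real.logb 2 m ≤ Real.logb 2 (Fintype.card W)) ∧
        ∃ (W' : Type) (_ : Fintype W') (N' : SwitchingNetwork (Vtx n × Vtx n) W'),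
          N'.Avoids (square n p q m) ∧ Computes n (fun G => N'.Connects G Gᶜ) ∧
          Real.logb 2 (Fintype.card W') ≤ Real.logb 2 (Fintype.card W) +
            (Real.logb 2 m) ^ 2 / 2 + 20 * Real.logb 2 m) ∧
      (∀ φ : Formula (Vtx n × Vtx n), Computes n (fun G => φ.Eval G) →
        (φ.Avoids (inside n p q m) →
          (Real.logb 2 m) ^ 2 / 8 - 20 * Real.logb 2 m ≤ Real.logb 2 φ.leaves) ∧
        ∃ φ' : Formula (Vtx n × Vtx n), φ'.Avoids (square n p q m) ∧
          Computes n (fun G => φ'.Eval G) ∧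
          Real.logb 2 φ'.leaves ≤ Real.logb 2 φ.leaves +
            (Real.logb 2 m) ^ 2 / 2 + 20 * Real.logb 2 m) ∧
      (∀ (K : Type) [Field K] (V : Type) [AddCommGroup V] [Module K V] [FiniteDimensional K V]
        (S : SpanProgram (Vtx n × Vtx n) V), Computes n (fun G => S.Accepts K G) →
        (S.Avoids (inside n p q m) →
          (Real.logb 2 m) ^ 2 / 8 - 20 * Real.logb 2 m ≤ Real.logb 2 (Module.finrank K V)) ∧
        ∃ (V' : Type) (_ : AddCommGroup V') (_ : Module K V')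
          (S' : SpanProgram (Vtx n × Vtx n) V'), FiniteDimensional K V' ∧
          S'.Avoids (square n p q m) ∧ Computes n (fun G => S'.Accepts K G) ∧
          Real.logb 2 (Module.finrank K V') ≤ Real.logb 2 (Module.finrank K V) +
            (Real.logb 2 m) ^ 2 / 2 + 20 * Real.logb 2 m) := by
  refine ⟨?_, ?_, upper_formula hn, fun m p q hm hp hq => ⟨?_, ?_, ?_⟩⟩
  · have e : Fintype.card (Vtx n) = (n + 1) ^ 2 := by
      rw [Fintype.card_prod, Fintype.card_fin, sq]
    refine ⟨relNet (posNet n) (Fintype.equivFinOfCardEq e), fun _ _ _ _ h => h, fun G _ => ?_⟩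
    exact (relNet_reaches _ _ _ _).trans (posNet_reaches G)
  · have e : Fintype.card (Face n) = n ^ 2 + 2 := by
      rw [Fintype.card_sum, Fintype.card_prod, Fintype.card_fin, Fintype.card_bool, sq]
    refine ⟨relNet (negNet n) (Fintype.equivFinOfCardEq e), fun _ _ _ h => h, fun G hG => ?_⟩
    change ¬ Reaches _ G Gᶜ ↔ _
    rw [relNet_reaches, negNet_reaches hG, not_not]
  · intro W _ N hN
    refine ⟨fun hA => ?_, ?_⟩
    · have := lower_device (by omega) hp hq (scomp_of_network ℚ N hA) hN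
      have h0 : 0 ≤ Real.logb 2 m := Real.logb_nonneg (by norm_num) (by exact_mod_cast (by omega : 1 ≤ m))
      linarith
    · obtain ⟨f, k, ⟨W', i, N', h1, h2, h3⟩, h4, h5⟩ := price_device (p := p) (q := q) device_net
        (g := fun G => N.Connects G Gᶜ) (c := Fintype.card W)
        ⟨W, inferInstance, N, le_rfl, fun _ h => h.elim, fun _ _ => Iff.rfl⟩ hN hm
      refine ⟨W', i, N', h2, fun G hG => (h3 G (Set.mem_univ _)).trans (h4 G hG), ?_⟩
      refine le_trans ?_ h5
      exact logb_nat_mono h1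
  · intro φ hφ
    refine ⟨fun hA => ?_, ?_⟩
    · have := lower_device (by omega) hp hq (scomp_of_formula ℚ φ hA) hφ
      have h0 : 0 ≤ Real.logb 2 m := Real.logb_nonneg (by norm_num) (by exact_mod_cast (by omega : 1 ≤ m))
      linarith
    · obtain ⟨f, k, ⟨ψ, h1, h2, h3⟩, h4, h5⟩ := price_device (p := p) (q := q) device_form
        (g := fun G => φ.Eval G) (c := φ.leaves)
        ⟨φ, avoids_empty φ, le_rfl, fun _ => Iff.rfl⟩ hφ hm
      exact ⟨ψ, h1, fun G hG => (h3 G).trans (h4 G hG), (logb_nat_mono h2).trans h5⟩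
  · intro K _ V _ _ _ S hS
    refine ⟨fun hA => ?_, ?_⟩
    · have := lower_device (by omega) hp hq (K := K) (D := Module.finrank K V)
        (g := fun G => S.Accepts K G)
        ⟨V, inferInstance, inferInstance, S, inferInstance, le_rfl, hA, fun _ => Iff.rfl⟩ hS
      have h0 : 0 ≤ Real.logb 2 m := Real.logb_nonneg (by norm_num) (by exact_mod_cast (by omega : 1 ≤ m))
      linarith
    · obtain ⟨f, k, ⟨V', i1, i2, S', h1, h2, h3, h4⟩, h5, h6⟩ := price_device (p := p) (q := q)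
        (device_span (K := K)) (g := fun G => S.Accepts K G) (c := Module.finrank K V)
        ⟨V, inferInstance, inferInstance, S, inferInstance, le_rfl, fun _ h => h.elim,
          fun _ => Iff.rfl⟩ hS hm
      exact ⟨V', i1, i2, S', h1, h3, fun G hG => (h4 G).trans (h5 G hG),
        (logb_nat_mono h2).trans h6⟩

theorem main : ∃ C : ℝ, 0 < C ∧ ∀ n : ℕ, 2 ≤ n →
    (∃ N : SwitchingNetwork (Vtx n × Vtx n) (Fin ((n + 1) ^ 2)), N.Avoids Set.univ ∧
      Computes n (fun G => Reaches N G Gᶜ)) ∧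
    (∃ N : SwitchingNetwork (Vtx n × Vtx n) (Fin (n ^ 2 + 2)), (∀ e v w, ¬ N.pos e v w) ∧
      Computes n (fun G => ¬ Reaches N G Gᶜ)) ∧
    (∃ φ : Formula (Vtx n × Vtx n), φ.Avoids Set.univ ∧ Computes n (fun G => φ.Eval G) ∧
      Real.logb 2 φ.leaves ≤ (Real.logb 2 n) ^ 2 / 2 + C * Real.logb 2 n) ∧
    ∀ m p q : ℕ, 2 ≤ m → p + m ≤ n → q + m ≤ n →
      (∀ (W : Type) [Fintype W] (N : SwitchingNetwork (Vtx n × Vtx n) W),
        Computes n (fun G => N.Connects G Gᶜ) →
        (N.Avoids (inside n p q m) →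
          (Real.logb 2 m) ^ 2 / 8 - C * Real.logb 2 m ≤ Real.logb 2 (Fintype.card W)) ∧
        ∃ (W' : Type) (_ : Fintype W') (N' : SwitchingNetwork (Vtx n × Vtx n) W'),
          N'.Avoids (square n p q m) ∧ Computes n (fun G => N'.Connects G Gᶜ) ∧
          Real.logb 2 (Fintype.card W') ≤ Real.logb 2 (Fintype.card W) +
            (Real.logb 2 m) ^ 2 / 2 + C * Real.logb 2 m) ∧
      (∀ φ : Formula (Vtx n × Vtx n), Computes n (fun G => φ.Eval G) →
        (φ.Avoids (inside n p q m) →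
          (Real.logb 2 m) ^ 2 / 8 - C * Real.logb 2 m ≤ Real.logb 2 φ.leaves) ∧
        ∃ φ' : Formula (Vtx n × Vtx n), φ'.Avoids (square n p q m) ∧
          Computes n (fun G => φ'.Eval G) ∧
          Real.logb 2 φ'.leaves ≤ Real.logb 2 φ.leaves +
            (Real.logb 2 m) ^ 2 / 2 + C * Real.logb 2 m) ∧
      (∀ (K : Type) [Field K] (V : Type) [AddCommGroup V] [Module K V] [FiniteDimensional K V]
        (S : SpanProgram (Vtx n × Vtx n) V), Computes n (fun G => S.Accepts K G) →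
        (S.Avoids (inside n p q m) →
          (Real.logb 2 m) ^ 2 / 8 - C * Real.logb 2 m ≤ Real.logb 2 (Module.finrank K V)) ∧
        ∃ (V' : Type) (_ : AddCommGroup V') (_ : Module K V')
          (S' : SpanProgram (Vtx n × Vtx n) V'), FiniteDimensional K V' ∧
          S'.Avoids (square n p q m) ∧ Computes n (fun G => S'.Accepts K G) ∧
          Real.logb 2 (Module.finrank K V') ≤ Real.logb 2 (Module.finrank K V) +
            (Real.logb 2 m) ^ 2 / 2 + C * Real.logb 2 m) :=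
  ⟨20, by norm_num, fun _ hn => main_at hn⟩

end Pool.Agent.Lib.Pe46137Q
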