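import Pool.Agent.Lib.Pe46137Q.Chain
import Pool.Agent.Lib.NotG.Circ
import Pool.Agent.Lib.NotG.FLoc
import Pool.Agent.Lib.NotG.Rounds
import Pool.Agent.Lib.NotG.Net

/-!
Few NOT gates do not help: lower bounds for circuits, formulas and adaptive programs for reachability
in the oriented grid.
-/

namespace Pool.Agent.Lib.Pe46137Q

open Finset
open Pool.Agent.Lib.Pe46137
open Pool.Agent.Lib.Pe46137P (SComp SpanProgram scomp_true scomp_false scomp_lit scomp_of_network)

/-- the numbers, with `l ≤ w` -/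
theorem num_lower' {m D : ℕ} (hm : 1 ≤ m)
    (h : ∀ l w, 1 ≤ l → 1 ≤ w → l ≤ w → (l + 1) * (4 * w + 4) ≤ 2 * m →
      w ^ (Nat.log 2 l + 1) ≤ (l + 1) ^ (Nat.log 2 l + 1) * D) :
    (Real.logb 2 m) ^ 2 / 8 - 3 * Real.logb 2 m ≤ Real.logb 2 D := by
  have hD0 : 0 ≤ Real.logb 2 D := by
    rcases Nat.eq_zero_or_pos D with h0 | h0
    · subst h0; simp
    · exact Real.logb_nonneg (by norm_num) (by exact_mod_cast h0)
  set M := Nat.log 2 m with hM
  set x := Real.logb 2 m with hx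
  have hm' : (0 : ℝ) < m := by exact_mod_cast hm
  have hx0 : 0 ≤ x := Real.logb_nonneg (by norm_num) (by exact_mod_cast hm)
  have hMx : (M : ℝ) ≤ x := by
    rw [hx, Real.le_logb_iff_rpow_le (by norm_num) hm', Real.rpow_natCast]
    exact_mod_cast Nat.pow_log_le_self 2 (by omega)
  have hxM : x < M + 1 := by
    rw [hx, Real.logb_lt_iff_lt_rpow (by norm_num) hm']
    have : ((M : ℝ) + 1) = ((M + 1 : ℕ) : ℝ) := by push_cast; ring
    rw [this, Real.rpow_natCast]
    exact_mod_cast Nat.lt_pow_succ_log_self (by norm_num) m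
  by_cases hsmall : M < 24
  · have h1 : x < 24 := by
      have : (M : ℝ) ≤ 23 := by exact_mod_cast (show M ≤ 23 by omega)
      linarith
    nlinarith
  · push Not at hsmall
    set k := M / 4 with hk
    have hk1 : 4 * k ≤ M := Nat.mul_div_le M 4
    have hk2 : M < 4 * k + 4 := by omega
    have hpow : 2 ^ M ≤ m := Nat.pow_log_le_self 2 (by omega)
    set w := m / (2 * (2 ^ k + 1)) - 1 with hw
    have hkp : 1 ≤ 2 ^ k := Nat.one_le_two_pow
    -- the size of `w`
    have hdiv : 2 ^ (M - k - 2) ≤ m / (2 * (2 ^ k + 1)) := by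
      rw [Nat.le_div_iff_mul_le (by positivity)]
      calc 2 ^ (M - k - 2) * (2 * (2 ^ k + 1)) ≤ 2 ^ (M - k - 2) * (2 * (2 ^ k + 2 ^ k)) := by
            gcongr
        _ = 2 ^ (M - k - 2) * 2 ^ (k + 2) := by ring
        _ = 2 ^ M := by rw [← pow_add]; congr 1; omega
        _ ≤ m := hpow
    have hw2 : 2 ^ (M - k - 3) ≤ w := by
      have h1 : 2 ^ (M - k - 2) = 2 * 2 ^ (M - k - 3) := by
        rw [← pow_succ']; congr 1; omega
      have h2 : 1 ≤ 2 ^ (M - k - 3) := Nat.one_le_two_pow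
      omega
    have hw1 : 1 ≤ w := le_trans Nat.one_le_two_pow hw2
    have hlw : 2 ^ k ≤ w := le_trans (Nat.pow_le_pow_right (by norm_num) (by omega)) hw2
    have hlm : (2 ^ k + 1) * (4 * w + 4) ≤ 2 * m := by
      have h1 : w + 1 = m / (2 * (2 ^ k + 1)) := by omega
      have h2 : 2 * (2 ^ k + 1) * (m / (2 * (2 ^ k + 1))) ≤ m := Nat.mul_div_le _ _
      calc (2 ^ k + 1) * (4 * w + 4) = 2 * (2 * (2 ^ k + 1) * (w + 1)) := by ring
        _ ≤ 2 * m := by rw [h1]; exact Nat.mul_le_mul_left _ h2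
    have key := h (2 ^ k) w hkp hw1 hlw hlm
    rw [Nat.log_pow (by norm_num)] at key
    have hDpos : 1 ≤ D := by
      by_contra hc
      have : D = 0 := by omega
      rw [this, mul_zero] at key
      have : 0 < w ^ (k + 1) := by positivity
      omega
    have h5 : 2 ^ ((M - k - 3) * (k + 1)) ≤ 2 ^ ((k + 1) * (k + 1)) * D := by
      calc 2 ^ ((M - k - 3) * (k + 1)) = (2 ^ (M - k - 3)) ^ (k + 1) := by rw [pow_mul]
        _ ≤ w ^ (k + 1) := Nat.pow_le_pow_left hw2 _
        _ ≤ (2 ^ k + 1) ^ (k + 1) * D := key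
        _ ≤ (2 ^ (k + 1)) ^ (k + 1) * D := by
            refine Nat.mul_le_mul_right _ (Nat.pow_le_pow_left ?_ _)
            have : 2 ^ (k + 1) = 2 ^ k + 2 ^ k := by ring
            omega
        _ = 2 ^ ((k + 1) * (k + 1)) * D := by rw [← pow_mul]
    have h6 : (((M - k - 3) * (k + 1) : ℕ) : ℝ) ≤ (((k + 1) * (k + 1) : ℕ) : ℝ) +
        Real.logb 2 D := by
      have h7 : ((2 : ℝ) ^ ((M - k - 3) * (k + 1))) ≤ 2 ^ ((k + 1) * (k + 1)) * D := by
        exact_mod_cast h5
      have h8 := Real.logb_le_logb_of_le (b := 2) (by norm_num) (by positivity) h7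
      rw [Real.logb_mul (by positivity) (by positivity), Real.logb_pow, Real.logb_pow,
        Real.logb_self_eq_one (by norm_num)] at h8
      simpa using h8
    have e1 : (((M - k - 3 : ℕ)) : ℝ) = (M : ℝ) - k - 3 := by
      have : k + 3 ≤ M := by omega
      rw [Nat.sub_sub, Nat.cast_sub this]
      push_cast; ring
    push_cast [e1] at h6
    have f1 : 4 * (k : ℝ) ≤ M := by exact_mod_cast hk1
    have f2 : (M : ℝ) + 1 ≤ 4 * k + 4 := by exact_mod_cast hk2
    have f3 : (24 : ℝ) ≤ M := by exact_mod_cast hsmall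
    have f4 : ((M : ℝ) + 1) / 4 * (M / 2 - 4) ≤ ((k : ℝ) + 1) * (M - 2 * k - 4) := by
      apply mul_le_mul
      · linarith
      · linarith
      · linarith
      · linarith
    have f5 : ((k : ℝ) + 1) * (M - 2 * k - 4) ≤ Real.logb 2 D := by nlinarith
    nlinarith

/-- the lower bound for locally monotone functions -/
theorem nots_loc {n : ℕ} (hn : 2 ≤ n) {W : ℕ} (hW : 1 ≤ W) (hWN : W ≤ 2 * n * (n + 1))
    (K : Type) [Field K] (F : Set (Vtx n × Vtx n) → Prop) (D : ℕ) (hc : Computes n F)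
    (hF : NotG.Loc (fun g => SComp K Set.univ g D) W F) :
    (Real.logb 2 (2 * n * (n + 1) / W)) ^ 2 / 32 - 20 * Real.logb 2 n ≤ Real.logb 2 D := by
  have hn' : (2 : ℝ) ≤ n := by exact_mod_cast hn
  have hW' : (1 : ℝ) ≤ W := by exact_mod_cast hW
  have hWN' : (W : ℝ) ≤ 2 * n * (n + 1) := by exact_mod_cast hWN
  have hD0 : 0 ≤ Real.logb 2 D := by
    rcases Nat.eq_zero_or_pos D with h0 | h0
    · subst h0; simp
    · exact Real.logb_nonneg (by norm_num) (by exact_mod_cast h0)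
  have hlogn : 1 ≤ Real.logb 2 n := by
    rw [Real.le_logb_iff_rpow_le (by norm_num) (by linarith), Real.rpow_one]
    exact hn'
  obtain ⟨a, ha⟩ : ∃ a, a = Real.logb 2 (2 * n * (n + 1) / W) := ⟨_, rfl⟩
  rw [← ha]
  have hq1 : (1 : ℝ) ≤ 2 * n * (n + 1) / W := by
    rw [le_div_iff₀ (by linarith)]
    linarith
  have ha0 : 0 ≤ a := by
    rw [ha]
    exact Real.logb_nonneg (by norm_num) hq1
  -- the number of blocks
  obtain ⟨r, hr⟩ : ∃ r, r = Nat.sqrt (6 * W) := ⟨_, rfl⟩
  have hr1 : r * r ≤ 6 * W := by rw [hr]; exact Nat.sqrt_le _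
  have hr2 : 6 * W < (r + 1) * (r + 1) := by rw [hr]; exact Nat.lt_succ_sqrt _
  obtain ⟨s, hs⟩ : ∃ s, s = r + 1 := ⟨_, rfl⟩
  have hs0 : 1 ≤ s := by omega
  have hs1 : s * s ≤ 16 * W := by
    rw [hs]
    nlinarith [sq_nonneg ((r : ℤ) - 1)]
  have hs2 : 6 * W ≤ s * s := by rw [hs]; exact hr2.le
  have hs1' : (s : ℝ) * s ≤ 16 * W := by exact_mod_cast hs1
  by_cases hcase : (n + 1) / s < 8
  · -- few blocks fit
    have h1 : n + 1 < 8 * s := by
      have := (Nat.div_lt_iff_lt_mul (show 0 < s by omega)).1 hcase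
      omega
    have h1' : (n : ℝ) + 1 ≤ 8 * s := by exact_mod_cast h1.le
    have h2 : 2 * (n : ℝ) * (n + 1) / W ≤ 2 ^ 11 := by
      rw [div_le_iff₀ (by linarith)]
      nlinarith
    have h3 : a ≤ 11 := by
      rw [ha, Real.logb_le_iff_le_rpow (by norm_num) (by linarith)]
      refine h2.trans (le_of_eq ?_)
      norm_num
    nlinarith
  · push Not at hcase
    obtain ⟨m, hm⟩ : ∃ m, m = (n + 1) / s - 3 := ⟨_, rfl⟩
    have hm5 : 5 ≤ m := by omega
    have hm3 : m + 3 = (n + 1) / s := by omega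
    have hsm : s * (m + 3) ≤ n + 1 := by rw [hm3]; exact Nat.mul_div_le _ _
    have hsm2 : n + 1 < s * (m + 4) := by
      have h := Nat.lt_mul_div_succ (n + 1) (show 0 < s by omega)
      rw [← hm3] at h
      exact h
    have hmn : m ≤ n := by nlinarith
    have key := num_lower' (m := m) (D := 2 * (W * D)) (by omega) fun l w hl hw hlw hlm =>
      nots_param hF hc hl hw hlw hlm hsm hs2 hs0
    obtain ⟨x, hx⟩ : ∃ x, x = Real.logb 2 m := ⟨_, rfl⟩
    rw [← hx] at key
    have hm5' : (5 : ℝ) ≤ m := by exact_mod_cast hm5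
    have hx0 : 0 ≤ x := by
      rw [hx]
      exact Real.logb_nonneg (by norm_num) (by linarith)
    have hxn : x ≤ Real.logb 2 n := by
      rw [hx]
      exact Real.logb_le_logb_of_le (by norm_num) (by linarith) (by exact_mod_cast hmn)
    -- the side of the blocks
    have hax : a ≤ 7 + 2 * x := by
      have h1 : (n : ℝ) + 1 ≤ 2 * m * s := by
        have h2 : (n : ℝ) + 1 ≤ s * (m + 4) := by exact_mod_cast hsm2.le
        have h3 : (1 : ℝ) ≤ s := by exact_mod_cast hs0
        nlinarith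
      have h2 : 2 * (n : ℝ) * (n + 1) / W ≤ 2 ^ 7 * (m : ℝ) ^ 2 := by
        rw [div_le_iff₀ (by linarith)]
        have h3 : ((n : ℝ) + 1) * (n + 1) ≤ (2 * m * s) * (2 * m * s) :=
          mul_le_mul h1 h1 (by linarith) (by positivity)
        have h4 : (2 * (m : ℝ) * s) * (2 * m * s) = 4 * m ^ 2 * (s * s) := by ring
        have h5 : 4 * (m : ℝ) ^ 2 * (s * s) ≤ 4 * m ^ 2 * (16 * W) :=
          mul_le_mul_of_nonneg_left hs1' (by positivity)
        nlinarith
      have h3 : Real.logb 2 (2 ^ 7 * (m : ℝ) ^ 2) = 7 + 2 * x := by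
        rw [Real.logb_mul (by positivity) (by positivity), Real.logb_pow, Real.logb_pow,
          Real.logb_self_eq_one (by norm_num), hx]
        push_cast
        ring
      rw [← h3, ha]
      exact Real.logb_le_logb_of_le (by norm_num) (by linarith) h2
    have hWlog : Real.logb 2 W ≤ 2 + 2 * Real.logb 2 n := by
      have h1 : (W : ℝ) ≤ 2 ^ 2 * (n : ℝ) ^ 2 := by nlinarith
      have h2 : Real.logb 2 (2 ^ 2 * (n : ℝ) ^ 2) = 2 + 2 * Real.logb 2 n := by
        rw [Real.logb_mul (by positivity) (by positivity), Real.logb_pow, Real.logb_pow,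
          Real.logb_self_eq_one (by norm_num)]
        push_cast
        ring
      rw [← h2]
      exact Real.logb_le_logb_of_le (by norm_num) (by linarith) h1
    have hlogD : Real.logb 2 ((2 * (W * D) : ℕ) : ℝ) ≤ 1 + Real.logb 2 W + Real.logb 2 D := by
      have hW0 : 0 ≤ Real.logb 2 W := Real.logb_nonneg (by norm_num) hW'
      rcases Nat.eq_zero_or_pos D with h0 | h0
      · subst h0
        simp
        linarith
      · have hDp : (0 : ℝ) < D := by exact_mod_cast h0
        push_cast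
        rw [Real.logb_mul (by norm_num) (by positivity), Real.logb_mul (by positivity) (by positivity),
          Real.logb_self_eq_one (by norm_num)]
        linarith
    nlinarith

/-- a larger class -/
theorem loc_imp {E : Type} {𝓜 𝓜' : (Set E → Prop) → Prop} (h : ∀ f, 𝓜 f → 𝓜' f) {W : ℕ}
    {F : Set E → Prop} (hF : NotG.Loc 𝓜 W F) : NotG.Loc 𝓜' W F := by
  obtain ⟨Φ, h1, h2, h3⟩ := hF
  refine ⟨Φ, h1, h2, fun X₀ => ?_⟩
  obtain ⟨f, ⟨l, g1, g2, g3, g4⟩, h4⟩ := h3 X₀
  exact ⟨f, ⟨l, g1, g2, fun g hg => h g (g3 g hg), g4⟩, h4⟩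

/-- monotone formulas as span programs -/
theorem scomp_of_mform {E : Type} (K : Type) [Field K] (φ : NotG.MForm E) :
    (∀ X, φ.Eval X) ∨ (∀ X, ¬ φ.Eval X) ∨
      (1 ≤ φ.leaves ∧ SComp K (Set.univ : Set E) φ.Eval φ.leaves) := by
  induction φ with
  | const b =>
    cases b
    · right; left
      intro X
      simp [NotG.MForm.Eval]
    · left
      intro X
      simp [NotG.MForm.Eval]
  | var e => exact Or.inr (Or.inr ⟨le_refl _, scomp_lit e⟩)
  | and φ ψ ih ih' =>
    simp only [NotG.MForm.leaves]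
    rcases ih with h | h | ⟨h0, h⟩
    · rcases ih' with h' | h' | ⟨h0', h'⟩
      · exact Or.inl fun X => ⟨h X, h' X⟩
      · exact Or.inr (Or.inl fun X hX => h' X hX.2)
      · exact Or.inr (Or.inr ⟨by omega, (h'.mono (by omega)).congr fun X =>
          ⟨fun hX => ⟨h X, hX⟩, fun hX => hX.2⟩⟩)
    · exact Or.inr (Or.inl fun X hX => h X hX.1)
    · rcases ih' with h' | h' | ⟨h0', h'⟩
      · exact Or.inr (Or.inr ⟨by omega, (h.mono (by omega)).congr fun X =>
          ⟨fun hX => ⟨hX, h' X⟩, fun hX => hX.1⟩⟩)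
      · exact Or.inr (Or.inl fun X hX => h' X hX.2)
      · exact Or.inr (Or.inr ⟨by omega, h.and h'⟩)
  | or φ ψ ih ih' =>
    simp only [NotG.MForm.leaves]
    rcases ih with h | h | ⟨h0, h⟩
    · exact Or.inl fun X => Or.inl (h X)
    · rcases ih' with h' | h' | ⟨h0', h'⟩
      · exact Or.inl fun X => Or.inr (h' X)
      · exact Or.inr (Or.inl fun X hX => hX.elim (h X) (h' X))
      · exact Or.inr (Or.inr ⟨by omega, (h'.mono (by omega)).congr fun X =>
          ⟨fun hX => Or.inr hX, fun hX => hX.resolve_left (h X)⟩⟩)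
    · rcases ih' with h' | h' | ⟨h0', h'⟩
      · exact Or.inl fun X => Or.inr (h' X)
      · exact Or.inr (Or.inr ⟨by omega, (h.mono (by omega)).congr fun X =>
          ⟨fun hX => Or.inl hX, fun hX => hX.resolve_right (h' X)⟩⟩)
      · exact Or.inr (Or.inr ⟨by omega, h.or h'⟩)

theorem scomp_of_byForm {E : Type} (K : Type) [Field K] {m : ℕ} (hm : 1 ≤ m)
    {f : Set E → Prop} (hf : NotG.ByForm m f) : SComp K Set.univ f m := by
  obtain ⟨φ, h1, h2⟩ := hf
  rcases scomp_of_mform K φ with h | h | ⟨_, h⟩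
  · exact ((scomp_true (K := K)).mono hm).congr fun X =>
      ⟨fun _ => (h2 X).mpr (h X), fun _ => trivial⟩
  · exact ((scomp_false (K := K)).mono hm).congr fun X =>
      ⟨fun hX => hX.elim, fun hX => h X ((h2 X).mp hX)⟩
  · exact (h.mono h1).congr fun X => (h2 X).symm

theorem scomp_of_byNet {E : Type} (K : Type) [Field K] {m : ℕ}
    {f : Set E → Prop} (hf : NotG.ByNet m f) : SComp K Set.univ f m := by
  obtain ⟨N, hN, h⟩ := hf
  refine ((scomp_of_network K N (M := Set.univ) ?_).mono (by simp)).congr fun X => (h X).symm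
  intro e _ v w hc
  exact hN e v w hc

theorem scomp_of_bySpan {E : Type} {K : Type} [Field K] {m : ℕ}
    {f : Set E → Prop} (hf : BySpan K m f) : SComp K Set.univ f m := by
  obtain ⟨V, i1, i2, S, h1, h2, h3, h4⟩ := hf
  exact ⟨V, i1, i2, S, h1, h2, h3, fun X => (h4 X).symm⟩

theorem scomp_mono_set {E : Type} {K : Type} [Field K] {m : ℕ} {f : Set E → Prop}
    (hf : SComp K Set.univ f m) {X Y : Set E} (h : X ⊆ Y) : f X → f Y := by
  obtain ⟨V, i1, i2, S, h1, h2, h3, h4⟩ := hf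
  intro hX
  rw [← h4] at hX ⊢
  refine Submodule.span_mono ?_ hX
  rintro v (hv | hv | hv)
  · exact Or.inl hv
  · simp only [Set.mem_iUnion] at hv
    obtain ⟨e, he, hv⟩ := hv
    right; left
    simp only [Set.mem_iUnion]
    exact ⟨e, h he, hv⟩
  · simp only [Set.mem_iUnion] at hv
    obtain ⟨e, he, hv⟩ := hv
    rw [h3 e (Set.mem_univ e)] at hv
    exact absurd hv (Set.notMem_empty _)

/-- few NOT gates -/
theorem nots {n : ℕ} (hn : 2 ≤ n) {W : ℕ} (hW : 1 ≤ W) (hWN : W ≤ 2 * n * (n + 1)) :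
    (∀ (ks : List ℕ) (S : ℕ) (f : Set (Vtx n × Vtx n) → Prop), (ks.map (· + 1)).prod ≤ W →
      NotG.Adaptive (NotG.ByNet S) ks f → Computes n f →
      (Real.logb 2 (2 * n * (n + 1) / W)) ^ 2 / 32 - 20 * Real.logb 2 n ≤ Real.logb 2 S) ∧
    (∀ (K : Type) [Field K] (ks : List ℕ) (S : ℕ) (f : Set (Vtx n × Vtx n) → Prop),
      (ks.map (· + 1)).prod ≤ W →
      NotG.Adaptive (BySpan K S) ks f → Computes n f →
      (Real.logb 2 (2 * n * (n + 1) / W)) ^ 2 / 32 - 20 * Real.logb 2 n ≤ Real.logb 2 S) ∧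
    (∀ c : List (NotG.Gate (Vtx n × Vtx n)), NotG.negCost c ≤ W →
      Computes n (fun G => NotG.Computes c G) →
      (Real.logb 2 (2 * n * (n + 1) / W)) ^ 2 / 32 - 20 * Real.logb 2 n ≤ NotG.depth c) ∧
    (∀ φ : NotG.NFormula (Vtx n × Vtx n), 5 * φ.nots < W →
      Computes n (fun G => φ.Eval G) →
      (Real.logb 2 (2 * n * (n + 1) / W)) ^ 2 / 32 - 20 * Real.logb 2 n ≤
        Real.logb 2 φ.leaves) := by
  refine ⟨?_, ?_, ?_, ?_⟩
  · intro ks S f hks hf hcomp
    exact nots_loc hn hW hWN ℚ _ S hcomp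
      ((NotG.rounds_loc (fun g hg X Y hXY => NotG.byNet_mono hg hXY) hf).mono hks |>
        loc_imp (fun g hg => scomp_of_byNet ℚ hg))
  · intro K _ ks S f hks hf hcomp
    exact nots_loc hn hW hWN K _ S hcomp
      ((NotG.rounds_loc (fun g hg X Y hXY => scomp_mono_set (scomp_of_bySpan hg) hXY) hf).mono hks |>
        loc_imp (fun g hg => scomp_of_bySpan hg))
  · intro c hc hcomp
    have h1 := nots_loc hn hW hWN ℚ _ (2 ^ NotG.depth c) hcomp
      (loc_imp (fun f hf => scomp_of_byForm ℚ Nat.one_le_two_pow hf) ((NotG.circ_loc c).mono hc))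
    refine h1.trans (le_of_eq ?_)
    push_cast
    rw [Real.logb_pow, Real.logb_self_eq_one (by norm_num), mul_one]
  · intro φ hφ hcomp
    have h1 := nots_loc hn hW hWN ℚ _ (max φ.leaves 1) hcomp
      (loc_imp (fun f hf => scomp_of_byForm ℚ (le_max_right _ _)
        (NotG.FLocAux.ByForm.mono' (le_max_left _ _) hf)) ((NotG.formula_loc φ).mono (by omega)))
    refine h1.trans (le_of_eq ?_)
    rcases Nat.eq_zero_or_pos φ.leaves with h0 | h0
    · rw [h0]; simp
    · rw [Nat.max_eq_left h0]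

theorem prod_pos (ks : List ℕ) : 1 ≤ (ks.map (· + 1)).prod := by
  induction ks with
  | nil => simp
  | cons k ks ih =>
    rw [List.map_cons, List.prod_cons]
    exact Nat.mul_pos (Nat.succ_pos _) ih

/-- polynomial size -/
theorem nots_poly (c : ℕ) : ∃ C : ℝ, ∀ n : ℕ, 2 ≤ n → ∀ (ks : List ℕ)
    (f : Set (Vtx n × Vtx n) → Prop), NotG.Adaptive (NotG.ByNet (n ^ c)) ks f → Computes n f →
    Real.logb 2 (2 * n * (n + 1)) - C * Real.sqrt (Real.logb 2 (2 * n * (n + 1))) ≤
      Real.logb 2 ((ks.map (· + 1)).prod : ℕ) := by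
  refine ⟨Real.sqrt (32 * (20 + c)), ?_⟩
  intro n hn ks f hf hcomp
  have hn' : (2 : ℝ) ≤ n := by exact_mod_cast hn
  obtain ⟨W, hW⟩ : ∃ W, W = (ks.map (· + 1)).prod := ⟨_, rfl⟩
  have hW1 : 1 ≤ W := by rw [hW]; exact prod_pos ks
  have hW1' : (1 : ℝ) ≤ W := by exact_mod_cast hW1
  rw [← hW]
  obtain ⟨y, hy⟩ : ∃ y, y = Real.logb 2 (2 * (n : ℝ) * (n + 1)) := ⟨_, rfl⟩
  rw [← hy]
  have hlogn : 0 ≤ Real.logb 2 n := Real.logb_nonneg (by norm_num) (by linarith)
  have hny : Real.logb 2 n ≤ y := by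
    rw [hy]
    exact Real.logb_le_logb_of_le (by norm_num) (by linarith) (by nlinarith)
  have hs0 : 0 ≤ Real.sqrt (32 * (20 + c)) * Real.sqrt y := by positivity
  by_cases hWN : W ≤ 2 * n * (n + 1)
  · have hWN' : (W : ℝ) ≤ 2 * n * (n + 1) := by exact_mod_cast hWN
    have h1 := (nots hn hW1 hWN).1 ks (n ^ c) f (by rw [← hW]) hf hcomp
    rw [Real.logb_div (by positivity) (by positivity), ← hy] at h1
    push_cast at h1
    rw [Real.logb_pow] at h1
    have h2 : (y - Real.logb 2 W) ^ 2 ≤ 32 * (20 + c) * y := by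
      have hc0 : (0 : ℝ) ≤ c := Nat.cast_nonneg _
      nlinarith
    have h3 : y - Real.logb 2 W ≤ Real.sqrt (32 * (20 + c) * y) :=
      Real.le_sqrt_of_sq_le h2
    rw [Real.sqrt_mul (by positivity)] at h3
    linarith
  · push Not at hWN
    have h1 : y ≤ Real.logb 2 W := by
      rw [hy]
      refine Real.logb_le_logb_of_le (by norm_num) (by positivity) ?_
      exact_mod_cast hWN.le
    linarith

end Pool.Agent.Lib.Pe46137Q
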