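import Pool.Agent.Lib.Pe46137Q.Poly
import Pool.Agent.Lib.Pe46137Q.Nots

/-!
All bounds with one constant.
-/

namespace Pool.Agent.Lib.Pe46137Q

open Finset
open Pool.Agent.Lib.Pe46137
open Pool.Agent.Lib.Pe46137P

theorem main2 : ∃ C : ℝ, 0 < C ∧ ∀ n : ℕ, 2 ≤ n →
    (∃ N : SwitchingNetwork (Vtx n × Vtx n) (Fin ((n + 1) ^ 2)), N.Avoids Set.univ ∧
      Computes n (fun G => Reaches N G Gᶜ)) ∧
    (∃ N : SwitchingNetwork (Vtx n × Vtx n) (Fin (n ^ 2 + 2)), (∀ e v w, ¬ N.pos e v w) ∧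
      Computes n (fun G => ¬ Reaches N G Gᶜ)) ∧
    (∀ W : ℕ, 1 ≤ W → W ≤ 2 * n * (n + 1) →
      (∀ (ks : List ℕ) (S : ℕ) (f : Set (Vtx n × Vtx n) → Prop), (ks.map (· + 1)).prod ≤ W →
        NotG.Adaptive (NotG.ByNet S) ks f → Computes n f →
        (Real.logb 2 (2 * n * (n + 1) / W)) ^ 2 / 32 - C * Real.logb 2 n ≤ Real.logb 2 S) ∧
      (∀ (K : Type) [Field K] (ks : List ℕ) (S : ℕ) (f : Set (Vtx n × Vtx n) → Prop),
        (ks.map (· + 1)).prod ≤ W → NotG.Adaptive (BySpan K S) ks f → Computes n f →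
        (Real.logb 2 (2 * n * (n + 1) / W)) ^ 2 / 32 - C * Real.logb 2 n ≤ Real.logb 2 S) ∧
      (∀ c : List (NotG.Gate (Vtx n × Vtx n)), NotG.negCost c ≤ W →
        Computes n (fun G => NotG.Computes c G) →
        (Real.logb 2 (2 * n * (n + 1) / W)) ^ 2 / 32 - C * Real.logb 2 n ≤ NotG.depth c) ∧
      (∀ φ : NotG.NFormula (Vtx n × Vtx n), 5 * φ.nots < W →
        Computes n (fun G => φ.Eval G) →
        (Real.logb 2 (2 * n * (n + 1) / W)) ^ 2 / 32 - C * Real.logb 2 n ≤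
          Real.logb 2 φ.leaves)) ∧
    (∀ m p q : ℕ, 2 ≤ m → p + m ≤ n → q + m ≤ n →
      ∀ (W : Type) [Fintype W] (N : SwitchingNetwork (Vtx n × Vtx n) W),
        Computes n (fun G => N.Connects G Gᶜ) →
        (N.Avoids (inside n p q m) →
          (Real.logb 2 m) ^ 2 / 8 - C * Real.logb 2 m ≤ Real.logb 2 (Fintype.card W)) ∧
        ∃ (W' : Type) (_ : Fintype W') (N' : SwitchingNetwork (Vtx n × Vtx n) W'),
          N'.Avoids (square n p q m) ∧ Computes n (fun G => N'.Connects G Gᶜ) ∧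
          Real.logb 2 (Fintype.card W') ≤ Real.logb 2 (Fintype.card W) +
            (Real.logb 2 m) ^ 2 / 2 + C * Real.logb 2 m) := by
  refine ⟨20, by norm_num, fun n hn => ?_⟩
  obtain ⟨h1, h2, _, h4⟩ := main_at hn
  exact ⟨h1, h2, fun W hW hWN => nots hn hW hWN, fun m p q hm hp hq => (h4 m p q hm hp hq).1⟩

end Pool.Agent.Lib.Pe46137Q
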