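import Pool.Agent.Lib.Pe46137Q.Inst

/-!
The inputs as subgraphs of the oriented grid.
-/

namespace Pool.Agent.Lib.Pe46137Q

open Pool.Agent.Lib.Pe46137
open Pool.Agent.Lib.Pe46137P (Crosses)

/-- the vertex with coordinates `i, j` (cut off at `n`) -/
def vtx (n i j : ℕ) : Vtx n := (⟨min i n, by omega⟩, ⟨min j n, by omega⟩)

theorem vtx_fst {n i j : ℕ} (hi : i ≤ n) : ((vtx n i j).1 : ℕ) = i := by simp [vtx, hi]

theorem vtx_snd {n i j : ℕ} (hj : j ≤ n) : ((vtx n i j).2 : ℕ) = j := by simp [vtx, hj]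

theorem vtx_ext {n : ℕ} {a b : Vtx n} (h1 : (a.1 : ℕ) = b.1) (h2 : (a.2 : ℕ) = b.2) : a = b :=
  Prod.ext (Fin.ext h1) (Fin.ext h2)

theorem reach_seq {V : Type*} {G : Set (V × V)} (z : ℕ → V) : ∀ L : ℕ,
    (∀ u < L, (z u, z (u + 1)) ∈ G) → Reachable G (z 0) (z L) := by
  intro L
  induction L with
  | zero => intro _; exact Relation.ReflTransGen.refl
  | succ L ih =>
    intro h
    exact Relation.ReflTransGen.tail (ih fun u hu => h u (by omega)) (h L (by omega))

variable {n p q m l w : ℕ}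

/-- the arcs of the fixed path outside the square -/
def outer (n p q m : ℕ) : Set (Vtx n × Vtx n) :=
  {e | e ∈ grid n ∧ (((e.1.2 : ℕ) = 0 ∧ (e.2.2 : ℕ) = 0 ∧ (e.2.1 : ℕ) ≤ p) ∨
    ((e.1.1 : ℕ) = p ∧ (e.2.1 : ℕ) = p ∧ (e.2.2 : ℕ) ≤ q) ∨
    ((e.1.2 : ℕ) = q + m ∧ (e.2.2 : ℕ) = q + m ∧ p + m ≤ (e.1.1 : ℕ)) ∨
    ((e.1.1 : ℕ) = n ∧ (e.2.1 : ℕ) = n ∧ q + m ≤ (e.1.2 : ℕ)))}

/-- the vertex of the accepted path at time `u` -/
def pt (n p q : ℕ) (f : Fin l → Fin w) (u : ℕ) : Vtx n :=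
  vtx n (p + (((u : ℤ) + cv w (lev f) u) / 2).toNat) (q + (((u : ℤ) - cv w (lev f) u) / 2).toNat)

/-- the accepted input -/
def inG (n p q m : ℕ) (f : Fin l → Fin w) : Set (Vtx n × Vtx n) :=
  outer n p q m ∪ {e | ∃ u < 2 * m, e = (pt n p q f u, pt n p q f (u + 1))}

/-- the source side in the square -/
def Below (p q : ℕ) (θ : Fin l → Fin (w + 1)) (a : Vtx n) : Prop :=
  ((a.1 : ℤ) - p) - ((a.2 : ℤ) - q) ≤ cv w (clev θ) (((a.1 : ℕ) - p) + ((a.2 : ℕ) - q))

/-- the rejected input -/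
def inH (n p q m : ℕ) (θ : Fin l → Fin (w + 1)) : Set (Vtx n × Vtx n) :=
  outer n p q m ∪ {e | e ∈ grid n ∧ e ∈ square n p q m ∧ ¬ (Below p q θ e.1 ∧ ¬ Below p q θ e.2)}

theorem square_iff {e : Vtx n × Vtx n} : e ∈ square n p q m ↔
    (p ≤ (e.1.1 : ℕ) ∧ (e.1.1 : ℕ) ≤ p + m ∧ q ≤ (e.1.2 : ℕ) ∧ (e.1.2 : ℕ) ≤ q + m) ∧
    (p ≤ (e.2.1 : ℕ) ∧ (e.2.1 : ℕ) ≤ p + m ∧ q ≤ (e.2.2 : ℕ) ∧ (e.2.2 : ℕ) ≤ q + m) := by
  unfold square
  constructor
  · intro h
    exact ⟨h _ (Or.inl rfl), h _ (Or.inr rfl)⟩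
  · rintro ⟨h1, h2⟩ a (rfl | rfl)
    · exact h1
    · exact h2

section path

variable (hw : 1 ≤ w) (hm : (l + 1) * (4 * w + 4) ≤ 2 * m) (hp : p + m ≤ n) (hq : q + m ≤ n)
  (f : Fin l → Fin w)

include hw hm hp hq

theorem pt_fst {u : ℕ} (hu : u ≤ 2 * m) :
    ((((pt n p q f u).1 : ℕ) : ℤ) - p) * 2 = u + cv w (lev f) u := by
  have h1 := cv_nonneg f u
  have h2 := cv_le_rest hm f hu
  have h3 := cv_parity w (lev f) u
  have h4 : p + (((u : ℤ) + cv w (lev f) u) / 2).toNat ≤ n := by omega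
  unfold pt
  rw [vtx_fst h4]
  push_cast
  omega

theorem pt_snd {u : ℕ} (hu : u ≤ 2 * m) :
    ((((pt n p q f u).2 : ℕ) : ℤ) - q) * 2 = u - cv w (lev f) u := by
  have h1 := cv_nonneg f u
  have h2 := cv_le_time hw f u
  have h3 := cv_parity w (lev f) u
  have h4 : q + (((u : ℤ) - cv w (lev f) u) / 2).toNat ≤ n := by omega
  unfold pt
  rw [vtx_snd h4]
  push_cast
  omega

theorem pt_square {u : ℕ} (hu : u ≤ 2 * m) : p ≤ ((pt n p q f u).1 : ℕ) ∧
    ((pt n p q f u).1 : ℕ) ≤ p + m ∧ q ≤ ((pt n p q f u).2 : ℕ) ∧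
    ((pt n p q f u).2 : ℕ) ≤ q + m := by
  have h1 := pt_fst hw hm hp hq f hu
  have h2 := pt_snd hw hm hp hq f hu
  have h3 := cv_nonneg f u
  have h4 := cv_le_rest hm f hu
  have h5 := cv_le_time hw f u
  omega

theorem pt_grid {u : ℕ} (hu : u < 2 * m) :
    (pt n p q f u, pt n p q f (u + 1)) ∈ grid n := by
  have h1 := pt_fst hw hm hp hq f (show u ≤ 2 * m by omega)
  have h2 := pt_snd hw hm hp hq f (show u ≤ 2 * m by omega)
  have h3 := pt_fst hw hm hp hq f (show u + 1 ≤ 2 * m by omega)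
  have h4 := pt_snd hw hm hp hq f (show u + 1 ≤ 2 * m by omega)
  have h5 := cv_step (lev_bounds' f) u
  push_cast at h3 h4
  simp only [grid, Set.mem_ofPred_eq]
  rcases h5 with h5 | h5 <;> rw [h5] at h3 h4
  · left; omega
  · right; omega

theorem inG_grid : inG n p q m f ⊆ grid n := by
  rintro e (he | ⟨u, hu, rfl⟩)
  · exact he.1
  · exact pt_grid hw hm hp hq f hu

theorem inG_reach : Reachable (inG n p q m f) (southwest n) (northeast n) := by
  have hm0 : 1 ≤ m := by nlinarith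
  -- four pieces of the fixed path and the path in the square
  have r1 : Reachable (inG n p q m f) (vtx n 0 0) (vtx n p 0) := by
    refine reach_seq (fun u => vtx n u 0) p (fun u hu => Or.inl ⟨?_, Or.inl ?_⟩)
    · left
      simp only
      rw [vtx_fst (show u + 1 ≤ n by omega), vtx_fst (show u ≤ n by omega),
        vtx_snd (Nat.zero_le _), vtx_snd (Nat.zero_le _)]
      exact ⟨rfl, rfl⟩
    · simp only
      rw [vtx_fst (show u + 1 ≤ n by omega), vtx_snd (Nat.zero_le _), vtx_snd (Nat.zero_le _)]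
      omega
  have r2 : Reachable (inG n p q m f) (vtx n p 0) (vtx n p q) := by
    refine reach_seq (fun u => vtx n p u) q (fun u hu => Or.inl ⟨?_, Or.inr (Or.inl ?_)⟩)
    · right
      simp only
      rw [vtx_fst (show p ≤ n by omega), vtx_fst (show p ≤ n by omega),
        vtx_snd (show u + 1 ≤ n by omega), vtx_snd (show u ≤ n by omega)]
      exact ⟨rfl, rfl⟩
    · simp only
      rw [vtx_fst (show p ≤ n by omega), vtx_fst (show p ≤ n by omega),
        vtx_snd (show u + 1 ≤ n by omega)]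
      omega
  have r3 : Reachable (inG n p q m f) (pt n p q f 0) (pt n p q f (2 * m)) :=
    reach_seq (fun u => pt n p q f u) (2 * m) (fun u hu => Or.inr ⟨u, hu, rfl⟩)
  have r4 : Reachable (inG n p q m f) (vtx n (p + m) (q + m)) (vtx n n (q + m)) := by
    have h := reach_seq (G := inG n p q m f) (fun u => vtx n (p + m + u) (q + m)) (n - (p + m))
      (fun u hu => Or.inl ⟨?_, Or.inr (Or.inr (Or.inl ?_))⟩)
    · have e : p + m + (n - (p + m)) = n := by omega
      simp only [e, Nat.add_zero] at h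
      exact h
    · left
      simp only
      rw [vtx_fst (show p + m + (u + 1) ≤ n by omega), vtx_fst (show p + m + u ≤ n by omega),
        vtx_snd (show q + m ≤ n by omega), vtx_snd (show q + m ≤ n by omega)]
      exact ⟨rfl, rfl⟩
    · simp only
      rw [vtx_fst (show p + m + u ≤ n by omega), vtx_snd (show q + m ≤ n by omega),
        vtx_snd (show q + m ≤ n by omega)]
      omega
  have r5 : Reachable (inG n p q m f) (vtx n n (q + m)) (vtx n n n) := by
    have h := reach_seq (G := inG n p q m f) (fun u => vtx n n (q + m + u)) (n - (q + m))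
      (fun u hu => Or.inl ⟨?_, Or.inr (Or.inr (Or.inr ?_))⟩)
    · have e : q + m + (n - (q + m)) = n := by omega
      simp only [e, Nat.add_zero] at h
      exact h
    · right
      simp only
      rw [vtx_fst (show n ≤ n from le_rfl), vtx_fst (show n ≤ n from le_rfl),
        vtx_snd (show q + m + (u + 1) ≤ n by omega), vtx_snd (show q + m + u ≤ n by omega)]
      exact ⟨rfl, rfl⟩
    · simp only
      rw [vtx_fst (show n ≤ n from le_rfl), vtx_fst (show n ≤ n from le_rfl),
        vtx_snd (show q + m + u ≤ n by omega)]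
      omega
  have e0 : southwest n = vtx n 0 0 := by
    refine vtx_ext ?_ ?_
    · rw [vtx_fst (Nat.zero_le _)]; rfl
    · rw [vtx_snd (Nat.zero_le _)]; rfl
  have e1 : northeast n = vtx n n n := by
    refine vtx_ext ?_ ?_
    · rw [vtx_fst le_rfl]; rfl
    · rw [vtx_snd le_rfl]; rfl
  have e2 : pt n p q f 0 = vtx n p q := by
    have h1 := pt_fst hw hm hp hq f (show 0 ≤ 2 * m by omega)
    have h2 := pt_snd hw hm hp hq f (show 0 ≤ 2 * m by omega)
    rw [cv_start] at h1 h2
    refine vtx_ext ?_ ?_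
    · rw [vtx_fst (show p ≤ n by omega)]; push_cast at h1; omega
    · rw [vtx_snd (show q ≤ n by omega)]; push_cast at h2; omega
  have e3 : pt n p q f (2 * m) = vtx n (p + m) (q + m) := by
    have h1 := pt_fst hw hm hp hq f (le_refl (2 * m))
    have h2 := pt_snd hw hm hp hq f (le_refl (2 * m))
    have h3 := cv_nonneg f (2 * m)
    have h4 := cv_le_rest hm f (le_refl (2 * m))
    push_cast at h1 h2 h4
    refine vtx_ext ?_ ?_
    · rw [vtx_fst (show p + m ≤ n by omega)]; omega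
    · rw [vtx_snd (show q + m ≤ n by omega)]; omega
  rw [e0, e1]
  rw [e2, e3] at r3
  exact (((r1.trans r2).trans r3).trans r4).trans r5

end path

theorem inH_grid (θ : Fin l → Fin (w + 1)) : inH n p q m θ ⊆ grid n := by
  rintro e (he | he)
  · exact he.1
  · exact he.1

theorem inH_not_reach (hw : 1 ≤ w) (hm : (l + 1) * (4 * w + 4) ≤ 2 * m) (hp : p + m ≤ n)
    (hq : q + m ≤ n) (θ : Fin l → Fin (w + 1)) :
    ¬ Reachable (inH n p q m θ) (southwest n) (northeast n) := by
  have hm0 : 1 ≤ m := by nlinarith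
  intro h
  set C : Vtx n → Prop := fun a => ((a.2 : ℕ) = 0 ∧ (a.1 : ℕ) ≤ p) ∨
    ((a.1 : ℕ) = p ∧ (a.2 : ℕ) ≤ q) ∨
    ((p ≤ (a.1 : ℕ) ∧ (a.1 : ℕ) ≤ p + m ∧ q ≤ (a.2 : ℕ) ∧ (a.2 : ℕ) ≤ q + m) ∧
      Below p q θ a) with hC
  have hcorner : ∀ a : Vtx n, (a.1 : ℕ) = p → (a.2 : ℕ) = q → Below p q θ a := by
    intro a h1 h2
    unfold Below
    rw [h1, h2]
    simp only [Nat.sub_self, Nat.add_zero, sub_self]
    rw [cut_start]
    positivity
  have hcorner' : ∀ a : Vtx n, (a.1 : ℕ) = p + m → (a.2 : ℕ) = q + m → ¬ Below p q θ a := by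
    intro a h1 h2
    unfold Below
    rw [h1, h2]
    have e : p + m - p + (q + m - q) = 2 * m := by omega
    rw [e]
    have := cut_end hm θ
    push_cast
    intro h
    have h3 : (p : ℤ) + m - p - (q + m - q) = 0 := by ring
    rw [h3] at h
    omega
  have key : ∀ a b, C a → (a, b) ∈ inH n p q m θ → C b := by
    intro a b ha hab
    rcases hab with ⟨hg, hab⟩ | ⟨hg, hs, hab⟩
    · simp only [grid, Set.mem_ofPred_eq] at hg
      simp only at hab
      rcases hab with h1 | h1 | h1 | h1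
      · left; omega
      · right; left; omega
      · exfalso
        rcases ha with h2 | h2 | ⟨h2, h3⟩
        · omega
        · omega
        · exact hcorner' a (by omega) (by omega) h3
      · exfalso
        rcases ha with h2 | h2 | ⟨h2, h3⟩
        · omega
        · omega
        · exact hcorner' a (by omega) (by omega) h3
    · rw [square_iff] at hs
      simp only at hs hab
      right; right
      refine ⟨hs.2, ?_⟩
      by_contra hc
      refine hab ⟨?_, hc⟩
      rcases ha with h2 | h2 | ⟨_, h3⟩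
      · exact hcorner a (by omega) (by omega)
      · exact hcorner a (by omega) (by omega)
      · exact h3
  have h0 : C (southwest n) := by
    left
    exact ⟨rfl, Nat.zero_le _⟩
  have h1 : C (northeast n) := by
    have : ∀ b, Reachable (inH n p q m θ) (southwest n) b → C b := by
      intro b hb
      induction hb with
      | refl => exact h0
      | tail _ hbc ih => exact key _ _ ih hbc
    exact this _ h
  have e1 : ((northeast n).1 : ℕ) = n := rfl
  have e2 : ((northeast n).2 : ℕ) = n := rfl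
  rcases h1 with h1 | h1 | ⟨h1, h2⟩
  · rw [e1, e2] at h1; omega
  · rw [e1, e2] at h1; omega
  · rw [e1, e2] at h1
    exact hcorner' _ (by rw [e1]; omega) (by rw [e2]; omega) h2

/-- an arc of the accepted path that is missing in the rejected input lies in a crossed gap -/
theorem scheme_pos (hw : 1 ≤ w) (hm : (l + 1) * (4 * w + 4) ≤ 2 * m) (hp : p + m ≤ n)
    (hq : q + m ≤ n) (f : Fin l → Fin w) : ∀ e ∈ inG n p q m f, ∃ i ≤ l, ∀ θ,
      e ∉ inH n p q m θ → Crosses i (low f θ) := by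
  rintro e (he | ⟨u, hu, rfl⟩)
  · exact ⟨0, Nat.zero_le _, fun θ h => absurd (Or.inl he) h⟩
  · have key : ∀ θ : Fin l → Fin (w + 1), (pt n p q f u, pt n p q f (u + 1)) ∉ inH n p q m θ →
        u / (4 * w + 4) ≤ l ∧ Crosses (u / (4 * w + 4)) (low f θ) := by
      intro θ h
      have h1 : Below p q θ (pt n p q f u) ∧ ¬ Below p q θ (pt n p q f (u + 1)) := by
        by_contra hc
        refine h (Or.inr ⟨pt_grid hw hm hp hq f hu, ?_, hc⟩)
        rw [square_iff]
        exact ⟨pt_square hw hm hp hq f (by omega), pt_square hw hm hp hq f (by omega)⟩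
      have a1 := pt_fst hw hm hp hq f (show u ≤ 2 * m by omega)
      have a2 := pt_snd hw hm hp hq f (show u ≤ 2 * m by omega)
      have a3 := pt_fst hw hm hp hq f (show u + 1 ≤ 2 * m by omega)
      have a4 := pt_snd hw hm hp hq f (show u + 1 ≤ 2 * m by omega)
      have a5 := pt_square hw hm hp hq f (show u ≤ 2 * m by omega)
      have a6 := pt_square hw hm hp hq f (show u + 1 ≤ 2 * m by omega)
      have b1 : ((pt n p q f u).1 : ℕ) - p + (((pt n p q f u).2 : ℕ) - q) = u := by omega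
      have b2 : ((pt n p q f (u + 1)).1 : ℕ) - p + (((pt n p q f (u + 1)).2 : ℕ) - q) = u + 1 := by
        push_cast at a3 a4
        omega
      unfold Below at h1
      rw [b1, b2] at h1
      have c1 : cv w (lev f) u ≤ cv w (clev θ) u := by omega
      have c2 : cv w (clev θ) (u + 1) < cv w (lev f) (u + 1) := by
        push_cast at a3 a4
        omega
      have h3 := cv_cross (lev_bounds' f) (clev_bounds θ) c1 c2
      exact crosses_of_levels h3.1 h3.2
    by_cases hi : u / (4 * w + 4) ≤ l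
    · exact ⟨_, hi, fun θ h => (key θ h).2⟩
    · exact ⟨0, Nat.zero_le _, fun θ h => absurd (key θ h).1 hi⟩

theorem scheme_neg (f : Fin l → Fin w) (θ : Fin l → Fin (w + 1)) : ∀ e ∉ square n p q m,
    e ∉ inG n p q m f → e ∉ inH n p q m θ := by
  rintro e he1 he2 (he | he)
  · exact he2 (Or.inl he)
  · exact he1 he.2.1

end Pool.Agent.Lib.Pe46137Q
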