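import Pool.Agent.Lib.Pe46137Q.Curve
import Pool.Agent.Lib.Pe46137Q.CoreT
import Pool.Agent.Lib.Pe46137Q.Defs

/-!
The accepted and rejected inputs in a subsquare of the oriented grid.
-/

namespace Pool.Agent.Lib.Pe46137Q

open Pool.Agent.Lib.Pe46137
open Pool.Agent.Lib.Pe46137P (Crosses)

/-- the curve through the levels `A` -/
def cv (w : ℕ) (A : ℕ → ℤ) (u : ℕ) : ℤ :=
  vv w (A (u / (4 * w + 4))) (A (u / (4 * w + 4) + 1)) ((u % (4 * w + 4) : ℕ) : ℤ)

theorem cv_succ {w : ℕ} {A : ℕ → ℤ} (hA : ∀ j, -1 ≤ A j ∧ A j ≤ w) (u : ℕ) :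
    cv w A (u + 1) = vv w (A (u / (4 * w + 4))) (A (u / (4 * w + 4) + 1))
      (((u % (4 * w + 4) : ℕ) : ℤ) + 1) := by
  set K := 4 * w + 4 with hK
  have hKpos : 0 < K := by omega
  have h1 := Nat.div_add_mod u K
  have h2 := Nat.mod_lt u hKpos
  unfold cv
  rw [← hK]
  by_cases h : u % K + 1 < K
  · have h3 : (u + 1) / K = u / K := by
      rw [Nat.div_eq_of_lt_le]
      · calc u / K * K = K * (u / K) := mul_comm _ _
          _ ≤ u + 1 := by omega
      · calc u + 1 < K * (u / K) + K := by omega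
          _ = (u / K + 1) * K := by ring
    have h4 : (u + 1) % K = u % K + 1 := by
      have h5 := Nat.div_add_mod (u + 1) K
      rw [h3] at h5
      omega
    rw [h3, h4]
    push_cast
    rfl
  · have h3 : (u + 1) / K = u / K + 1 := by
      rw [Nat.div_eq_of_lt_le]
      · calc (u / K + 1) * K = K * (u / K) + K := by ring
          _ ≤ u + 1 := by omega
      · calc u + 1 < K * (u / K) + K + K := by omega
          _ = (u / K + 1 + 1) * K := by ring
    have h4 : (u + 1) % K = 0 := by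
      have h5 := Nat.div_add_mod (u + 1) K
      rw [h3] at h5
      have h6 : K * (u / K + 1) = K * (u / K) + K := by ring
      omega
    have h5 : ((u % K : ℕ) : ℤ) + 1 = 4 * (w : ℤ) + 4 := by
      have : u % K + 1 = 4 * w + 4 := by omega
      exact_mod_cast this
    rw [h3, h4, h5, vv_end (hA _).1 (hA _).2 (hA _).1 (hA _).2]
    push_cast
    exact vv_start (hA _).1 (hA _).2

theorem cv_step {w : ℕ} {A : ℕ → ℤ} (hA : ∀ j, -1 ≤ A j ∧ A j ≤ w) (u : ℕ) :
    cv w A (u + 1) = cv w A u + 1 ∨ cv w A (u + 1) = cv w A u - 1 := by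
  rw [cv_succ hA]
  exact vv_step

theorem cv_parity (w : ℕ) (A : ℕ → ℤ) (u : ℕ) : (cv w A u - u) % 2 = 0 := by
  have h1 := vv_parity (w := w) (a := A (u / (4 * w + 4))) (b := A (u / (4 * w + 4) + 1))
    (τ := ((u % (4 * w + 4) : ℕ) : ℤ))
  have h2 : (u : ℤ) % 2 = ((u % (4 * w + 4) : ℕ) : ℤ) % 2 := by
    have : u % 2 = (u % (4 * w + 4)) % 2 := by
      rw [Nat.mod_mod_of_dvd]
      exact ⟨2 * w + 2, by ring⟩
    exact_mod_cast this
  unfold cv
  omega

/-- the curves cross upwards only in a gap in which the levels cross upwards -/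
theorem cv_cross {w : ℕ} {A B : ℕ → ℤ} (hA : ∀ j, -1 ≤ A j ∧ A j ≤ w)
    (hB : ∀ j, -1 ≤ B j ∧ B j ≤ w) {u : ℕ} (h1 : cv w A u ≤ cv w B u)
    (h2 : cv w B (u + 1) < cv w A (u + 1)) :
    A (u / (4 * w + 4)) ≤ B (u / (4 * w + 4)) ∧
      B (u / (4 * w + 4) + 1) < A (u / (4 * w + 4) + 1) := by
  rw [cv_succ hA, cv_succ hB] at h2
  unfold cv at h1
  exact vv_cross (by positivity) (hA _).2 h1 h2

variable {l w : ℕ}

/-- the levels of an accepted input -/
def lev (f : Fin l → Fin w) (j : ℕ) : ℤ :=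
  if j = 0 then 0 else if h : j - 1 < l then ((f ⟨j - 1, h⟩ : ℕ) : ℤ) + 1 else 0

/-- the levels of a rejected input -/
def clev (θ : Fin l → Fin (w + 1)) (j : ℕ) : ℤ :=
  if j = 0 then (w : ℤ) else if h : j - 1 < l then ((θ ⟨j - 1, h⟩ : ℕ) : ℤ) else -1

theorem lev_bounds (f : Fin l → Fin w) (j : ℕ) : 0 ≤ lev f j ∧ lev f j ≤ w := by
  unfold lev
  split_ifs with h1 h2
  · omega
  · have := (f ⟨j - 1, h2⟩).2
    omega
  · omega

theorem lev_bounds' (f : Fin l → Fin w) (j : ℕ) : -1 ≤ lev f j ∧ lev f j ≤ w := by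
  have := lev_bounds f j
  omega

theorem clev_bounds (θ : Fin l → Fin (w + 1)) (j : ℕ) : -1 ≤ clev θ j ∧ clev θ j ≤ w := by
  unfold clev
  split_ifs with h1 h2
  · omega
  · have := (θ ⟨j - 1, h2⟩).2
    omega
  · omega

theorem crosses_of_levels {f : Fin l → Fin w} {θ : Fin l → Fin (w + 1)} {i : ℕ} (h1 : lev f i ≤ clev θ i)
    (h2 : clev θ (i + 1) < lev f (i + 1)) : i ≤ l ∧ Crosses i (low f θ) := by
  unfold lev clev at h1 h2
  have hi : i ≤ l := by
    by_contra hc
    rw [if_neg (by omega), dif_neg (by omega), if_neg (by omega), dif_neg (by omega)] at h1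
    omega
  refine ⟨hi, ?_, ?_⟩
  · intro j hj
    rw [mem_low]
    have h3 : i - 1 < l := by have := j.2; omega
    rw [if_neg (by omega), dif_pos h3, if_neg (by omega), dif_pos h3] at h1
    have : j = ⟨i - 1, h3⟩ := Fin.ext (by simp; omega)
    rw [this]
    omega
  · intro j hj
    rw [mem_low]
    have h3 : i + 1 - 1 < l := by have := j.2; omega
    rw [if_neg (by omega), dif_pos h3, if_neg (by omega), dif_pos h3] at h2
    have : j = ⟨i + 1 - 1, h3⟩ := Fin.ext (by simp; omega)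
    rw [this]
    omega

/-- the curve of an accepted input stays in the band of the square -/
theorem cv_nonneg (f : Fin l → Fin w) (u : ℕ) : 0 ≤ cv w (lev f) u := by
  have h1 := vv_bounds (w := w) (a := lev f (u / (4 * w + 4))) (b := lev f (u / (4 * w + 4) + 1))
    (τ := ((u % (4 * w + 4) : ℕ) : ℤ))
  have h2 := gg_ge (w := w) (τ := ((u % (4 * w + 4) : ℕ) : ℤ)) (lev_bounds f (u / (4 * w + 4))).1
    (lev_bounds f (u / (4 * w + 4) + 1)).1
  unfold cv
  omega

theorem vv_first {w b τ : ℤ} (hw : 1 ≤ w) (h0 : 0 ≤ τ) : vv w 0 b τ ≤ τ ∨ b < 0 := by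
  by_cases hb : b < 0
  · exact Or.inr hb
  · left
    unfold vv gg
    split_ifs <;> omega

theorem vv_last {w a τ : ℤ} (ha : 0 ≤ a) (ha' : a ≤ w) (h0 : 0 ≤ τ) (h1 : τ < 4 * w + 4) :
    vv w a 0 τ ≤ 4 * w + 4 - τ := by
  unfold vv gg
  split_ifs <;> omega

theorem cv_le_time (hw : 1 ≤ w) (f : Fin l → Fin w) (u : ℕ) : cv w (lev f) u ≤ u := by
  set K := 4 * w + 4 with hK
  have h1 := Nat.div_add_mod u K
  have h2 := Nat.mod_lt u (show 0 < K by omega)
  unfold cv
  rw [← hK]
  by_cases h : u / K = 0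
  · rw [h] at h1 ⊢
    have h3 : lev f 0 = 0 := by simp [lev]
    rw [h3]
    have h4 := vv_first (w := w) (b := lev f (0 + 1)) (τ := ((u % K : ℕ) : ℤ)) (by omega)
      (by positivity)
    have h5 := (lev_bounds f (0 + 1)).1
    omega
  · have h3 := vv_bounds (w := w) (a := lev f (u / K)) (b := lev f (u / K + 1))
      (τ := ((u % K : ℕ) : ℤ))
    have h4 := gg_le (w := w) (τ := ((u % K : ℕ) : ℤ)) (lev_bounds f (u / K)).2
      (lev_bounds f (u / K + 1)).2
    have h5 : K ≤ u := by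
      by_contra hc
      exact h (Nat.div_eq_of_lt (by omega))
    omega

theorem cv_le_rest {m : ℕ} (hm : (l + 1) * (4 * w + 4) ≤ 2 * m) (f : Fin l → Fin w) {u : ℕ}
    (hu : u ≤ 2 * m) : cv w (lev f) u ≤ 2 * m - u := by
  set K := 4 * w + 4 with hK
  have h1 := Nat.div_add_mod u K
  have h2 := Nat.mod_lt u (show 0 < K by omega)
  have hp := cv_parity w (lev f) u
  unfold cv at hp ⊢
  rw [← hK] at hp ⊢
  have h3 := vv_bounds (w := w) (a := lev f (u / K)) (b := lev f (u / K + 1))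
    (τ := ((u % K : ℕ) : ℤ))
  rcases lt_trichotomy (u / K) l with h | h | h
  · have h4 := gg_le (w := w) (τ := ((u % K : ℕ) : ℤ)) (lev_bounds f (u / K)).2
      (lev_bounds f (u / K + 1)).2
    have h5 : K * (u / K + 1) ≤ K * l := Nat.mul_le_mul_left _ h
    have h6 : K * (u / K + 1) = K * (u / K) + K := by ring
    have h7 : (l + 1) * K = K * l + K := by ring
    omega
  · have h4 : lev f (u / K + 1) = 0 := by
      unfold lev
      rw [if_neg (by omega), dif_neg (by omega)]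
    rw [h4]
    have h5 := vv_last (w := w) (a := lev f (u / K)) (τ := ((u % K : ℕ) : ℤ))
      (lev_bounds f (u / K)).1 (lev_bounds f (u / K)).2 (by positivity) (by exact_mod_cast h2)
    have h7 : (l + 1) * K = K * (u / K) + K := by rw [h]; ring
    omega
  · have h4 : lev f (u / K + 1) = 0 := by
      unfold lev
      rw [if_neg (by omega), dif_neg (by omega)]
    have h5 : lev f (u / K) = 0 := by
      unfold lev
      rw [if_neg (by omega), dif_neg (by omega)]
    rw [h4, h5] at h3 hp ⊢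
    have h6 : gg w 0 0 ((u % K : ℕ) : ℤ) = 0 := by unfold gg; split_ifs <;> omega
    rw [h6] at h3
    omega

theorem cv_start (f : Fin l → Fin w) : cv w (lev f) 0 = 0 := by
  unfold cv
  have h1 : lev f 0 = 0 := by simp [lev]
  have h2 := vv_start (w := w) (a := lev f 0) (b := lev f (0 + 1)) (lev_bounds' f 0).1
    (lev_bounds' f 0).2
  simp only [Nat.zero_div, Nat.zero_mod, Nat.cast_zero]
  rw [h2, h1]
  norm_num

theorem cut_start (θ : Fin l → Fin (w + 1)) : cv w (clev θ) 0 = 2 * w := by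
  unfold cv
  have h1 : clev θ 0 = w := by simp [clev]
  have h2 := vv_start (w := w) (a := clev θ 0) (b := clev θ (0 + 1)) (clev_bounds θ 0).1
    (clev_bounds θ 0).2
  simp only [Nat.zero_div, Nat.zero_mod, Nat.cast_zero]
  rw [h2, h1]

theorem cut_end {m : ℕ} (hm : (l + 1) * (4 * w + 4) ≤ 2 * m) (θ : Fin l → Fin (w + 1)) :
    cv w (clev θ) (2 * m) < 0 := by
  set K := 4 * w + 4 with hK
  have h1 := Nat.div_add_mod (2 * m) K
  have h2 := Nat.mod_lt (2 * m) (show 0 < K by omega)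
  have h : l + 1 ≤ 2 * m / K := by
    rw [Nat.le_div_iff_mul_le (by omega)]
    exact hm
  unfold cv
  rw [← hK]
  have h4 : clev θ (2 * m / K + 1) = -1 := by
    unfold clev
    rw [if_neg (by omega), dif_neg (by omega)]
  have h5 : clev θ (2 * m / K) = -1 := by
    unfold clev
    rw [if_neg (by omega), dif_neg (by omega)]
  have h3 := vv_bounds (w := w) (a := -1) (b := -1) (τ := ((2 * m % K : ℕ) : ℤ))
  have h6 : gg w (-1) (-1) ((2 * m % K : ℕ) : ℤ) = -2 := by unfold gg; split_ifs <;> omega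
  rw [h4, h5]
  omega

end Pool.Agent.Lib.Pe46137Q
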