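import Pool.Agent.Lib.Pe46137Q.Final

/-!
Polynomial size.
-/

namespace Pool.Agent.Lib.Pe46137Q

open Finset
open Pool.Agent.Lib.Pe46137
open Pool.Agent.Lib.Pe46137P

theorem net_lower {n p q m : ℕ} (hm : 1 ≤ m) (hp : p + m ≤ n) (hq : q + m ≤ n) {W : Type}
    [Fintype W] (N : SwitchingNetwork (Vtx n × Vtx n) W) (hA : N.Avoids (inside n p q m))
    (hN : Computes n (fun G => N.Connects G Gᶜ)) :
    (Real.logb 2 m) ^ 2 / 8 - 3 * Real.logb 2 m ≤ Real.logb 2 (Fintype.card W) :=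
  lower_device hm hp hq (scomp_of_network ℚ N hA) hN

theorem net_price {n p q m : ℕ} (hm : 2 ≤ m) {W : Type}
    [Fintype W] (N : SwitchingNetwork (Vtx n × Vtx n) W)
    (hN : Computes n (fun G => N.Connects G Gᶜ)) :
    ∃ (W' : Type) (_ : Fintype W') (N' : SwitchingNetwork (Vtx n × Vtx n) W'),
      N'.Avoids (square n p q m) ∧ Computes n (fun G => N'.Connects G Gᶜ) ∧
      Real.logb 2 (Fintype.card W') ≤ Real.logb 2 (Fintype.card W) +
        (Real.logb 2 m) ^ 2 / 2 + 20 * Real.logb 2 m := by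
  obtain ⟨f, k, ⟨W', i, N', h1, h2, h3⟩, h4, h5⟩ := price_device (p := p) (q := q) device_net
    (g := fun G => N.Connects G Gᶜ) (c := Fintype.card W)
    ⟨W, inferInstance, N, le_rfl, fun _ h => h.elim, fun _ _ => Iff.rfl⟩ hN hm
  exact ⟨W', i, N', h2, fun G hG => (h3 G (Set.mem_univ _)).trans (h4 G hG),
    (logb_nat_mono h1).trans h5⟩

theorem polySize_iff (p q m : ℕ → ℕ) (h : ∀ n, 2 ≤ n → 2 ≤ m n ∧ p n + m n ≤ n ∧ q n + m n ≤ n) :
    PolySize (fun n => inside n (p n) (q n) (m n)) ↔ PolySize (fun _ => ∅) ∧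
      ∃ c : ℝ, ∀ n : ℕ, 2 ≤ n → (Real.logb 2 (m n)) ^ 2 ≤ c * Real.logb 2 n := by
  have hlog : ∀ n : ℕ, 2 ≤ n → 1 ≤ Real.logb 2 n ∧ 0 ≤ Real.logb 2 (m n) ∧
      Real.logb 2 (m n) ≤ Real.logb 2 n := by
    intro n hn
    obtain ⟨h1, h2, _⟩ := h n hn
    have hnR : (2 : ℝ) ≤ n := by exact_mod_cast hn
    have hmR : (2 : ℝ) ≤ m n := by exact_mod_cast h1
    refine ⟨?_, Real.logb_nonneg (by norm_num) (by linarith), ?_⟩
    · rw [Real.le_logb_iff_rpow_le (by norm_num) (by positivity)]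
      simpa using hnR
    · exact Real.logb_le_logb_of_le (by norm_num) (by positivity) (by exact_mod_cast (by omega : m n ≤ n))
  constructor
  · rintro ⟨k, hk⟩
    refine ⟨⟨k, fun n hn => ?_⟩, 8 * (k + 3), fun n hn => ?_⟩
    · obtain ⟨W, i, N, _, h2, h3⟩ := hk n hn
      exact ⟨W, i, N, fun _ h => h.elim, h2, h3⟩
    · obtain ⟨W, i, N, h1, h2, h3⟩ := hk n hn
      obtain ⟨h4, h5, h6⟩ := h n hn
      obtain ⟨l1, l2, l3⟩ := hlog n hn
      have h7 := net_lower (by omega) h5 h6 N h1 h2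
      have h8 := logb_nat_mono h3
      push_cast at h8
      rw [Real.logb_pow] at h8
      have hk0 : 0 ≤ (k : ℝ) := Nat.cast_nonneg _
      nlinarith
  · rintro ⟨⟨k, hk⟩, c, hc⟩
    obtain ⟨K, hK⟩ := exists_nat_ge ((k : ℝ) + c / 2 + 20)
    refine ⟨K, fun n hn => ?_⟩
    obtain ⟨W, i, N, _, h2, h3⟩ := hk n hn
    obtain ⟨h4, h5, h6⟩ := h n hn
    obtain ⟨l1, l2, l3⟩ := hlog n hn
    obtain ⟨W', i', N', g1, g2, g3⟩ := net_price (p := p n) (q := q n) h4 N h2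
    refine ⟨W', i', N', fun e he => g1 e he.2, g2, ?_⟩
    have h8 := logb_nat_mono h3
    push_cast at h8
    rw [Real.logb_pow] at h8
    have h9 := hc n hn
    have h10 : Real.logb 2 (Fintype.card W') ≤ K * Real.logb 2 n := by nlinarith
    have hpos : 0 < Fintype.card W' := Fintype.card_pos_iff.mpr ⟨N'.source⟩
    have hposR : (0 : ℝ) < Fintype.card W' := by exact_mod_cast hpos
    have hn0 : (0 : ℝ) < n := by
      have : (2 : ℝ) ≤ n := by exact_mod_cast hn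
      linarith
    rw [← Real.logb_pow] at h10
    have h11 := (Real.logb_le_logb (b := 2) (by norm_num) hposR (by positivity)).mp h10
    exact_mod_cast h11

theorem not_polySize : ¬ PolySize (fun _ => Set.univ) := by
  rintro ⟨k, hk⟩
  obtain ⟨n, hn⟩ : ∃ n : ℕ, n = 2 ^ (8 * (k + 4)) := ⟨_, rfl⟩
  have h2 : 2 ≤ n := by
    rw [hn]
    calc 2 = 2 ^ 1 := rfl
      _ ≤ _ := Nat.pow_le_pow_right (by norm_num) (by omega)
  have hlog : Real.logb 2 n = 8 * ((k : ℝ) + 4) := by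
    rw [hn]
    push_cast
    rw [Real.logb_pow, Real.logb_self_eq_one (by norm_num)]
    push_cast
    ring
  clear hn
  obtain ⟨W, i, N, h3, h4, h5⟩ := hk n h2
  have h6 := net_lower (p := 0) (q := 0) (m := n) (by omega) (by omega) (by omega) N
    (fun e _ => h3 e (Set.mem_univ _)) h4
  have h7 := logb_nat_mono h5
  rw [Nat.cast_pow, Real.logb_pow] at h7
  rw [hlog] at h6 h7
  have hk0 : 0 ≤ (k : ℝ) := Nat.cast_nonneg _
  nlinarith

end Pool.Agent.Lib.Pe46137Q
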