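import Pool.Agent.Lib.Pe46137Q.Device

/-!
The price of avoiding the negations of the arcs inside a square.
-/

namespace Pool.Agent.Lib.Pe46137Q

open Finset
open Pool.Agent.Lib.Pe46137
open Pool.Agent.Lib.Pe46137P

variable {n p q m : ℕ}

theorem grid_reach {a b : Vtx n} (h1 : (a.1 : ℕ) ≤ b.1) (h2 : (a.2 : ℕ) ≤ b.2) {G : Set (Vtx n × Vtx n)}
    (hG : ∀ e ∈ grid n, (a.1 : ℕ) ≤ e.1.1 → (a.2 : ℕ) ≤ e.1.2 → (e.2.1 : ℕ) ≤ b.1 →
      (e.2.2 : ℕ) ≤ b.2 → e ∈ G) : Reachable G a b := by
  have hb1 := b.1.2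
  have hb2 := b.2.2
  have r1 := reach_seq (G := G) (fun u => vtx n (a.1 + u) a.2) ((b.1 : ℕ) - a.1) (fun u hu => by
    refine hG _ ?_ ?_ ?_ ?_ ?_
    · simp only [grid, Set.mem_ofPred_eq]
      left
      rw [vtx_fst (show (a.1 : ℕ) + (u + 1) ≤ n by omega), vtx_fst (show (a.1 : ℕ) + u ≤ n by omega),
        vtx_snd (show (a.2 : ℕ) ≤ n by omega)]
      refine ⟨by omega, ?_⟩
      rw [vtx_snd (show (a.2 : ℕ) ≤ n by omega)]
    · simp only
      rw [vtx_fst (show (a.1 : ℕ) + u ≤ n by omega)]
      omega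
    · simp only
      rw [vtx_snd (show (a.2 : ℕ) ≤ n by omega)]
    · simp only
      rw [vtx_fst (show (a.1 : ℕ) + (u + 1) ≤ n by omega)]
      omega
    · simp only
      rw [vtx_snd (show (a.2 : ℕ) ≤ n by omega)]
      exact h2)
  have r2 := reach_seq (G := G) (fun u => vtx n b.1 (a.2 + u)) ((b.2 : ℕ) - a.2) (fun u hu => by
    refine hG _ ?_ ?_ ?_ ?_ ?_
    · simp only [grid, Set.mem_ofPred_eq]
      right
      rw [vtx_fst (show (b.1 : ℕ) ≤ n by omega), vtx_snd (show (a.2 : ℕ) + (u + 1) ≤ n by omega),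
        vtx_snd (show (a.2 : ℕ) + u ≤ n by omega)]
      refine ⟨?_, by omega⟩
      rw [vtx_fst (show (b.1 : ℕ) ≤ n by omega)]
    · simp only
      rw [vtx_fst (show (b.1 : ℕ) ≤ n by omega)]
      exact h1
    · simp only
      rw [vtx_snd (show (a.2 : ℕ) + u ≤ n by omega)]
      omega
    · simp only
      rw [vtx_fst (show (b.1 : ℕ) ≤ n by omega)]
    · simp only
      rw [vtx_snd (show (a.2 : ℕ) + (u + 1) ≤ n by omega)]
      omega)
  have e1 : vtx n (a.1 + 0) a.2 = a := by
    refine vtx_ext ?_ ?_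
    · rw [vtx_fst (by omega)]; rfl
    · rw [vtx_snd (by omega)]
  have e2 : vtx n ((a.1 : ℕ) + ((b.1 : ℕ) - a.1)) a.2 = vtx n b.1 (a.2 + 0) := by
    rw [show (a.1 : ℕ) + ((b.1 : ℕ) - a.1) = b.1 by omega]
    rfl
  have e3 : vtx n b.1 ((a.2 : ℕ) + ((b.2 : ℕ) - a.2)) = b := by
    refine vtx_ext ?_ ?_
    · rw [vtx_fst (by omega)]
    · rw [vtx_snd (by omega)]; omega
  rw [e1, e2] at r1
  rw [e3] at r2
  exact r1.trans r2

/-- the arcs outside the set `Q` that lead to vertices below `a` -/
def varA (Q : Set (Vtx n × Vtx n)) (a : Vtx n) : Set (Vtx n × Vtx n) :=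
  {e | e ∈ grid n ∧ e ∉ Q ∧ (e.2.1 : ℕ) ≤ a.1 ∧ (e.2.2 : ℕ) ≤ a.2}

/-- the arcs from vertices above `a` -/
def conA (a : Vtx n) : Set (Vtx n × Vtx n) :=
  {e | e ∈ grid n ∧ (a.1 : ℕ) ≤ e.1.1 ∧ (a.2 : ℕ) ≤ e.1.2}

/-- the arcs outside the set `Q` from vertices above `b` -/
def varB (Q : Set (Vtx n × Vtx n)) (b : Vtx n) : Set (Vtx n × Vtx n) :=
  {e | e ∈ grid n ∧ e ∉ Q ∧ (b.1 : ℕ) ≤ e.1.1 ∧ (b.2 : ℕ) ≤ e.1.2}

/-- the arcs that lead to vertices below `b` -/
def conB (b : Vtx n) : Set (Vtx n × Vtx n) :=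
  {e | e ∈ grid n ∧ (e.2.1 : ℕ) ≤ b.1 ∧ (e.2.2 : ℕ) ≤ b.2}

theorem fix_subset {V c x : Set (Vtx n × Vtx n)} (hV : V ⊆ grid n) (hc : c ⊆ grid n) :
    fixIn V c x ⊆ grid n := by
  rintro e (h | h)
  · exact hV h.1
  · exact hc h.2

theorem reach_fixA (Q x : Set (Vtx n × Vtx n)) (a : Vtx n) :
    Reachable (fixIn (varA Q a) (conA a) x) (southwest n) (northeast n) ↔
      Reachable ((x ∩ grid n) \ Q) (southwest n) a := by
  constructor
  · intro h
    have key : ∀ w, Reachable (fixIn (varA Q a) (conA a) x) (southwest n) w →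
        ((w.1 : ℕ) ≤ a.1 ∧ (w.2 : ℕ) ≤ a.2 ∧ Reachable ((x ∩ grid n) \ Q) (southwest n) w) ∨
        (Reachable ((x ∩ grid n) \ Q) (southwest n) a ∧ (a.1 : ℕ) ≤ w.1 ∧ (a.2 : ℕ) ≤ w.2) := by
      intro w hw
      unfold Reachable at hw
      induction hw with
      | refl => exact Or.inl ⟨Nat.zero_le _, Nat.zero_le _, Relation.ReflTransGen.refl⟩
      | @tail v w _ hvw ih =>
        rcases hvw with ⟨⟨h1, h2, h3, h4⟩, h5⟩ | ⟨_, h1, h2, h3⟩
        · simp only [grid, Set.mem_ofPred_eq] at h1
          simp only at h3 h4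
          rcases ih with ⟨h6, h7, h8⟩ | ⟨h6, h7, h8⟩
          · exact Or.inl ⟨h3, h4, h8.tail ⟨⟨h5, h1⟩, h2⟩⟩
          · exact Or.inr ⟨h6, by omega, by omega⟩
        · simp only [grid, Set.mem_ofPred_eq] at h1
          simp only at h2 h3
          rcases ih with ⟨h6, h7, h8⟩ | ⟨h6, h7, h8⟩
          · have : v = a := vtx_ext (by omega) (by omega)
            subst this
            exact Or.inr ⟨h8, by omega, by omega⟩
          · exact Or.inr ⟨h6, by omega, by omega⟩
    rcases key _ h with ⟨h1, h2, h3⟩ | ⟨h1, _, _⟩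
    · have e1 : ((northeast n).1 : ℕ) = n := rfl
      have e2 : ((northeast n).2 : ℕ) = n := rfl
      have := a.1.2
      have := a.2.2
      have : northeast n = a := vtx_ext (by omega) (by omega)
      rwa [this] at h3
    · exact h1
  · intro h
    have h1 : Reachable (fixIn (varA Q a) (conA a) x) (southwest n) a := by
      have key : ∀ w, Reachable ((x ∩ grid n) \ Q) w a →
          Reachable (fixIn (varA Q a) (conA a) x) w a := by
        intro w hw
        unfold Reachable at hw
        induction hw using Relation.ReflTransGen.head_induction_on with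
        | refl => exact Relation.ReflTransGen.refl
        | @head v w hvw hwa ih =>
          have hle := reach_le (fun e he => he.1.2) hwa
          exact Relation.ReflTransGen.head (Or.inl ⟨⟨hvw.1.2, hvw.2, hle.1, hle.2⟩, hvw.1.1⟩) ih
      exact key _ h
    refine h1.trans (grid_reach ?_ ?_ ?_)
    · have := a.1.2
      change (a.1 : ℕ) ≤ n
      omega
    · have := a.2.2
      change (a.2 : ℕ) ≤ n
      omega
    · intro e he h2 h3 _ _
      by_cases hV : e ∈ varA Q a
      · exfalso
        obtain ⟨h4, h5, h6, h7⟩ := hV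
        simp only [grid, Set.mem_ofPred_eq] at h4
        omega
      · exact Or.inr ⟨hV, he, h2, h3⟩

theorem reach_fixB (Q x : Set (Vtx n × Vtx n)) (b : Vtx n) :
    Reachable (fixIn (varB Q b) (conB b) x) (southwest n) (northeast n) ↔
      Reachable ((x ∩ grid n) \ Q) b (northeast n) := by
  constructor
  · intro h
    have key : ∀ w, Reachable (fixIn (varB Q b) (conB b) x) w (northeast n) →
        ((b.1 : ℕ) ≤ w.1 ∧ (b.2 : ℕ) ≤ w.2 ∧ Reachable ((x ∩ grid n) \ Q) w (northeast n)) ∨
        (Reachable ((x ∩ grid n) \ Q) b (northeast n) ∧ (w.1 : ℕ) ≤ b.1 ∧ (w.2 : ℕ) ≤ b.2) := by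
      intro w hw
      unfold Reachable at hw
      induction hw using Relation.ReflTransGen.head_induction_on with
      | refl =>
        have h1 := b.1.2
        have h2 := b.2.2
        exact Or.inl ⟨by change (b.1 : ℕ) ≤ n; omega, by change (b.2 : ℕ) ≤ n; omega,
          Relation.ReflTransGen.refl⟩
      | @head v w hvw _ ih =>
        rcases hvw with ⟨⟨h1, h2, h3, h4⟩, h5⟩ | ⟨_, h1, h2, h3⟩
        · simp only [grid, Set.mem_ofPred_eq] at h1
          simp only at h3 h4
          rcases ih with ⟨h6, h7, h8⟩ | ⟨h6, h7, h8⟩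
          · exact Or.inl ⟨h3, h4, Relation.ReflTransGen.head ⟨⟨h5, h1⟩, h2⟩ h8⟩
          · exact Or.inr ⟨h6, by omega, by omega⟩
        · simp only [grid, Set.mem_ofPred_eq] at h1
          simp only at h2 h3
          rcases ih with ⟨h6, h7, h8⟩ | ⟨h6, h7, h8⟩
          · have : w = b := vtx_ext (by omega) (by omega)
            subst this
            exact Or.inr ⟨h8, by omega, by omega⟩
          · exact Or.inr ⟨h6, by omega, by omega⟩
    rcases key _ h with ⟨h1, h2, h3⟩ | ⟨h1, _, _⟩
    · have e1 : ((southwest n).1 : ℕ) = 0 := rfl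
      have e2 : ((southwest n).2 : ℕ) = 0 := rfl
      have : southwest n = b := vtx_ext (by omega) (by omega)
      rwa [this] at h3
    · exact h1
  · intro h
    have h1 : Reachable (fixIn (varB Q b) (conB b) x) b (northeast n) := by
      have key : ∀ w, Reachable ((x ∩ grid n) \ Q) b w →
          Reachable (fixIn (varB Q b) (conB b) x) b w := by
        intro w hw
        unfold Reachable at hw
        induction hw with
        | refl => exact Relation.ReflTransGen.refl
        | @tail v w hbv hvw ih =>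
          have hle := reach_le (fun e he => he.1.2) hbv
          exact Relation.ReflTransGen.tail ih (Or.inl ⟨⟨hvw.1.2, hvw.2, hle.1, hle.2⟩, hvw.1.1⟩)
      exact key _ h
    refine Relation.ReflTransGen.trans (grid_reach (G := fixIn (varB Q b) (conB b) x)
      (a := southwest n) (b := b) (Nat.zero_le _) (Nat.zero_le _) ?_) h1
    intro e he _ _ h2 h3
    by_cases hV : e ∈ varB Q b
    · exfalso
      obtain ⟨h4, h5, h6, h7⟩ := hV
      simp only [grid, Set.mem_ofPred_eq] at h4
      omega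
    · exact Or.inr ⟨hV, he, h2, h3⟩

/-- the vertices of the square -/
def box (n p q m : ℕ) : Finset (Vtx n) :=
  univ.filter fun a => p ≤ (a.1 : ℕ) ∧ (a.1 : ℕ) ≤ p + m ∧ q ≤ (a.2 : ℕ) ∧ (a.2 : ℕ) ≤ q + m

theorem card_box : (box n p q m).card ≤ (m + 1) ^ 2 := by
  have h : (box n p q m).card ≤ ((range (m + 1)) ×ˢ (range (m + 1))).card := by
    refine card_le_card_of_injOn (fun a => ((a.1 : ℕ) - p, (a.2 : ℕ) - q)) ?_ ?_
    · intro a ha
      rw [mem_coe, box, mem_filter] at ha
      simp only [coe_product, coe_range, Set.mem_prod, Set.mem_Iio]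
      omega
    · intro a ha b hb hab
      rw [mem_coe, box, mem_filter] at ha hb
      simp only [Prod.mk.injEq] at hab
      exact vtx_ext (by omega) (by omega)
  rwa [card_product, card_range, ← sq] at h

theorem stay {G : Set (Vtx n × Vtx n)} (hG : G ⊆ grid n) {b v : Vtx n} (hb : b ∈ box n p q m)
    (hv : v ∈ box n p q m) (h : Reachable (G \ square n p q m) b v) : b = v := by
  unfold Reachable at h
  rcases Relation.ReflTransGen.cases_head h with h1 | ⟨c, h1, h2⟩
  · exact h1
  · exfalso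
    have h3 := reach_le (fun e he => hG he.1) h2
    have h4 := hG h1.1
    simp only [grid, Set.mem_ofPred_eq] at h4
    rw [box, mem_filter] at hb hv
    apply h1.2
    rw [square_iff]
    simp only
    omega

theorem decompose {G : Set (Vtx n × Vtx n)} (hG : G ⊆ grid n) (s v : Vtx n) :
    Reachable G s v ↔ Reachable (G \ square n p q m) s v ∨ ∃ ab ∈ box n p q m ×ˢ box n p q m,
      (Reachable (G \ square n p q m) s ab.1 ∧ Reachable G ab.1 ab.2) ∧
        Reachable (G \ square n p q m) ab.2 v := by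
  constructor
  · intro h
    unfold Reachable at h
    induction h with
    | refl => exact Or.inl Relation.ReflTransGen.refl
    | @tail v w _ hvw ih =>
      by_cases hQ : (v, w) ∈ square n p q m
      · have hv : v ∈ box n p q m := by
          rw [box, mem_filter]
          exact ⟨mem_univ _, (square_iff.mp hQ).1⟩
        have hw : w ∈ box n p q m := by
          rw [box, mem_filter]
          exact ⟨mem_univ _, (square_iff.mp hQ).2⟩
        right
        rcases ih with h1 | ⟨⟨a, b⟩, hab, ⟨h1, h2⟩, h3⟩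
        · exact ⟨(v, w), mem_product.mpr ⟨hv, hw⟩, ⟨h1, Relation.ReflTransGen.single hvw⟩,
            Relation.ReflTransGen.refl⟩
        · rw [mem_product] at hab
          simp only at hab h1 h2 h3
          have := stay hG hab.2 hv h3
          subst this
          exact ⟨(a, w), mem_product.mpr ⟨hab.1, hw⟩, ⟨h1, h2.tail hvw⟩,
            Relation.ReflTransGen.refl⟩
      · rcases ih with h1 | ⟨ab, hab, h1, h2⟩
        · exact Or.inl (h1.tail ⟨hvw, hQ⟩)
        · exact Or.inr ⟨ab, hab, h1, h2.tail ⟨hvw, hQ⟩⟩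
  · have mono : ∀ a b : Vtx n, Reachable (G \ square n p q m) a b → Reachable G a b := by
      intro a b h
      unfold Reachable at h
      induction h with
      | refl => exact Relation.ReflTransGen.refl
      | tail _ h1 ih => exact Relation.ReflTransGen.tail ih h1.1
    rintro (h | ⟨ab, _, ⟨h1, h2⟩, h3⟩)
    · exact mono _ _ h
    · exact ((mono _ _ h1).trans h2).trans (mono _ _ h3)

variable {P : Set (Vtx n × Vtx n) → (Set (Vtx n × Vtx n) → Prop) → ℕ → Prop}

/-- the price of avoiding the negations of the square -/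
theorem device_price (hP : Device P) {g : Set (Vtx n × Vtx n) → Prop} {c : ℕ} (hg : P ∅ g c)
    (h : ∀ G ⊆ grid n, (g G ↔ Reachable G (southwest n) (northeast n))) :
    P (square n p q m) (fun x => Reachable (x ∩ grid n) (southwest n) (northeast n))
      (c + ((m + 1) ^ 4 * (c + 2 * 2 ^ (Nat.clog 2 (2 * m) * (Nat.clog 2 (2 * m) + 3) / 2) + c)
        + 2)) := by
  set Q := square n p q m with hQ
  have hgs : ∀ a : Vtx n, P Q (fun x => Reachable ((x ∩ grid n) \ Q) (southwest n) a) c := by
    intro a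
    refine hP.congr (hP.fix (varA Q a) (conA a) hg (M' := Q) ?_) fun x => ?_
    · intro e he hV
      exact absurd he hV.2.1
    · rw [h _ (fix_subset (fun e he => he.1) (fun e he => he.1)), reach_fixA]
  have hgt : ∀ b : Vtx n, P Q (fun x => Reachable ((x ∩ grid n) \ Q) b (northeast n)) c := by
    intro b
    refine hP.congr (hP.fix (varB Q b) (conB b) hg (M' := Q) ?_) fun x => ?_
    · intro e he hV
      exact absurd he hV.2.1
    · rw [h _ (fix_subset (fun e he => he.1) (fun e he => he.1)), reach_fixB]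
  have hmid : ∀ ab ∈ box n p q m ×ˢ box n p q m,
      P Q (fun x => Reachable (x ∩ grid n) ab.1 ab.2)
        (2 * 2 ^ (Nat.clog 2 (2 * m) * (Nat.clog 2 (2 * m) + 3) / 2)) := by
    intro ab hab
    rw [mem_product, box, mem_filter, mem_filter] at hab
    have h1 := Nat.le_pow_clog (b := 2) (by norm_num) (2 * m)
    obtain ⟨φ, h2, h3, h4⟩ := fcomp_reach (n := n) (Nat.clog 2 (2 * m)) ab.1 ab.2 (by omega)
    refine hP.mono (hP.congr (hP.form φ ?_) h4) (Nat.mul_le_mul_left _ h3)
    clear h4 h3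
    induction φ with
    | var e => trivial
    | nvar e => exact fun _ => h2 (Set.mem_univ _)
    | top => trivial
    | bot => trivial
    | and φ ψ h5 h6 => exact ⟨h5 h2.1, h6 h2.2⟩
    | or φ ψ h5 h6 => exact ⟨h5 h2.1, h6 h2.2⟩
  have hall := hP.exist (box n p q m ×ˢ box n p q m) (fun ab hab =>
    hP.and (hP.and (hgs ab.1) (hmid ab hab)) (hgt ab.2))
  refine hP.congr (hP.mono (hP.or (hgs (northeast n)) hall) ?_) fun x => ?_
  · refine Nat.add_le_add_left (Nat.add_le_add_right (Nat.mul_le_mul_right _ ?_) _) _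
    rw [card_product]
    calc (box n p q m).card * (box n p q m).card ≤ (m + 1) ^ 2 * (m + 1) ^ 2 :=
          Nat.mul_le_mul card_box card_box
      _ = (m + 1) ^ 4 := by ring
  · exact (decompose (Set.inter_subset_right) _ _).symm

end Pool.Agent.Lib.Pe46137Q
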