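import Pool.Agent.Lib.Pe46137Q.Lower

/-!
The dimension argument when a few of the rejected inputs are exceptions.
-/

namespace Pool.Agent.Lib.Pe46137Q

open Finset
open Pool.Agent.Lib.Pe46137
open Pool.Agent.Lib.Pe46137P

variable {K : Type*} [Field K] {l w : ℕ}

section core

variable {V : Type*} [AddCommGroup V] [Module K V]

/-- the functions of `synthT` and the functions supported on `B` -/
noncomputable def synthB (𝒯 : Finset (Finset (Fin l × Fin w)))
    (φ : (Fin l → Fin (w + 1)) → V →ₗ[K] K) (B : Finset (Fin l → Fin (w + 1))) :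
    ((𝒯 → V) × (B → K)) →ₗ[K] ((Fin l → Fin (w + 1)) → K) :=
  (synthT 𝒯 φ).coprod
    { toFun := fun c θ => if h : θ ∈ B then c ⟨θ, h⟩ else 0
      map_add' := by
        intro a b
        funext θ
        by_cases h : θ ∈ B <;> simp [h]
      map_smul' := by
        intro c a
        funext θ
        by_cases h : θ ∈ B <;> simp [h] }

/-- the dimension argument with exceptions -/
theorem core_thr_bad [FiniteDimensional K V] {d : ℕ} (hl : 2 ^ d ≤ l)
    (B : Finset (Fin l → Fin (w + 1)))
    (φ : (Fin l → Fin (w + 1)) → V →ₗ[K] K) (b : V) (hb : ∀ θ, θ ∉ B → φ θ b = 1)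
    (hspan : ∀ f : Fin l → Fin w, b ∈ Submodule.span K
      {a : V | ∃ i ≤ l, ∀ θ, θ ∉ B → ¬ Crosses i (low f θ) → φ θ a = 0}) :
    w ^ l ≤ (chosen l w d).card * Module.finrank K V + B.card := by
  classical
  set 𝒯 := chosen l w d with h𝒯
  -- exceptions get the functional zero
  set φ' : (Fin l → Fin (w + 1)) → V →ₗ[K] K := fun θ => if θ ∈ B then 0 else φ θ with hφ'
  have hφ0 : ∀ θ ∈ B, φ' θ = 0 := fun θ h => if_pos h
  have hφ1 : ∀ θ, θ ∉ B → φ' θ = φ θ := fun θ h => if_neg h
  set r : (Fin l → Fin w) → ((Fin l → Fin (w + 1)) → K) := fun f θ => pol K d (low f θ) with hr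
  have hone : ∀ f : Fin l → Fin w, ∀ a : V,
      (∃ i ≤ l, ∀ θ, θ ∉ B → ¬ Crosses i (low f θ) → φ θ a = 0) →
      (fun θ => pol K d (low f θ) * φ' θ a) ∈ LinearMap.range (synthT 𝒯 φ') := by
    rintro f a ⟨i, hi, ha⟩
    have ha' : ∀ θ, ¬ Crosses i (low f θ) → φ' θ a = 0 := by
      intro θ hθ
      by_cases h : θ ∈ B
      · rw [hφ0 θ h]; rfl
      · rw [hφ1 θ h]; exact ha θ h hθ
    have e : (fun x => pol K d (low f x) * φ' x a) =
        ∑ T ∈ univ.filter (fun T : Finset (Fin l) => ∀ j : Fin l, (j : ℕ) = i → j ∉ T),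
          gam K d i T • (fun x => monoT K (T.map (pathEmb f)) x * φ' x a) := by
      funext x
      by_cases hc : Crosses i (low f x)
      · rw [pol_eq_of_crosses d hc, sum_mul, Finset.sum_apply]
        refine sum_congr rfl fun T _ => ?_
        rw [mono_low, Pi.smul_apply, smul_eq_mul]
        ring
      · rw [ha' x hc, mul_zero, Finset.sum_apply, sum_eq_zero]
        intro T _
        simp [ha' x hc]
    rw [e]
    refine Submodule.sum_mem _ fun T hT => ?_
    rw [mem_filter] at hT
    by_cases hTc : l ≤ T.card + d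
    · rw [gam_eq_zero hl hi hTc hT.2, zero_smul]
      exact Submodule.zero_mem _
    · exact Submodule.smul_mem _ _ (synthT_single 𝒯 φ' (mem_chosen f (by omega)) a)
  have hmem : ∀ f, (fun θ => pol K d (low f θ) * φ' θ b) ∈ LinearMap.range (synthT 𝒯 φ') := by
    intro f
    have key : ∀ a ∈ Submodule.span K
        {a : V | ∃ i ≤ l, ∀ θ, θ ∉ B → ¬ Crosses i (low f θ) → φ θ a = 0},
        (fun x => pol K d (low f x) * φ' x a) ∈ LinearMap.range (synthT 𝒯 φ') := by
      intro a ha
      induction ha using Submodule.span_induction with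
      | mem a h => exact hone f a h
      | zero =>
        have : (fun x => pol K d (low f x) * φ' x (0 : V)) = 0 := by
          funext x; simp
        rw [this]; exact Submodule.zero_mem _
      | add a a' _ _ h h' =>
        have : (fun x => pol K d (low f x) * φ' x (a + a')) =
            (fun x => pol K d (low f x) * φ' x a) +
              (fun x => pol K d (low f x) * φ' x a') := by
          funext x
          simp [mul_add]
        rw [this]; exact Submodule.add_mem _ h h'
      | smul c a _ h =>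
        have : (fun x => pol K d (low f x) * φ' x (c • a)) =
            c • (fun x => pol K d (low f x) * φ' x a) := by
          funext x
          simp only [map_smul, smul_eq_mul, Pi.smul_apply]
          ring
        rw [this]; exact Submodule.smul_mem _ _ h
    exact key b (hspan f)
  have hmem' : ∀ f, r f ∈ LinearMap.range (synthB 𝒯 φ' B) := by
    intro f
    obtain ⟨a, ha⟩ := hmem f
    refine ⟨(a, fun θ => pol K d (low f θ.1)), ?_⟩
    funext θ
    have h1 : (synthT 𝒯 φ') a θ = pol K d (low f θ) * φ' θ b := congrFun ha θ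
    change (synthT 𝒯 φ') a θ + (if h : θ ∈ B then pol K d (low f θ) else 0) = r f θ
    rw [h1]
    by_cases h : θ ∈ B
    · rw [hφ0 θ h, dif_pos h]
      simp [hr]
    · rw [hφ1 θ h, dif_neg h, hb θ h]
      simp [hr]
  have hind : LinearIndependent K r := by
    rw [Fintype.linearIndependent_iff]
    intro c hc g
    have h1 : LamT g (∑ f, c f • r f) = c g := by
      have e : LamT g (∑ f, c f • r f) = ∑ f, c f * LamT g (r f) := by
        unfold LamT
        simp only [Finset.sum_apply, Pi.smul_apply, smul_eq_mul, mul_sum]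
        rw [sum_comm]
        exact sum_congr rfl fun f _ => sum_congr rfl fun y _ => by ring
      rw [e, sum_eq_single g]
      · rw [hr]
        simp only
        rw [LamT_self, mul_one]
      · intro f _ hne
        rw [hr]
        simp only
        rw [LamT_other hne d, mul_zero]
      · simp
    rw [hc] at h1
    rw [← h1]
    unfold LamT
    simp
  have h2 : Fintype.card (Fin l → Fin w) ≤ Module.finrank K (LinearMap.range (synthB 𝒯 φ' B)) := by
    have h3 : LinearIndependent K (fun f => (⟨r f, hmem' f⟩ : LinearMap.range (synthB 𝒯 φ' B))) := by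
      refine LinearIndependent.of_comp (LinearMap.range (synthB 𝒯 φ' B)).subtype ?_
      exact hind
    exact h3.fintype_card_le_finrank
  have h4 : Fintype.card (Fin l → Fin w) = w ^ l := by simp
  rw [← h4]
  refine h2.trans ((LinearMap.finrank_range_le _).trans ?_)
  rw [Module.finrank_prod, Module.finrank_pi_fintype, Module.finrank_fintype_fun_eq_card]
  simp

end core

variable {E : Type}

/-- a threshold scheme for devices without negated variables, with exceptions -/
theorem scheme_span_bad {d : ℕ} (hl : 2 ^ d ≤ l) (B : Finset (Fin l → Fin (w + 1)))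
    (G : (Fin l → Fin w) → Set E) (H : (Fin l → Fin (w + 1)) → Set E)
    (h1 : ∀ f, ∀ e ∈ G f, ∃ i ≤ l, ∀ θ, e ∉ H θ → Crosses i (low f θ))
    {K : Type} [Field K] {V : Type} [AddCommGroup V]
    [Module K V] [FiniteDimensional K V] (S : SpanProgram E V) (hS : S.Avoids Set.univ)
    (hacc : ∀ f, S.Accepts K (G f)) (hrej : ∀ θ, θ ∉ B → ¬ S.Accepts K (H θ)) :
    w ^ l ≤ (chosen l w d).card * Module.finrank K V + B.card := by
  classical
  have hφ : ∀ θ : Fin l → Fin (w + 1), ∃ φ : V →ₗ[K] K, θ ∉ B → φ S.target = 1 ∧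
      ∀ v ∈ S.available (H θ), φ v = 0 := by
    intro θ
    by_cases h : θ ∈ B
    · exact ⟨0, fun h' => absurd h h'⟩
    obtain ⟨φ, h2, h3⟩ := Submodule.exists_le_ker_of_notMem (hrej θ h)
    refine ⟨(φ S.target)⁻¹ • φ, fun _ => ⟨?_, ?_⟩⟩
    · simp [h2]
    · intro v hv
      have := h3 (Submodule.subset_span hv)
      rw [LinearMap.mem_ker] at this
      simp [this]
  choose φ hφ using hφ
  refine core_thr_bad hl B φ S.target (fun θ hθ => (hφ θ hθ).1) (fun f => ?_)
  refine Submodule.span_mono ?_ (hacc f)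
  intro v hv
  rcases hv with hv | hv | hv
  · exact ⟨0, Nat.zero_le _, fun θ hθ _ => (hφ θ hθ).2 v (Or.inl hv)⟩
  · simp only [Set.mem_iUnion] at hv
    obtain ⟨e, he, hv⟩ := hv
    obtain ⟨i, hi, hc⟩ := h1 f e he
    refine ⟨i, hi, fun θ hθ hθc => (hφ θ hθ).2 v (Or.inr (Or.inl ?_))⟩
    simp only [Set.mem_iUnion]
    refine ⟨e, ?_, hv⟩
    by_contra h
    exact hθc (hc θ h)
  · simp only [Set.mem_iUnion] at hv
    obtain ⟨e, he, hv⟩ := hv
    rw [hS e (Set.mem_univ e)] at hv
    exact absurd hv (Set.notMem_empty _)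

/-- few exceptions cost a factor two only -/
theorem bad_small {l w D B : ℕ} (hw : 1 ≤ w) (hlw : l ≤ w) (hB : 6 * B ≤ (w + 1) ^ l)
    (h : w ^ l ≤ D + B) : w ^ l ≤ 2 * D := by
  have h1 : ((w : ℝ) + 1) ^ l ≤ 3 * (w : ℝ) ^ l := by
    have hw0 : (0 : ℝ) < w := by exact_mod_cast hw
    have e : ((w : ℝ) + 1) ^ l = (w : ℝ) ^ l * (1 + 1 / w) ^ l := by
      rw [← mul_pow]
      congr 1
      field_simp
    have h2 : (1 + 1 / (w : ℝ)) ^ l ≤ 3 := by
      have h3 : 1 + 1 / (w : ℝ) ≤ Real.exp (1 / w) := by
        have := Real.add_one_le_exp (1 / (w : ℝ))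
        linarith
      calc (1 + 1 / (w : ℝ)) ^ l ≤ (Real.exp (1 / w)) ^ l := by
            apply pow_le_pow_left₀ (by positivity) h3
        _ = Real.exp (l * (1 / w)) := by rw [← Real.exp_nat_mul]
        _ ≤ Real.exp 1 := by
            apply Real.exp_le_exp.mpr
            rw [mul_one_div, div_le_one hw0]
            exact_mod_cast hlw
        _ ≤ 3 := by
            have := Real.exp_one_lt_d9
            linarith
    rw [e, mul_comm 3]
    exact mul_le_mul_of_nonneg_left h2 (by positivity)
  have h2 : (w + 1) ^ l ≤ 3 * w ^ l := by exact_mod_cast h1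
  omega

end Pool.Agent.Lib.Pe46137Q
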