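import Pool.Agent.Lib.Pe46137Q.Graph
import Pool.Agent.Lib.Pe46137P.Form

/-!
Monotone formulas for reachability in the oriented grid.
-/

namespace Pool.Agent.Lib.Pe46137Q

open Finset
open Pool.Agent.Lib.Pe46137
open Pool.Agent.Lib.Pe46137P (Formula FComp fcomp_exists FComp.and)

variable {n : ℕ} {G : Set (Vtx n × Vtx n)} {a b c : Vtx n}

theorem reach_le (hG : G ⊆ grid n) (h : Reachable G a b) :
    (a.1 : ℕ) ≤ b.1 ∧ (a.2 : ℕ) ≤ b.2 := by
  unfold Reachable at h
  induction h with
  | refl => exact ⟨le_rfl, le_rfl⟩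
  | tail _ hbc ih =>
    have := hG hbc
    simp only [grid, Set.mem_ofPred_eq] at this
    omega

theorem reach_split (hG : G ⊆ grid n) (h : Reachable G a b) {k : ℕ}
    (h1 : (a.1 : ℕ) + a.2 ≤ k) (h2 : k ≤ (b.1 : ℕ) + b.2) :
    ∃ c : Vtx n, (c.1 : ℕ) + c.2 = k ∧ Reachable G a c ∧ Reachable G c b := by
  unfold Reachable at h
  induction h with
  | refl => exact ⟨a, by omega, Relation.ReflTransGen.refl, Relation.ReflTransGen.refl⟩
  | @tail b c hab hbc ih =>
    have := hG hbc
    simp only [grid, Set.mem_ofPred_eq] at this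
    by_cases h3 : k ≤ (b.1 : ℕ) + b.2
    · obtain ⟨d, h4, h5, h6⟩ := ih h3
      exact ⟨d, h4, h5, h6.tail hbc⟩
    · exact ⟨c, by omega, hab.tail hbc, Relation.ReflTransGen.refl⟩

theorem fcomp_short (h : (b.1 : ℕ) + b.2 ≤ (a.1 : ℕ) + a.2 + 1) :
    FComp (fun x : Set (Vtx n × Vtx n) => Reachable (x ∩ grid n) a b) 1 := by
  by_cases hab : a = b
  · subst hab
    exact ⟨Formula.top, trivial, le_rfl, fun x => ⟨fun _ => Relation.ReflTransGen.refl,
      fun _ => trivial⟩⟩
  · by_cases hg : (a, b) ∈ grid n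
    · refine ⟨Formula.var (a, b), trivial, le_rfl, fun x => ⟨fun hx =>
        Relation.ReflTransGen.single ⟨hx, hg⟩, fun hx => ?_⟩⟩
      have hle := reach_le Set.inter_subset_right hx
      unfold Reachable at hx
      rcases Relation.ReflTransGen.cases_tail hx with h1 | ⟨c, h1, h2⟩
      · exact absurd h1.symm hab
      · have h3 := reach_le (G := x ∩ grid n) Set.inter_subset_right h1
        have h4 := h2.2
        simp only [grid, Set.mem_ofPred_eq] at h4
        have : a = c := vtx_ext (by omega) (by omega)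
        subst this
        exact h2.1
    · refine ⟨Formula.bot, trivial, le_rfl, fun x => ⟨fun hx => hx.elim, fun hx => ?_⟩⟩
      unfold Reachable at hx
      rcases Relation.ReflTransGen.cases_tail hx with h1 | ⟨c, h1, h2⟩
      · exact absurd h1.symm hab
      · have h3 := reach_le (G := x ∩ grid n) Set.inter_subset_right h1
        have h4 := h2.2
        simp only [grid, Set.mem_ofPred_eq] at h4
        have : a = c := vtx_ext (by omega) (by omega)
        subst this
        exact hg h2.2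

theorem FComp.mono {E : Type} {f : Set E → Prop} {m m' : ℕ} (h : FComp f m) (hm : m ≤ m') :
    FComp f m' := by
  obtain ⟨φ, h1, h2, h3⟩ := h
  exact ⟨φ, h1, h2.trans hm, h3⟩

theorem fcomp_reach : ∀ (s : ℕ) (a b : Vtx n), (b.1 : ℕ) + b.2 ≤ (a.1 : ℕ) + a.2 + 2 ^ s →
    FComp (fun x : Set (Vtx n × Vtx n) => Reachable (x ∩ grid n) a b)
      (2 ^ (s * (s + 3) / 2)) := by
  intro s
  induction s with
  | zero =>
    intro a b h
    exact FComp.mono (fcomp_short (by simpa using h)) (by simp)
  | succ s ih =>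
    intro a b h
    have hpow : 2 ^ (s + 1) = 2 * 2 ^ s := by ring
    by_cases h1 : (b.1 : ℕ) + b.2 ≤ (a.1 : ℕ) + a.2 + 1
    · exact FComp.mono (fcomp_short h1) Nat.one_le_two_pow
    · set k := ((b.1 : ℕ) + b.2 - ((a.1 : ℕ) + a.2)) / 2 with hk
      set S : Finset (Vtx n) := univ.filter fun c : Vtx n =>
        (c.1 : ℕ) + c.2 = (a.1 : ℕ) + a.2 + k ∧ (a.1 : ℕ) ≤ c.1 ∧ (c.1 : ℕ) ≤ (a.1 : ℕ) + k with hS
      have hf : ∀ x : Set (Vtx n × Vtx n), (∃ c ∈ S, Reachable (x ∩ grid n) a c ∧
          Reachable (x ∩ grid n) c b) ↔ Reachable (x ∩ grid n) a b := by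
        intro x
        constructor
        · rintro ⟨c, _, h2, h3⟩
          exact h2.trans h3
        · intro h2
          obtain ⟨c, h3, h4, h5⟩ := reach_split Set.inter_subset_right h2
            (k := (a.1 : ℕ) + a.2 + k) (by omega) (by omega)
          have h6 := reach_le Set.inter_subset_right h4
          refine ⟨c, ?_, h4, h5⟩
          rw [hS, mem_filter]
          exact ⟨mem_univ _, h3, h6.1, by omega⟩
      have hcard : S.card ≤ k + 1 := by
        rw [← card_range (k + 1)]
        refine card_le_card_of_injOn (fun c => (c.1 : ℕ) - a.1) ?_ ?_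
        · intro c hc
          rw [mem_coe, hS, mem_filter] at hc
          simp only [coe_range, Set.mem_Iio]
          omega
        · intro c hc d hd hcd
          rw [mem_coe, hS, mem_filter] at hc hd
          simp only at hcd
          exact vtx_ext (by omega) (by omega)
      have hk2 : k + 1 ≤ 2 ^ (s + 1) := by
        have : 1 ≤ 2 ^ s := Nat.one_le_two_pow
        omega
      have hexp : (s + 1) * (s + 1 + 3) / 2 = s * (s + 3) / 2 + (s + 2) := by
        rw [show (s + 1) * (s + 1 + 3) = s * (s + 3) + 2 * (s + 2) by ring,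
          Nat.add_mul_div_left _ _ (by norm_num)]
      rcases S.eq_empty_or_nonempty with hSe | hSn
      · refine ⟨Formula.bot, trivial, Nat.one_le_two_pow, fun x => ?_⟩
        change _ ↔ Reachable (x ∩ grid n) a b
        rw [← hf x, hSe]
        simp [Formula.Eval]
      · obtain ⟨φ, g1, g2, g3⟩ := fcomp_exists hSn (f := fun c x => Reachable (x ∩ grid n) a c ∧
          Reachable (x ∩ grid n) c b) (m := 2 ^ (s * (s + 3) / 2) + 2 ^ (s * (s + 3) / 2))
          (fun c hc => by
            rw [hS, mem_filter] at hc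
            exact FComp.and (ih a c (by omega)) (ih c b (by omega)))
        refine ⟨φ, g1, ?_, fun x => (g3 x).trans (hf x)⟩
        calc φ.leaves ≤ S.card * (2 ^ (s * (s + 3) / 2) + 2 ^ (s * (s + 3) / 2)) := g2
          _ ≤ 2 ^ (s + 1) * (2 ^ (s * (s + 3) / 2) + 2 ^ (s * (s + 3) / 2)) :=
            Nat.mul_le_mul_right _ (hcard.trans hk2)
          _ = 2 ^ ((s + 1) * (s + 1 + 3) / 2) := by
            rw [hexp, pow_add]; ring

/-- `s = clog (2 m)` levels suffice for distance `2 m` -/
theorem clog_bound {m : ℕ} (hm : 1 ≤ m) :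
    (((Nat.clog 2 (2 * m) * (Nat.clog 2 (2 * m) + 3) / 2 : ℕ)) : ℝ) ≤
      (Real.logb 2 m) ^ 2 / 2 + 7 / 2 * Real.logb 2 m + 5 := by
  set s := Nat.clog 2 (2 * m) with hs
  have hm' : (1 : ℝ) ≤ m := by exact_mod_cast hm
  have h0 : 0 ≤ Real.logb 2 m := Real.logb_nonneg (by norm_num) hm'
  have h1 : (s : ℝ) ≤ Real.logb 2 m + 2 := by
    have h2 : 1 ≤ s := by
      rw [hs]
      have := Nat.le_pow_clog (b := 2) (by norm_num) (2 * m)
      by_contra hc
      have h3 : Nat.clog 2 (2 * m) = 0 := by omega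
      rw [h3] at this
      omega
    have h3 : 2 ^ (s - 1) < 2 * m := by
      have := Nat.pow_pred_clog_lt_self (b := 2) (by norm_num) (x := 2 * m) (by omega)
      exact this
    have h4 : (2 : ℝ) ^ (s - 1) ≤ 2 * m := by exact_mod_cast h3.le
    have h5 := Real.logb_le_logb_of_le (b := 2) (by norm_num) (by positivity) h4
    rw [Real.logb_pow, Real.logb_self_eq_one (by norm_num), Real.logb_mul (by norm_num)
      (by positivity), Real.logb_self_eq_one (by norm_num), Nat.cast_sub h2] at h5
    push_cast at h5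
    linarith
  have h2 : (((s * (s + 3) / 2 : ℕ)) : ℝ) ≤ (s : ℝ) * (s + 3) / 2 := by
    have := Nat.div_mul_le_self (s * (s + 3)) 2
    have h3 : (((s * (s + 3) / 2 : ℕ)) : ℝ) * 2 ≤ (s : ℝ) * (s + 3) := by exact_mod_cast this
    linarith
  have h3 : 0 ≤ (s : ℝ) := Nat.cast_nonneg _
  nlinarith

end Pool.Agent.Lib.Pe46137Q
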